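import Mathlib
import Pool.Agent.Lib.MP_90b327_co.WW.WDefs

/-!
Definitions for Theorem NC (near cubes in every dimension; order independence), MP_90b327_co.
Text: /team-store/PHJ_OI.md
-/

set_option autoImplicit false

namespace Pool.Agent.Lib.MP_90b327_co.OI

open Finset Filter Topology
open Pool.Agent.Lib.MP_90b327_co.WW (mv)

/-! ### the normalised kernel on finite patterns of `ℕ^d` -/

/-- normalised kernel: symmetric, `κ X X = 1`, positive definite, invariant under injections of the vertices; a vertex at which the patterns agree may be emptied -/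
structure KP (d : ℕ) (κ : Finset (Fin d → ℕ) → Finset (Fin d → ℕ) → ℝ) : Prop where
  symm : ∀ X Y, κ X Y = κ Y X
  one : ∀ X, κ X X = 1
  psd : ∀ (ι : Type) [Fintype ι] (X : ι → Finset (Fin d → ℕ)) (a : ι → ℝ),
    0 ≤ ∑ i, ∑ j, a i * a j * κ (X i) (X j)
  inv : ∀ σ : ℕ → ℕ, Function.Injective σ → ∀ X Y, κ (mv σ X) (mv σ Y) = κ X Y
  rem : ∀ (X Y : Finset (Fin d → ℕ)) (v : ℕ), (∀ c : Fin d → ℕ, (∃ i, c i = v) → (c ∈ X ↔ c ∈ Y)) →
    κ X Y = κ (X.filter (fun c => ∀ i, c i ≠ v)) (Y.filter (fun c => ∀ i, c i ≠ v))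

/-! ### shift invariant mean -/

/-- a set of sizes which contains arbitrarily long intervals, arbitrarily far out -/
def Thick (T : Set ℕ) : Prop := ∀ k : ℕ, ∃ x : ℕ, k ≤ x ∧ ∀ i < k, x + i ∈ T

/-- shift invariant mean concentrated on `T` -/
structure Mean (T : Set ℕ) (Λ : (ℕ → ℝ) →ₗ[ℝ] ℝ) : Prop where
  pos : ∀ (f : ℕ → ℝ) (C : ℝ), (∀ n, 0 ≤ f n) → (∀ n, f n ≤ C) → 0 ≤ Λ f
  shift : ∀ (f : ℕ → ℝ) (C : ℝ), (∀ n, |f n| ≤ C) → ∀ k : ℕ, Λ (fun n => f (n + k)) = Λ f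
  ev : ∀ (f : ℕ → ℝ) (C : ℝ), (∀ n, |f n| ≤ C) → ∀ (c : ℝ) (n₀ : ℕ),
    (∀ n, n₀ ≤ n → n ∈ T → f n = c) → Λ f = c

/-- iterated means; the first variable is the outermost one -/
noncomputable def It (Λ : (ℕ → ℝ) →ₗ[ℝ] ℝ) : ℕ → (List ℕ → ℝ) → ℝ
  | 0, F => F []
  | k + 1, F => Λ (fun m => It Λ k (fun s => F (m :: s)))

/-! ### functionals of predicates on tuples of names -/

/-- predicates on tuples of names -/
abbrev Pr (d : ℕ) (ν : Type) : Type := (Fin d → ν) → Prop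

/-- functionals: a type of names, a list of names (first = outermost = smallest block), two predicates -/
abbrev Fam (d : ℕ) : Type 1 := (ν : Type) → List ν → Pr d ν → Pr d ν → ℝ

/-- the properties of the functionals (text section 3) -/
structure LK (d : ℕ) (K : Fam d) : Prop where
  symm : ∀ (ν : Type) (l : List ν) (X Y : Pr d ν), K ν l X Y = K ν l Y X
  one : ∀ (ν : Type) (l : List ν) (X : Pr d ν), K ν l X X = 1
  psd : ∀ (ν : Type) (l : List ν) (ι : Type) [Fintype ι] (X : ι → Pr d ν) (a : ι → ℝ),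
    0 ≤ ∑ i, ∑ j, a i * a j * K ν l (X i) (X j)
  map : ∀ (ν ν' : Type) (h : ν → ν') (l : List ν) (X Y : Pr d ν'),
    K ν' (l.map h) X Y = K ν l (fun t => X (fun i => h (t i))) (fun t => Y (fun i => h (t i)))
  ext : ∀ (ν : Type) (A : List ν) (b : ν) (B : List ν) (X Y : Pr d ν),
    (∀ t : Fin d → ν, (∃ i, t i = b) → (X t ↔ Y t)) → K ν (A ++ b :: B) X Y = K ν (A ++ B) X Y
  abs : ∀ (ν : Type) (A : List ν) (b : ν) (B : List ν) (X Y : Pr d ν), b ∈ B →
    K ν (A ++ b :: B) X Y = K ν (A ++ B) X Y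
  rem : ∀ (ν : Type) (l : List ν) (X Y X' Y' : Pr d ν),
    (∀ t : Fin d → ν, (∀ i, t i ∈ l) → ((X t ↔ X' t) ∧ (Y t ↔ Y' t)) ∨
      ((X t ↔ Y t) ∧ (X' t ↔ Y' t) ∧ ∀ t' : Fin d → ν, (∀ i, t' i ∈ l) → ¬ (X t' ↔ Y t') →
        ¬ (∀ i, ∃ j, t i = t' j))) → K ν l X Y = K ν l X' Y'

/-! ### doubling (text 4.1) -/

/-- all copies are replaced by the name `b` -/
def st {ν κ : Type} {d : ℕ} (b : ν) (t : Fin d → ν ⊕ κ) : Fin d → ν :=
  fun i => Sum.elim id (fun _ => b) (t i)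

/-- the predicate `V_I`: the copies in `I` are in (role `X`), the others out (role `Y`). (The name `b` itself is
no longer used; tuples through `inl b` are declared to be out of the predicate.) -/
def vv {ν κ : Type} {d : ℕ} (X Y : Pr d ν) (b : ν) (I : κ → Prop) : Pr d (ν ⊕ κ) := fun t =>
  (∀ i, t i ≠ Sum.inl b) ∧ ((∀ i k, t i = Sum.inr k → I k) → X (st b t)) ∧
    (¬ (∀ i k, t i = Sum.inr k → I k) → Y (st b t))

/-- types of copies for a pair `V_I, V_J`: common, only in `I`, only in `J`, in none -/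
inductive Ty | c | x | y | o
deriving DecidableEq

def IX : Ty → Prop := fun k => k = Ty.c ∨ k = Ty.x

def IY : Ty → Prop := fun k => k = Ty.c ∨ k = Ty.y

/-- `⟨V_I, V_J⟩` with copies named by their types -/
noncomputable def kt {d : ℕ} (K : Fam d) {ν : Type} (X Y : Pr d ν) (b : ν) (W : List (ν ⊕ Ty)) : ℝ :=
  K (ν ⊕ Ty) W (vv X Y b IX) (vv X Y b IY)

/-- the list `l` of names as original names -/
def il {ν κ : Type} (l : List ν) : List (ν ⊕ κ) := l.map Sum.inl

/-- Gram value with the two copies at the two cuts of `l1 l2 l3` -/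
noncomputable def mm {d : ℕ} (K : Fam d) {ν : Type} (X Y : Pr d ν) (b : ν) (l1 l2 l3 : List ν) : ℝ :=
  kt K X Y b (il l1 ++ Sum.inr Ty.x :: (il l2 ++ Sum.inr Ty.y :: il l3))

/-- planted Gram value: a common copy below -/
noncomputable def mc {d : ℕ} (K : Fam d) {ν : Type} (X Y : Pr d ν) (b : ν) (l0 l1 l2 l3 : List ν) : ℝ :=
  kt K X Y b (il l0 ++ Sum.inr Ty.c :: (il l1 ++ Sum.inr Ty.x :: (il l2 ++ Sum.inr Ty.y :: il l3)))

/-! ### classes (text 4.3) -/

/-- difference tuples -/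
def Df {d : ℕ} {ν : Type} (X Y : Pr d ν) (t : Fin d → ν) : Prop := ¬ (X t ↔ Y t)

/-- `f` forced classes: every difference tuple contains exactly one name of each class -/
structure FE {d : ℕ} {ν : Type} {f : ℕ} (X Y : Pr d ν) (C : Fin f → Set ν) : Prop where
  disj : ∀ i j, i ≠ j → ∀ a, a ∈ C i → a ∉ C j
  ex : ∀ t, Df X Y t → ∀ j, ∃ i, t i ∈ C j
  un : ∀ t, Df X Y t → ∀ j i i', t i ∈ C j → t i' ∈ C j → t i = t i'

/-- exchange of two names in a tuple -/
noncomputable def sw {d : ℕ} {ν : Type} (g g' : ν) (t : Fin d → ν) : Fin d → ν :=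
  open Classical in fun i => if t i = g then g' else if t i = g' then g else t i

/-- below a difference tuple the exchange of `g`, `g'` exchanges `X` and `Y` -/
def SymP {d : ℕ} {ν : Type} (X Y : Pr d ν) (g g' : ν) : Prop :=
  ∀ t t' : Fin d → ν, Df X Y t' → (∀ i, ∃ j, t i = t' j) →
    (X t ↔ Y (sw g g' t)) ∧ (Y t ↔ X (sw g g' t))

/-- every difference tuple contains exactly one of `g`, `g'` -/
def Exc {d : ℕ} {ν : Type} (X Y : Pr d ν) (g g' : ν) : Prop :=
  ∀ t : Fin d → ν, Df X Y t → ((∃ i, t i = g) ∧ ∀ i, t i ≠ g') ∨ ((∃ i, t i = g') ∧ ∀ i, t i ≠ g)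

/-- order independence -/
def OIs {d : ℕ} (K : Fam d) {ν : Type} (X Y : Pr d ν) : Prop :=
  ∀ l l' : List ν, l.Nodup → l.Perm l' → K ν l X Y = K ν l' X Y

/-- the induction statement `C(f)` -/
def CF (d : ℕ) (K : Fam d) (f : ℕ) : Prop :=
  ∀ (ν : Type) (X Y : Pr d ν) (C : Fin f → Set ν), FE X Y C → OIs K X Y

end Pool.Agent.Lib.MP_90b327_co.OI
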