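import Mathlib
import Pool.Agent.Lib.MP_90b327_co.OI.ODefs

/-!
Existence of a shift invariant mean concentrated on a thick set (text 3).

PROOF. Choose `x : ℕ → ℕ` with `k ≤ x k` and `x k + i ∈ T` for `i < k`. Let `p = hyperfilter ℕ` (`p ≤ atTop`), `A f k = (∑ i ∈ range k, f (x k + i)) / k`. The submodule
`B = {f | ∃ a, Tendsto (A f) p (𝓝 a)}` of `ℕ → ℝ` and the linear map `B → ℝ`, `f ↦ lim` (unique limits), extend it to all sequences with `LinearMap.exists_extend`.
Every f with `|f n| ≤ C` is in B (A f is bounded, compactness of `[-C, C]` with the ultrafilter).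
pos: limits of nonnegative numbers (0 ≤ f ≤ C implies |f| ≤ C). shift: A (f(· + 1)) k - A f k = (f (x k + k) - f (x k)) / k → 0, then induction on the shift.
ev: for k ≥ n₀ all n = x k + i, i < k, satisfy n ≥ k ≥ n₀, n ∈ T, so A f k = c for k ≥ max n₀ 1.
-/

set_option autoImplicit false

namespace Pool.Agent.Lib.MP_90b327_co.OI

open Finset Filter Topology
open Pool.Agent.Lib.MP_90b327_co.WW (mv)

/-- averages over the intervals `[x k, x k + k)` -/
private noncomputable def av (x : ℕ → ℕ) (f : ℕ → ℝ) (k : ℕ) : ℝ :=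
  (∑ i ∈ range k, f (x k + i)) / k

private lemma av_abs (x : ℕ → ℕ) (f : ℕ → ℝ) (C : ℝ) (hf : ∀ n, |f n| ≤ C) (k : ℕ) :
    |av x f k| ≤ C := by
  have hC : 0 ≤ C := le_trans (abs_nonneg _) (hf 0)
  unfold av
  rcases Nat.eq_zero_or_pos k with rfl | hk
  · simpa using hC
  · have hk' : (0 : ℝ) < k := by exact_mod_cast hk
    rw [abs_div, abs_of_pos hk', div_le_iff₀ hk']
    calc |∑ i ∈ range k, f (x k + i)| ≤ ∑ i ∈ range k, |f (x k + i)| := abs_sum_le_sum_abs _ _
      _ ≤ ∑ _i ∈ range k, C := sum_le_sum (fun i _ => hf _)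
      _ = C * k := by simp [mul_comm]

private lemma av_add (x : ℕ → ℕ) (f g : ℕ → ℝ) (k : ℕ) :
    av x (f + g) k = av x f k + av x g k := by
  simp only [av, Pi.add_apply, sum_add_distrib, add_div]

private lemma av_smul (x : ℕ → ℕ) (c : ℝ) (f : ℕ → ℝ) (k : ℕ) :
    av x (c • f) k = c * av x f k := by
  simp only [av, Pi.smul_apply, smul_eq_mul, ← mul_sum, mul_div_assoc]

/-- sequences whose averages converge along the ultrafilter -/
private noncomputable def subB (x : ℕ → ℕ) : Submodule ℝ (ℕ → ℝ) where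
  carrier := {f | ∃ a, Tendsto (av x f) (hyperfilter ℕ : Ultrafilter ℕ) (𝓝 a)}
  add_mem' := by
    rintro f g ⟨a, ha⟩ ⟨b, hb⟩
    refine ⟨a + b, ?_⟩
    have : av x (f + g) = fun k => av x f k + av x g k := funext (av_add x f g)
    rw [this]
    exact ha.add hb
  zero_mem' := by
    refine ⟨0, ?_⟩
    have : av x (0 : ℕ → ℝ) = fun _ => (0 : ℝ) := by
      funext k; simp [av]
    rw [this]
    exact tendsto_const_nhds
  smul_mem' := by
    rintro c f ⟨a, ha⟩
    refine ⟨c * a, ?_⟩
    have : av x (c • f) = fun k => c * av x f k := funext (av_smul x c f)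
    rw [this]
    exact ha.const_mul c

private noncomputable def limB (x : ℕ → ℕ) : subB x →ₗ[ℝ] ℝ where
  toFun f := f.2.choose
  map_add' := by
    intro f g
    have h1 := f.2.choose_spec
    have h2 := g.2.choose_spec
    have h3 := (f + g).2.choose_spec
    refine tendsto_nhds_unique h3 ?_
    have : av x ((f + g : subB x) : ℕ → ℝ) = fun k => av x f k + av x g k := funext (av_add x f g)
    rw [this]
    exact h1.add h2
  map_smul' := by
    intro c f
    have h1 := f.2.choose_spec
    have h3 := (c • f).2.choose_spec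
    refine tendsto_nhds_unique h3 ?_
    have : av x ((c • f : subB x) : ℕ → ℝ) = fun k => c * av x f k := funext (av_smul x c f)
    rw [this]
    exact h1.const_mul c

private lemma limB_eq (x : ℕ → ℕ) (f : subB x) (a : ℝ)
    (ha : Tendsto (av x f) (hyperfilter ℕ : Ultrafilter ℕ) (𝓝 a)) : limB x f = a :=
  tendsto_nhds_unique f.2.choose_spec ha

private lemma mem_subB (x : ℕ → ℕ) (f : ℕ → ℝ) (C : ℝ) (hf : ∀ n, |f n| ≤ C) :
    ∃ a, Tendsto (av x f) (hyperfilter ℕ : Ultrafilter ℕ) (𝓝 a) := by
  have hK : IsCompact (Set.Icc (-C) C) := isCompact_Icc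
  have hm : ((hyperfilter ℕ : Ultrafilter ℕ).map (av x f) : Filter ℝ) ≤ 𝓟 (Set.Icc (-C) C) := by
    rw [Filter.le_principal_iff, Ultrafilter.mem_coe, Ultrafilter.mem_map]
    exact Filter.univ_mem' (fun k => abs_le.mp (av_abs x f C hf k))
  obtain ⟨a, _, ha⟩ := hK.ultrafilter_le_nhds _ hm
  exact ⟨a, ha⟩

theorem exists_mean (T : Set ℕ) (hT : Thick T) : ∃ Λ : (ℕ → ℝ) →ₗ[ℝ] ℝ, Mean T Λ := by
  choose x hx hxT using hT
  obtain ⟨Λ, hΛ⟩ := LinearMap.exists_extend (limB x)
  have key : ∀ (f : ℕ → ℝ) (a : ℝ),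
      Tendsto (av x f) (hyperfilter ℕ : Ultrafilter ℕ) (𝓝 a) → Λ f = a := by
    intro f a ha
    have h1 : Λ f = (Λ.comp (subB x).subtype) ⟨f, a, ha⟩ := rfl
    rw [h1, hΛ]
    exact limB_eq x ⟨f, a, ha⟩ a ha
  refine ⟨Λ, ?_, ?_, ?_⟩
  · intro f C h0 hC
    obtain ⟨a, ha⟩ := mem_subB x f C (fun n => by rw [abs_of_nonneg (h0 n)]; exact hC n)
    rw [key f a ha]
    refine ge_of_tendsto' ha (fun k => ?_)
    exact div_nonneg (sum_nonneg (fun i _ => h0 _)) (Nat.cast_nonneg k)
  · have one : ∀ (f : ℕ → ℝ) (C : ℝ), (∀ n, |f n| ≤ C) → Λ (fun n => f (n + 1)) = Λ f := by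
      intro f C hC
      obtain ⟨a, ha⟩ := mem_subB x f C hC
      rw [key f a ha]
      apply key
      have h1 : av x (fun n => f (n + 1)) =
          fun k => av x f k + (f (x k + k) - f (x k)) / k := by
        funext k
        unfold av
        rw [← add_div]
        congr 1
        have h2 := sum_range_succ (fun i => f (x k + i)) k
        have h3 := sum_range_succ' (fun i => f (x k + i)) k
        simp only [add_zero] at h3
        have h4 : ∑ i ∈ range k, f (x k + i + 1) = ∑ i ∈ range k, f (x k + (i + 1)) := rfl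
        rw [h4]
        linarith
      rw [h1]
      have h5 : Tendsto (fun k : ℕ => (f (x k + k) - f (x k)) / k) atTop (𝓝 0) := by
        have h6 : Tendsto (fun k : ℕ => (2 * C) / (k : ℝ)) atTop (𝓝 0) :=
          tendsto_const_div_atTop_nhds_zero_nat _
        refine squeeze_zero_norm (fun k => ?_) h6
        rw [Real.norm_eq_abs, abs_div, Nat.abs_cast]
        refine div_le_div_of_nonneg_right ?_ (Nat.cast_nonneg k)
        have := abs_sub (f (x k + k)) (f (x k))
        linarith [hC (x k + k), hC (x k)]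
      have h7 := h5.mono_left Nat.hyperfilter_le_atTop
      simpa using ha.add h7
    intro f C hC k
    induction k with
    | zero => rfl
    | succ k ih =>
      rw [← ih]
      have := one (fun n => f (n + k)) C (fun n => hC _)
      rw [← this]
      congr 1
      funext n
      congr 1
      omega
  · intro f C hC c n₀ h
    apply key
    have h1 : ∀ᶠ k : ℕ in atTop, av x f k = c := by
      filter_upwards [eventually_ge_atTop n₀, eventually_ge_atTop 1] with k hk hk1
      unfold av
      have hk' : (0 : ℝ) < k := by exact_mod_cast hk1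
      have h2 : ∑ i ∈ range k, f (x k + i) = ∑ _i ∈ range k, c := by
        refine sum_congr rfl (fun i hi => h _ ?_ ?_)
        · exact le_trans hk (le_trans (hx k) (Nat.le_add_right _ _))
        · exact hxT k i (mem_range.mp hi)
      rw [h2]
      simp only [sum_const, card_range, nsmul_eq_mul]
      field_simp
    have h3 : ∀ᶠ k : ℕ in ((hyperfilter ℕ : Ultrafilter ℕ) : Filter ℕ), av x f k = c :=
      Nat.hyperfilter_le_atTop h1
    exact Tendsto.congr' (h3.mono fun k hk => hk.symm) tendsto_const_nhds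

end Pool.Agent.Lib.MP_90b327_co.OI
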