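import Mathlib
import Pool.Agent.Lib.MP_90b327_co.OI.ODefs

/-!
MODULE OBE (45 minutes). Limits of exchangeable Gram matrices (text 4.0).

`be_psd`. If a = 0 or so trivial; let s = sum |a c|. For k >= 2 take the coefficients (c, i) -> a c / k in the psd inequality. For c, c' the sum over i <> j of
B (c,i) (c',j) is (k^2 - k) b c c' (for i < j by hypothesis, for i > j by symmetry of B and of b), the k diagonal terms are bounded by 1 in absolute value, and |b| <= 1.
So 0 <= sum a c a c' b c c' + 2 s^2 / k for all k >= 2; let k -> infinity.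
`psd_ge`: coefficients Pi.single x 1 - Pi.single y 1. `psd_null`: coefficients Pi.single x 1 - Pi.single y 1 + s Pi.single z 1:
0 <= 2 s (b x z - b y z) + s^2 b z z for all real s, so b x z = b y z (x, y, z need not be different; expand the double sum bilinearly).
`LK.le_one`: psd with two predicates (coefficients 1, +-1) and `one`.
`lk_be`: `be_psd` with B (c,i) (c',j) = K ν (U k) (V c i) (V c' j).
-/

set_option autoImplicit false

namespace Pool.Agent.Lib.MP_90b327_co.OI

open Finset Filter Topology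
open Pool.Agent.Lib.MP_90b327_co.WW (mv)

private theorem quad3 {C : Type} [Fintype C] [DecidableEq C] (b : C → C → ℝ) (x y z : C) (s r t : ℝ) :
    ∑ c, ∑ c', (s * (if c = x then 1 else 0) + r * (if c = y then 1 else 0) + t * (if c = z then 1 else 0)) *
      (s * (if c' = x then 1 else 0) + r * (if c' = y then 1 else 0) + t * (if c' = z then 1 else 0)) * b c c' =
    s ^ 2 * b x x + r ^ 2 * b y y + t ^ 2 * b z z + s * r * (b x y + b y x) + s * t * (b x z + b z x) +
      r * t * (b y z + b z y) := by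
  have h1 : ∀ c, ∑ c', (s * (if c = x then 1 else 0) + r * (if c = y then 1 else 0) + t * (if c = z then 1 else 0)) *
      (s * (if c' = x then 1 else 0) + r * (if c' = y then 1 else 0) + t * (if c' = z then 1 else 0)) * b c c' =
      (s * (if c = x then 1 else 0) + r * (if c = y then 1 else 0) + t * (if c = z then 1 else 0)) *
      (s * b c x + r * b c y + t * b c z) := by
    intro c
    have h2 : ∀ c', (s * (if c = x then 1 else 0) + r * (if c = y then 1 else 0) + t * (if c = z then 1 else 0)) *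
      (s * (if c' = x then 1 else 0) + r * (if c' = y then 1 else 0) + t * (if c' = z then (1 : ℝ) else 0)) * b c c' =
      (s * (if c = x then 1 else 0) + r * (if c = y then 1 else 0) + t * (if c = z then 1 else 0)) *
      ((if c' = x then s * b c c' else 0) + (if c' = y then r * b c c' else 0) + (if c' = z then t * b c c' else 0)) := by
      intro c'
      split_ifs <;> ring
    rw [sum_congr rfl (fun c' _ => h2 c'), ← mul_sum, sum_add_distrib, sum_add_distrib]
    simp
  rw [sum_congr rfl (fun c _ => h1 c)]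
  have h3 : ∀ c, (s * (if c = x then 1 else 0) + r * (if c = y then 1 else 0) + t * (if c = z then 1 else 0)) *
      (s * b c x + r * b c y + t * b c z) =
      (if c = x then s * (s * b c x + r * b c y + t * b c z) else 0) +
      (if c = y then r * (s * b c x + r * b c y + t * b c z) else 0) +
      (if c = z then t * (s * b c x + r * b c y + t * b c z) else 0) := by
    intro c
    split_ifs <;> ring
  rw [sum_congr rfl (fun c _ => h3 c), sum_add_distrib, sum_add_distrib]
  simp only [sum_ite_eq', mem_univ, if_true]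
  ring

theorem be_psd {C : Type} [Fintype C] (b : C → C → ℝ) (hb : ∀ c c', b c c' = b c' c)
    (h : ∀ k : ℕ, ∃ B : C × Fin k → C × Fin k → ℝ, (∀ x y, B x y = B y x) ∧ (∀ x y, |B x y| ≤ 1) ∧
      (∀ a : C × Fin k → ℝ, 0 ≤ ∑ x, ∑ y, a x * a y * B x y) ∧
      ∀ (c c' : C) (i j : Fin k), i < j → B (c, i) (c', j) = b c c') (a : C → ℝ) :
    0 ≤ ∑ c, ∑ c', a c * a c' * b c c' := by
  set Q := ∑ c, ∑ c', a c * a c' * b c c' with hQ
  set s := ∑ c, |a c| with hs
  have key : ∀ k : ℕ, 0 ≤ ((k : ℝ) ^ 2 - k) * Q + k * s ^ 2 := by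
    intro k
    obtain ⟨B, hsym, hbd, hpsd, hB⟩ := h k
    have h1 := hpsd (fun x => a x.1)
    have hne : ∀ (c c' : C) (i j : Fin k), i ≠ j → B (c, i) (c', j) = b c c' := by
      intro c c' i j hij
      rcases lt_or_gt_of_ne hij with hlt | hlt
      · exact hB c c' i j hlt
      · rw [hsym, hB c' c j i hlt, hb]
    have h2 : ∀ c c' : C, ∑ i : Fin k, ∑ j : Fin k, a c * a c' * B (c, i) (c', j) ≤
        ((k : ℝ) ^ 2 - k) * (a c * a c' * b c c') + k * (|a c| * |a c'|) := by
      intro c c'
      have h3 : ∀ i : Fin k, ∑ j : Fin k, a c * a c' * B (c, i) (c', j) ≤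
          ((k : ℝ) - 1) * (a c * a c' * b c c') + |a c| * |a c'| := by
        intro i
        have h4 : ∀ j : Fin k, a c * a c' * B (c, i) (c', j) =
            (if i = j then (a c * a c' * B (c, i) (c', i) - a c * a c' * b c c') else 0) +
              a c * a c' * b c c' := by
          intro j
          by_cases hij : i = j
          · subst hij; simp
          · rw [hne c c' i j hij, if_neg hij]; ring
        rw [sum_congr rfl (fun j _ => h4 j), sum_add_distrib, sum_ite_eq]
        simp only [mem_univ, if_true, sum_const, card_univ, Fintype.card_fin, nsmul_eq_mul]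
        have h5 : a c * a c' * B (c, i) (c', i) ≤ |a c| * |a c'| := by
          calc a c * a c' * B (c, i) (c', i) ≤ |a c * a c' * B (c, i) (c', i)| := le_abs_self _
            _ = |a c| * |a c'| * |B (c, i) (c', i)| := by rw [abs_mul, abs_mul]
            _ ≤ |a c| * |a c'| * 1 := mul_le_mul_of_nonneg_left (hbd _ _) (by positivity)
            _ = |a c| * |a c'| := mul_one _
        linarith
      calc ∑ i : Fin k, ∑ j : Fin k, a c * a c' * B (c, i) (c', j)
          ≤ ∑ _i : Fin k, (((k : ℝ) - 1) * (a c * a c' * b c c') + |a c| * |a c'|) :=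
            sum_le_sum (fun i _ => h3 i)
        _ = _ := by
          simp only [sum_const, card_univ, Fintype.card_fin, nsmul_eq_mul]
          ring
    have h6 : ∑ x : C × Fin k, ∑ y : C × Fin k, a x.1 * a y.1 * B x y =
        ∑ c, ∑ c', ∑ i : Fin k, ∑ j : Fin k, a c * a c' * B (c, i) (c', j) := by
      rw [Fintype.sum_prod_type]
      refine sum_congr rfl (fun c _ => ?_)
      rw [sum_comm' (s := univ) (t := fun _ => univ) (t' := univ) (s' := fun _ => univ)]
      swap
      · intro x y; simp
      rw [Fintype.sum_prod_type]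
      refine sum_congr rfl (fun c' _ => ?_)
      rw [sum_comm]
    rw [h6] at h1
    have h7 : ∑ c, ∑ c', ∑ i : Fin k, ∑ j : Fin k, a c * a c' * B (c, i) (c', j) ≤
        ∑ c, ∑ c', (((k : ℝ) ^ 2 - k) * (a c * a c' * b c c') + k * (|a c| * |a c'|)) :=
      sum_le_sum (fun c _ => sum_le_sum (fun c' _ => h2 c c'))
    have h8 : ∑ c, ∑ c', (((k : ℝ) ^ 2 - k) * (a c * a c' * b c c') + k * (|a c| * |a c'|)) =
        ((k : ℝ) ^ 2 - k) * Q + k * s ^ 2 := by
      simp only [sum_add_distrib, ← mul_sum]
      rw [← hQ, ← sum_mul, ← hs]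
      ring
    linarith
  by_contra hneg
  push Not at hneg
  obtain ⟨n, hn⟩ := exists_nat_gt (s ^ 2 / (-Q))
  have hQ' : 0 < -Q := by linarith
  rw [div_lt_iff₀ hQ'] at hn
  have h9 := key (n + 1)
  push_cast at h9
  have h10 : ((n : ℝ) + 1) ^ 2 - (n + 1) = (n + 1) * n := by ring
  rw [h10] at h9
  have h11 : 0 ≤ ((n : ℝ) + 1) * (n * Q + s ^ 2) := by linarith
  have h12 : (0 : ℝ) < (n : ℝ) + 1 := by positivity
  have h13 := nonneg_of_mul_nonneg_right h11 h12
  linarith

theorem psd_ge {C : Type} [Fintype C] (b : C → C → ℝ) (hb : ∀ c c', b c c' = b c' c)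
    (h : ∀ a : C → ℝ, 0 ≤ ∑ c, ∑ c', a c * a c' * b c c') (x y : C) :
    2 * b x y ≤ b x x + b y y := by
  classical
  have h1 := h (fun c => 1 * (if c = x then 1 else 0) + (-1) * (if c = y then 1 else 0) +
    0 * (if c = y then 1 else 0))
  rw [quad3 b x y y 1 (-1) 0] at h1
  rw [hb y x] at h1
  linarith

theorem psd_null {C : Type} [Fintype C] (b : C → C → ℝ) (hb : ∀ c c', b c c' = b c' c)
    (h : ∀ a : C → ℝ, 0 ≤ ∑ c, ∑ c', a c * a c' * b c c') (x y : C)
    (hxy : b x x + b y y = 2 * b x y) (z : C) : b x z = b y z := by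
  classical
  have h1 : ∀ t : ℝ, 0 ≤ 2 * t * (b x z - b y z) + t ^ 2 * b z z := by
    intro t
    have h2 := h (fun c => 1 * (if c = x then 1 else 0) + (-1) * (if c = y then 1 else 0) +
      t * (if c = z then 1 else 0))
    rw [quad3 b x y z 1 (-1) t] at h2
    rw [hb y x, hb z x, hb z y] at h2
    linarith
  have hz : 0 ≤ b z z := by
    have h2 := h (fun c => 1 * (if c = z then 1 else 0) + 0 * (if c = z then 1 else 0) +
      0 * (if c = z then 1 else 0))
    rw [quad3 b z z z 1 0 0] at h2
    linarith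
  by_contra hne
  set Δ := b x z - b y z with hΔ
  have hΔ0 : Δ ≠ 0 := sub_ne_zero.2 hne
  have hΔ2 : 0 < Δ ^ 2 := by positivity
  have hβ : 0 < b z z + 1 := by linarith
  have h3 := h1 (-(Δ / (b z z + 1)))
  have h4 : 2 * (-(Δ / (b z z + 1))) * Δ + (-(Δ / (b z z + 1))) ^ 2 * b z z =
      -(Δ ^ 2 * (b z z + 2) / (b z z + 1) ^ 2) := by
    field_simp
    ring
  rw [h4] at h3
  have h5 : 0 < Δ ^ 2 * (b z z + 2) / (b z z + 1) ^ 2 := by positivity
  linarith

theorem LK.le_one {d : ℕ} {K : Fam d} (hK : LK d K) (ν : Type) (l : List ν) (X Y : Pr d ν) :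
    |K ν l X Y| ≤ 1 := by
  have h1 := hK.psd ν l (Fin 2) ![X, Y] ![1, 1]
  have h2 := hK.psd ν l (Fin 2) ![X, Y] ![1, -1]
  simp only [Fin.sum_univ_two, Matrix.cons_val_zero, Matrix.cons_val_one, Matrix.cons_val_fin_one] at h1 h2
  rw [hK.one, hK.one, hK.symm ν l Y X] at h1 h2
  rw [abs_le]
  constructor <;> linarith

theorem lk_be {d : ℕ} {K : Fam d} (hK : LK d K) {C : Type} [Fintype C] (b : C → C → ℝ)
    (hb : ∀ c c', b c c' = b c' c) (ν : Type) (U : ℕ → List ν) (V : C → ℕ → Pr d ν)
    (h : ∀ (k : ℕ) (c c' : C) (i j : ℕ), i < j → j < k → K ν (U k) (V c i) (V c' j) = b c c')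
    (a : C → ℝ) : 0 ≤ ∑ c, ∑ c', a c * a c' * b c c' := by
  refine be_psd b hb (fun k => ⟨fun x y => K ν (U k) (V x.1 x.2) (V y.1 y.2), ?_, ?_, ?_, ?_⟩) a
  · intro x y
    exact hK.symm ν (U k) _ _
  · intro x y
    exact hK.le_one ν (U k) _ _
  · intro a
    exact hK.psd ν (U k) (C × Fin k) (fun x => V x.1 x.2) a
  · intro c c' i j hij
    exact h k c c' i j hij j.2

end Pool.Agent.Lib.MP_90b327_co.OI
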