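import Mathlib
import Pool.Agent.Lib.MP_90b327_co.OI.ODefs

/-!
MODULE OTy (60 minutes). Types of copies (text 4.1).

`gram_ty`: `LK.map` with h = Sum.map id (ty I J) : K (U.map h) (vv IX) (vv IY) = K U (vv IX ∘ h) (vv IY ∘ h) and `vv X Y b IX ∘ h = vv X Y b I`, `vv X Y b IY ∘ h = vv X Y b J` (funext;
IX (ty I J k) ↔ I k, IY (ty I J k) ↔ J k; st b (h ∘ t) = st b t). `kt_o`: `LK.ext`: a tuple through inr o is in neither (the value of both predicates is Y (st b t)). `kt_abs`: `LK.abs`.
`red0`: induction on the list. `red1`, `red2`: split `List.range k` at i (and j), map, red0 on the parts.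
Copies are named by ℕ × ℕ (class, index); `blk q k` is the list of the copies (q,0), .., (q,k-1).
-/

set_option autoImplicit false

namespace Pool.Agent.Lib.MP_90b327_co.OI

open Finset Filter Topology
open Pool.Agent.Lib.MP_90b327_co.WW (mv)

open Classical in
/-- the type of a copy with respect to `I`, `J` -/
noncomputable def ty {κ : Type} (I J : κ → Prop) : κ → Ty := fun k =>
  if I k ∧ J k then Ty.c else if I k then Ty.x else if J k then Ty.y else Ty.o

/-- relabelling of the copies by types -/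
noncomputable def tyh {ν κ : Type} (I J : κ → Prop) : ν ⊕ κ → ν ⊕ Ty := Sum.map id (ty I J)

theorem gram_ty {d : ℕ} {K : Fam d} (hK : LK d K) {ν κ : Type} (X Y : Pr d ν) (b : ν)
    (I J : κ → Prop) (U : List (ν ⊕ κ)) :
    K (ν ⊕ κ) U (vv X Y b I) (vv X Y b J) = kt K X Y b (U.map (tyh I J)) := by
  unfold kt
  rw [hK.map]
  have e : ∀ t : Fin d → ν ⊕ κ, st b (fun i => tyh I J (t i)) = st b t := by
    intro t
    funext i
    show Sum.elim id (fun _ => b) (Sum.map id (ty I J) (t i)) = Sum.elim id (fun _ => b) (t i)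
    rcases t i with a | k
    · rfl
    · rfl
  have e0 : ∀ t : Fin d → ν ⊕ κ, (∀ i, tyh I J (t i) ≠ Sum.inl b) ↔ (∀ i, t i ≠ Sum.inl b) := by
    intro t
    refine forall_congr' fun i => not_congr ?_
    unfold tyh
    rcases t i with a | k
    · simp
    · simp
  have eX : ∀ t : Fin d → ν ⊕ κ, (∀ i k, tyh I J (t i) = Sum.inr k → IX k) ↔
      (∀ i k, t i = Sum.inr k → I k) := by
    intro t
    constructor
    · intro h i k hk
      have h1 := h i (ty I J k) (by rw [hk]; rfl)
      unfold IX ty at h1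
      split_ifs at h1 with a1 a2 a3
      · exact a1.1
      · exact a2
      · simp at h1
      · simp at h1
    · intro h i k hk
      unfold tyh at hk
      rcases hti : t i with a | k'
      · rw [hti] at hk
        simp at hk
      · rw [hti] at hk
        simp only [Sum.map_inr, Sum.inr.injEq] at hk
        have h1 := h i k' hti
        rw [← hk]
        unfold IX ty
        by_cases h2 : J k'
        · simp [h1, h2]
        · simp [h1, h2]
  have eY : ∀ t : Fin d → ν ⊕ κ, (∀ i k, tyh I J (t i) = Sum.inr k → IY k) ↔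
      (∀ i k, t i = Sum.inr k → J k) := by
    intro t
    constructor
    · intro h i k hk
      have h1 := h i (ty I J k) (by rw [hk]; rfl)
      unfold IY ty at h1
      split_ifs at h1 with a1 a2 a3
      · exact a1.2
      · simp at h1
      · exact a3
      · simp at h1
    · intro h i k hk
      unfold tyh at hk
      rcases hti : t i with a | k'
      · rw [hti] at hk
        simp at hk
      · rw [hti] at hk
        simp only [Sum.map_inr, Sum.inr.injEq] at hk
        have h1 := h i k' hti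
        rw [← hk]
        unfold IY ty
        by_cases h2 : I k'
        · simp [h1, h2]
        · simp [h1, h2]
  have fX : (fun t : Fin d → ν ⊕ κ => vv X Y b IX (fun i => tyh I J (t i))) = vv X Y b I := by
    funext t
    unfold vv
    rw [e t, eX t, e0 t]
  have fY : (fun t : Fin d → ν ⊕ κ => vv X Y b IY (fun i => tyh I J (t i))) = vv X Y b J := by
    funext t
    unfold vv
    rw [e t, eY t, e0 t]
  rw [fX, fY]

theorem il_tyh {ν κ : Type} (I J : κ → Prop) (l : List ν) :
    (il l : List (ν ⊕ κ)).map (tyh I J) = il l := by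
  unfold il tyh
  rw [List.map_map]
  rfl

theorem kt_o {d : ℕ} {K : Fam d} (hK : LK d K) {ν : Type} (X Y : Pr d ν) (b : ν)
    (A B : List (ν ⊕ Ty)) : kt K X Y b (A ++ Sum.inr Ty.o :: B) = kt K X Y b (A ++ B) := by
  unfold kt
  apply hK.ext
  rintro t ⟨i, hi⟩
  have hX : ¬ (∀ i k, t i = Sum.inr k → IX k) := by
    intro h
    have := h i Ty.o hi
    unfold IX at this
    simp at this
  have hY : ¬ (∀ i k, t i = Sum.inr k → IY k) := by
    intro h
    have := h i Ty.o hi
    unfold IY at this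
    simp at this
  unfold vv
  constructor
  · rintro ⟨h1, _, h3⟩
    exact ⟨h1, fun h => absurd h hY, fun _ => h3 hX⟩
  · rintro ⟨h1, _, h3⟩
    exact ⟨h1, fun h => absurd h hX, fun _ => h3 hY⟩

theorem kt_abs {d : ℕ} {K : Fam d} (hK : LK d K) {ν : Type} (X Y : Pr d ν) (b : ν)
    (A : List (ν ⊕ Ty)) (z : ν ⊕ Ty) (B : List (ν ⊕ Ty)) (hz : z ∈ B) :
    kt K X Y b (A ++ z :: B) = kt K X Y b (A ++ B) := by
  unfold kt
  exact hK.abs _ A z B _ _ hz

theorem kt_os {d : ℕ} {K : Fam d} (hK : LK d K) {ν : Type} (X Y : Pr d ν) (b : ν)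
    (L : List (ν ⊕ Ty)) (hL : ∀ z ∈ L, z = Sum.inr Ty.o) (A B : List (ν ⊕ Ty)) :
    kt K X Y b (A ++ (L ++ B)) = kt K X Y b (A ++ B) := by
  induction L with
  | nil => rfl
  | cons z L ih =>
    rw [hL z List.mem_cons_self, List.cons_append, kt_o hK]
    exact ih (fun z' hz' => hL z' (List.mem_cons_of_mem _ hz'))

/-- the copies `(q, 0), .., (q, k - 1)` -/
def blk {ν : Type} (q k : ℕ) : List (ν ⊕ ℕ × ℕ) := (List.range k).map (fun i => Sum.inr (q, i))

theorem red0 {d : ℕ} {K : Fam d} (hK : LK d K) {ν : Type} (X Y : Pr d ν) (b : ν)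
    (I J : ℕ × ℕ → Prop) (q k : ℕ) (hh : ∀ i, i < k → ty I J (q, i) = Ty.o) (A B : List (ν ⊕ Ty)) :
    kt K X Y b (A ++ ((blk q k).map (tyh I J) ++ B)) = kt K X Y b (A ++ B) := by
  apply kt_os hK
  intro z hz
  unfold blk at hz
  rw [List.map_map, List.mem_map] at hz
  obtain ⟨i, hi, rfl⟩ := hz
  rw [List.mem_range] at hi
  show Sum.inr (ty I J (q, i)) = _
  rw [hh i hi]

theorem red1 {d : ℕ} {K : Fam d} (hK : LK d K) {ν : Type} (X Y : Pr d ν) (b : ν)
    (I J : ℕ × ℕ → Prop) (q k i : ℕ) (hi : i < k)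
    (hh : ∀ i', i' < k → i' ≠ i → ty I J (q, i') = Ty.o) (A B : List (ν ⊕ Ty)) :
    kt K X Y b (A ++ ((blk q k).map (tyh I J) ++ B)) =
      kt K X Y b (A ++ Sum.inr (ty I J (q, i)) :: B) := by
  obtain ⟨R1, R2, hR⟩ := List.append_of_mem (List.mem_range.mpr hi)
  have hn : (R1 ++ i :: R2).Nodup := by rw [← hR]; exact List.nodup_range
  have m1 : ∀ u ∈ R1, u < k ∧ u ≠ i := by
    intro u hu
    refine ⟨List.mem_range.mp (by rw [hR]; exact List.mem_append_left _ hu), ?_⟩
    rintro rfl
    exact (List.nodup_append.mp hn).2.2 u hu u (List.mem_cons_self) rfl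
  have m2 : ∀ u ∈ R2, u < k ∧ u ≠ i := by
    intro u hu
    have hu' : u ∈ List.range k := by
      rw [hR]
      exact List.mem_append_right _ (List.mem_cons_of_mem _ hu)
    refine ⟨List.mem_range.mp hu', ?_⟩
    rintro rfl
    have h2 := (List.nodup_append.mp hn).2.1
    rw [List.nodup_cons] at h2
    exact h2.1 hu
  have e1 : (blk q k : List (ν ⊕ ℕ × ℕ)).map (tyh I J) =
      R1.map (fun i => Sum.inr (ty I J (q, i))) ++ Sum.inr (ty I J (q, i)) ::
        R2.map (fun i => Sum.inr (ty I J (q, i))) := by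
    unfold blk
    rw [List.map_map, hR, List.map_append, List.map_cons]
    rfl
  have o1 : ∀ z ∈ R1.map (fun i => (Sum.inr (ty I J (q, i)) : ν ⊕ Ty)), z = Sum.inr Ty.o := by
    intro z hz
    rw [List.mem_map] at hz
    obtain ⟨u, hu, rfl⟩ := hz
    rw [hh u (m1 u hu).1 (m1 u hu).2]
  have o2 : ∀ z ∈ R2.map (fun i => (Sum.inr (ty I J (q, i)) : ν ⊕ Ty)), z = Sum.inr Ty.o := by
    intro z hz
    rw [List.mem_map] at hz
    obtain ⟨u, hu, rfl⟩ := hz
    rw [hh u (m2 u hu).1 (m2 u hu).2]
  rw [e1, List.append_assoc, kt_os hK X Y b _ o1, List.cons_append]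
  have e2 : A ++ Sum.inr (ty I J (q, i)) :: (R2.map (fun i => (Sum.inr (ty I J (q, i)) : ν ⊕ Ty)) ++ B)
      = (A ++ [Sum.inr (ty I J (q, i))]) ++
        (R2.map (fun i => (Sum.inr (ty I J (q, i)) : ν ⊕ Ty)) ++ B) := by simp
  rw [e2, kt_os hK X Y b _ o2]
  simp

theorem red2 {d : ℕ} {K : Fam d} (hK : LK d K) {ν : Type} (X Y : Pr d ν) (b : ν)
    (I J : ℕ × ℕ → Prop) (q k i j : ℕ) (hij : i < j) (hj : j < k)
    (hh : ∀ i', i' < k → i' ≠ i → i' ≠ j → ty I J (q, i') = Ty.o) (A B : List (ν ⊕ Ty)) :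
    kt K X Y b (A ++ ((blk q k).map (tyh I J) ++ B)) =
      kt K X Y b (A ++ Sum.inr (ty I J (q, i)) :: Sum.inr (ty I J (q, j)) :: B) := by
  -- split the range at `j`, then the first part at `i`
  have hk : List.range k = List.range j ++ j :: (List.range (k - j - 1)).map (fun u => u + (j + 1)) := by
    have h1 : k = (j + 1) + (k - j - 1) := by omega
    conv_lhs => rw [h1, List.range_add, List.range_succ]
    rw [List.append_assoc, List.singleton_append]
    congr 2
    apply List.map_congr_left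
    intro u _
    omega
  have hj' : List.range j = List.range i ++ i :: (List.range (j - i - 1)).map (fun u => u + (i + 1)) := by
    have h1 : j = (i + 1) + (j - i - 1) := by omega
    conv_lhs => rw [h1, List.range_add, List.range_succ]
    rw [List.append_assoc, List.singleton_append]
    congr 2
    apply List.map_congr_left
    intro u _
    omega
  have e1 : (blk q k : List (ν ⊕ ℕ × ℕ)).map (tyh I J) =
      (List.range i).map (fun i => Sum.inr (ty I J (q, i))) ++ Sum.inr (ty I J (q, i)) ::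
        (((List.range (j - i - 1)).map (fun u => u + (i + 1))).map
          (fun i => Sum.inr (ty I J (q, i))) ++ Sum.inr (ty I J (q, j)) ::
          ((List.range (k - j - 1)).map (fun u => u + (j + 1))).map
            (fun i => Sum.inr (ty I J (q, i)))) := by
    unfold blk
    rw [List.map_map, hk, hj']
    simp only [List.map_append, List.map_cons, List.append_assoc, List.cons_append]
    rfl
  have o1 : ∀ z ∈ (List.range i).map (fun i => (Sum.inr (ty I J (q, i)) : ν ⊕ Ty)),
      z = Sum.inr Ty.o := by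
    intro z hz
    rw [List.mem_map] at hz
    obtain ⟨u, hu, rfl⟩ := hz
    rw [List.mem_range] at hu
    rw [hh u (by omega) (by omega) (by omega)]
  have o2 : ∀ z ∈ ((List.range (j - i - 1)).map (fun u => u + (i + 1))).map
      (fun i => (Sum.inr (ty I J (q, i)) : ν ⊕ Ty)), z = Sum.inr Ty.o := by
    intro z hz
    rw [List.mem_map] at hz
    obtain ⟨u, hu, rfl⟩ := hz
    rw [List.mem_map] at hu
    obtain ⟨v, hv, rfl⟩ := hu
    rw [List.mem_range] at hv
    rw [hh _ (by omega) (by omega) (by omega)]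
  have o3 : ∀ z ∈ ((List.range (k - j - 1)).map (fun u => u + (j + 1))).map
      (fun i => (Sum.inr (ty I J (q, i)) : ν ⊕ Ty)), z = Sum.inr Ty.o := by
    intro z hz
    rw [List.mem_map] at hz
    obtain ⟨u, hu, rfl⟩ := hz
    rw [List.mem_map] at hu
    obtain ⟨v, hv, rfl⟩ := hu
    rw [List.mem_range] at hv
    rw [hh _ (by omega) (by omega) (by omega)]
  rw [e1, List.append_assoc, kt_os hK X Y b _ o1, List.cons_append]
  have e2 : ∀ L Z : List (ν ⊕ Ty), A ++ Sum.inr (ty I J (q, i)) :: ((L ++ Z) ++ B) =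
      (A ++ [Sum.inr (ty I J (q, i))]) ++ (L ++ (Z ++ B)) := by
    intro L Z; simp
  rw [e2, kt_os hK X Y b _ o2]
  have e3 : ∀ L : List (ν ⊕ Ty), (A ++ [Sum.inr (ty I J (q, i))]) ++
      ((Sum.inr (ty I J (q, j)) :: L) ++ B) =
      (A ++ [Sum.inr (ty I J (q, i)), Sum.inr (ty I J (q, j))]) ++ (L ++ B) := by
    intro L; simp
  rw [e3, kt_os hK X Y b _ o3]
  simp

end Pool.Agent.Lib.MP_90b327_co.OI
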