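import Mathlib
import Pool.Agent.Lib.MP_90b327_co.OI.ODefs
import Pool.Agent.Lib.MP_90b327_co.OI.OBE
import Pool.Agent.Lib.MP_90b327_co.OI.OTy

/-!
MODULE OA (75 minutes). Planting a low common name (text 4.4 (A)).

PROOF. Names ν ⊕ ℕ × ℕ, k1 = (3,0), k2 = (3,1). U k = il l0 ++ inr k1 :: inr k2 :: (il l1 ++ (blk 0 k ++ (il l2 ++ (blk 1 k ++ il l3)))). Classes C = Fin 4: V 0 i = V_{k1, (0,i)},
V 1 i = V_{k1, (1,i)}, V 2 i = V_{k1, k2, (1,i)}, V 3 i = V_{k2, (1,i)} (V_I = vv X Y b (fun k => k ∈ I)). Let θ = mc K X Y b l0 (l1 ++ l2) [] l3, θ' = mc K X Y b l0 l1 l2 l3,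
θ'' = mc K X Y b l0 l1 [] (l2 ++ l3), μ = mm (l0 ++ l1) l2 l3, μ' = mm (l0 ++ l1 ++ l2) [] l3. Entries (i < j < k; gram_ty, red0, red1, red2, kt_o, kt_abs):
(0,0) = θ''; (0,1) = (1,0) = θ'; (0,2) = (2,0) = θ' (types k1 ↦ c, k2 ↦ y, (0,i) ↦ x, (1,j) ↦ y; k2 absorbed); (0,3) = (3,0) = μ (k1 ↦ x absorbed by (0,i), k2 ↦ y absorbed by (1,j));
(1,1) = θ; (1,2) = θ; (2,2) = θ (k1, k2 ↦ c, k1 absorbed); (2,3) = θ (k1 ↦ x absorbed, k2 ↦ c); (3,3) = θ; (1,3) = μ'. All symmetric (for the transposed entries use K symmetric or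
compute them). psd_null 1 2: b 1 z = b 2 z; psd_null 2 3: b 2 z = b 3 z. z = 0: θ' = b 1 0 = b 2 0 = b 3 0 = μ.
-/

set_option autoImplicit false

namespace Pool.Agent.Lib.MP_90b327_co.OI

open Finset Filter Topology
open Pool.Agent.Lib.MP_90b327_co.WW (mv)

/-- the universe list of module OA -/
def uA {ν : Type} (l0 l1 l2 l3 : List ν) (k : ℕ) : List (ν ⊕ ℕ × ℕ) :=
  il l0 ++ Sum.inr (3, 0) :: Sum.inr (3, 1) :: (il l1 ++ (blk 0 k ++ (il l2 ++ (blk 1 k ++ il l3))))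

/-- Gram entry for general roles -/
theorem gA {d : ℕ} {K : Fam d} (hK : LK d K) {ν : Type} (X Y : Pr d ν) (b : ν)
    (l0 l1 l2 l3 : List ν) (k : ℕ) (I J : ℕ × ℕ → Prop) :
    K (ν ⊕ ℕ × ℕ) (uA l0 l1 l2 l3 k) (vv X Y b I) (vv X Y b J) =
      kt K X Y b (il l0 ++ Sum.inr (ty I J (3, 0)) :: Sum.inr (ty I J (3, 1)) ::
        (il l1 ++ ((blk 0 k).map (tyh I J) ++ (il l2 ++ ((blk 1 k).map (tyh I J) ++ il l3))))) := by
  rw [gram_ty hK]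
  unfold uA
  simp only [List.map_append, il_tyh, List.map_cons]
  rfl

/-- entry with one copy in each block -/
theorem gA01 {d : ℕ} {K : Fam d} (hK : LK d K) {ν : Type} (X Y : Pr d ν) (b : ν)
    (l0 l1 l2 l3 : List ν) (k i j : ℕ) (hi : i < k) (hj : j < k) (I J : ℕ × ℕ → Prop)
    (h0 : ∀ i', i' ≠ i → ty I J (0, i') = Ty.o) (h1 : ∀ i', i' ≠ j → ty I J (1, i') = Ty.o) :
    K (ν ⊕ ℕ × ℕ) (uA l0 l1 l2 l3 k) (vv X Y b I) (vv X Y b J) =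
      kt K X Y b (il l0 ++ Sum.inr (ty I J (3, 0)) :: Sum.inr (ty I J (3, 1)) ::
        (il l1 ++ Sum.inr (ty I J (0, i)) :: (il l2 ++ Sum.inr (ty I J (1, j)) :: il l3))) := by
  rw [gA hK]
  have e1 : ∀ Z : List (ν ⊕ Ty), (il l0 ++ Sum.inr (ty I J (3, 0)) :: Sum.inr (ty I J (3, 1)) ::
      (il l1 ++ Z)) = (il l0 ++ Sum.inr (ty I J (3, 0)) :: Sum.inr (ty I J (3, 1)) :: il l1) ++ Z := by
    intro Z; simp
  rw [e1, red1 hK X Y b I J 0 k i hi (fun i' _ h => h0 i' h)]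
  have e2 : ∀ Z : List (ν ⊕ Ty), (il l0 ++ Sum.inr (ty I J (3, 0)) :: Sum.inr (ty I J (3, 1)) ::
      il l1) ++ Sum.inr (ty I J (0, i)) :: (il l2 ++ Z) =
      ((il l0 ++ Sum.inr (ty I J (3, 0)) :: Sum.inr (ty I J (3, 1)) ::
      il l1) ++ Sum.inr (ty I J (0, i)) :: il l2) ++ Z := by
    intro Z; simp
  rw [e2, red1 hK X Y b I J 1 k j hj (fun i' _ h => h1 i' h)]
  simp

/-- entry with two copies in the block 0 -/
theorem gA00 {d : ℕ} {K : Fam d} (hK : LK d K) {ν : Type} (X Y : Pr d ν) (b : ν)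
    (l0 l1 l2 l3 : List ν) (k i j : ℕ) (hij : i < j) (hj : j < k) (I J : ℕ × ℕ → Prop)
    (h0 : ∀ i', i' ≠ i → i' ≠ j → ty I J (0, i') = Ty.o) (h1 : ∀ i', ty I J (1, i') = Ty.o) :
    K (ν ⊕ ℕ × ℕ) (uA l0 l1 l2 l3 k) (vv X Y b I) (vv X Y b J) =
      kt K X Y b (il l0 ++ Sum.inr (ty I J (3, 0)) :: Sum.inr (ty I J (3, 1)) ::
        (il l1 ++ Sum.inr (ty I J (0, i)) :: Sum.inr (ty I J (0, j)) :: (il l2 ++ il l3))) := by
  rw [gA hK]
  have e1 : ∀ Z : List (ν ⊕ Ty), (il l0 ++ Sum.inr (ty I J (3, 0)) :: Sum.inr (ty I J (3, 1)) ::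
      (il l1 ++ Z)) = (il l0 ++ Sum.inr (ty I J (3, 0)) :: Sum.inr (ty I J (3, 1)) :: il l1) ++ Z := by
    intro Z; simp
  rw [e1, red2 hK X Y b I J 0 k i j hij hj (fun i' _ h h' => h0 i' h h')]
  have e2 : ∀ Z : List (ν ⊕ Ty), (il l0 ++ Sum.inr (ty I J (3, 0)) :: Sum.inr (ty I J (3, 1)) ::
      il l1) ++ Sum.inr (ty I J (0, i)) :: Sum.inr (ty I J (0, j)) :: (il l2 ++ Z) =
      ((il l0 ++ Sum.inr (ty I J (3, 0)) :: Sum.inr (ty I J (3, 1)) ::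
      il l1) ++ Sum.inr (ty I J (0, i)) :: Sum.inr (ty I J (0, j)) :: il l2) ++ Z := by
    intro Z; simp
  rw [e2, red0 hK X Y b I J 1 k (fun i' _ => h1 i')]
  simp

/-- entry with two copies in the block 1 -/
theorem gA11 {d : ℕ} {K : Fam d} (hK : LK d K) {ν : Type} (X Y : Pr d ν) (b : ν)
    (l0 l1 l2 l3 : List ν) (k i j : ℕ) (hij : i < j) (hj : j < k) (I J : ℕ × ℕ → Prop)
    (h0 : ∀ i', ty I J (0, i') = Ty.o) (h1 : ∀ i', i' ≠ i → i' ≠ j → ty I J (1, i') = Ty.o) :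
    K (ν ⊕ ℕ × ℕ) (uA l0 l1 l2 l3 k) (vv X Y b I) (vv X Y b J) =
      kt K X Y b (il l0 ++ Sum.inr (ty I J (3, 0)) :: Sum.inr (ty I J (3, 1)) ::
        (il l1 ++ (il l2 ++ Sum.inr (ty I J (1, i)) :: Sum.inr (ty I J (1, j)) :: il l3))) := by
  rw [gA hK]
  have e1 : ∀ Z : List (ν ⊕ Ty), (il l0 ++ Sum.inr (ty I J (3, 0)) :: Sum.inr (ty I J (3, 1)) ::
      (il l1 ++ Z)) = (il l0 ++ Sum.inr (ty I J (3, 0)) :: Sum.inr (ty I J (3, 1)) :: il l1) ++ Z := by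
    intro Z; simp
  rw [e1, red0 hK X Y b I J 0 k (fun i' _ => h0 i'), ← List.append_assoc,
    red2 hK X Y b I J 1 k i j hij hj (fun i' _ h h' => h1 i' h h')]
  simp

theorem kd1 {d : ℕ} {K : Fam d} (hK : LK d K) {ν : Type} (X Y : Pr d ν) (b : ν)
    (A B : List (ν ⊕ Ty)) (z : Ty) (hz : z = Ty.o ∨ Sum.inr z ∈ B) :
    kt K X Y b (A ++ Sum.inr z :: B) = kt K X Y b (A ++ B) := by
  rcases hz with rfl | hz
  · exact kt_o hK X Y b A B
  · exact kt_abs hK X Y b A _ B hz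

theorem kd2 {d : ℕ} {K : Fam d} (hK : LK d K) {ν : Type} (X Y : Pr d ν) (b : ν)
    (A B : List (ν ⊕ Ty)) (z0 z : Ty) (hz : z = Ty.o ∨ Sum.inr z ∈ B) :
    kt K X Y b (A ++ Sum.inr z0 :: Sum.inr z :: B) = kt K X Y b (A ++ Sum.inr z0 :: B) := by
  have := kd1 hK X Y b (A ++ [Sum.inr z0]) B z hz
  simpa using this

theorem mc_eq {d : ℕ} {K : Fam d} (hK : LK d K) {ν : Type} (X Y : Pr d ν) (b : ν)
    (l0 l1 l2 l3 : List ν) : mc K X Y b l0 l1 l2 l3 = mm K X Y b (l0 ++ l1) l2 l3 := by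
  classical
  -- the sets of copies of the four classes
  obtain ⟨I, hI⟩ : ∃ I : Fin 4 → ℕ → ℕ × ℕ → Prop, I =
      ![fun i q => q = (3, 0) ∨ q = (0, i), fun i q => q = (3, 0) ∨ q = (1, i),
        fun i q => q = (3, 0) ∨ q = (3, 1) ∨ q = (1, i), fun i q => q = (3, 1) ∨ q = (1, i)] :=
    ⟨_, rfl⟩
  have I0 : ∀ i q, I 0 i q ↔ (q = (3, 0) ∨ q = (0, i)) := fun i q => by rw [hI]; rfl
  have I1 : ∀ i q, I 1 i q ↔ (q = (3, 0) ∨ q = (1, i)) := fun i q => by rw [hI]; rfl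
  have I2 : ∀ i q, I 2 i q ↔ (q = (3, 0) ∨ q = (3, 1) ∨ q = (1, i)) := fun i q => by rw [hI]; rfl
  have I3 : ∀ i q, I 3 i q ↔ (q = (3, 1) ∨ q = (1, i)) := fun i q => by rw [hI]; rfl
  obtain ⟨θ, hθ⟩ : ∃ θ, θ = mc K X Y b l0 (l1 ++ l2) [] l3 := ⟨_, rfl⟩
  obtain ⟨θ1, hθ1⟩ : ∃ θ, θ = mc K X Y b l0 l1 l2 l3 := ⟨_, rfl⟩
  obtain ⟨θ2, hθ2⟩ : ∃ θ, θ = mc K X Y b l0 l1 [] (l2 ++ l3) := ⟨_, rfl⟩
  obtain ⟨μ, hμ⟩ : ∃ θ, θ = mm K X Y b (l0 ++ l1) l2 l3 := ⟨_, rfl⟩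
  obtain ⟨μ1, hμ1⟩ : ∃ θ, θ = mm K X Y b (l0 ++ l1 ++ l2) [] l3 := ⟨_, rfl⟩
  obtain ⟨M, hM⟩ : ∃ M : Fin 4 → Fin 4 → ℝ, M =
      ![![θ2, θ1, θ1, μ], ![θ1, θ, θ, μ1], ![θ1, θ, θ, θ], ![μ, μ1, θ, θ]] := ⟨_, rfl⟩
  have hsym : ∀ c c', M c c' = M c' c := by
    intro c c'
    rw [hM]
    fin_cases c <;> fin_cases c' <;> rfl
  have hlist : ∀ (l : List ν) (z : Ty), (Sum.inr z : ν ⊕ Ty) ∉ il l := by
    intro l z h
    unfold il at h
    simp at h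
  have hb1 : ∀ (k i j : ℕ), i < j → j < k → ∀ c c' : Fin 4, c ≠ 0 → c' ≠ 0 →
      K (ν ⊕ ℕ × ℕ) (uA l0 l1 l2 l3 k) (vv X Y b (I c i)) (vv X Y b (I c' j)) = M c c' := by
    intro k i j hij hj c c' hc hc'
    have hx : ∀ c c' : Fin 4, c ≠ 0 → c' ≠ 0 → ty (I c i) (I c' j) (1, i) = Ty.x := by
      intro c c' hc hc'
      fin_cases c <;> fin_cases c' <;> first | exact absurd rfl hc | exact absurd rfl hc' | skip
      all_goals
        unfold ty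
        simp [I1, I2, I3, hij.ne]
    have hy : ∀ c c' : Fin 4, c ≠ 0 → c' ≠ 0 → ty (I c i) (I c' j) (1, j) = Ty.y := by
      intro c c' hc hc'
      fin_cases c <;> fin_cases c' <;> first | exact absurd rfl hc | exact absurd rfl hc' | skip
      all_goals
        unfold ty
        simp [I1, I2, I3, hij.ne']
    have h0 : ∀ i', ty (I c i) (I c' j) (0, i') = Ty.o := by
      intro i'
      fin_cases c <;> fin_cases c' <;> first | exact absurd rfl hc | exact absurd rfl hc' | skip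
      all_goals
        unfold ty
        simp [I1, I2, I3]
    have h1 : ∀ i', i' ≠ i → i' ≠ j → ty (I c i) (I c' j) (1, i') = Ty.o := by
      intro i' h3 h4
      fin_cases c <;> fin_cases c' <;> first | exact absurd rfl hc | exact absurd rfl hc' | skip
      all_goals
        unfold ty
        simp [I1, I2, I3, h3, h4]
    rw [gA11 hK X Y b l0 l1 l2 l3 k i j hij hj _ _ h0 h1, hx c c' hc hc', hy c c' hc hc']
    have xR : (Sum.inr Ty.x : ν ⊕ Ty) ∈ (il l1 ++ (il l2 ++ Sum.inr Ty.x :: Sum.inr Ty.y :: il l3)) := by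
      simp
    have yR : (Sum.inr Ty.y : ν ⊕ Ty) ∈ (il l1 ++ (il l2 ++ Sum.inr Ty.x :: Sum.inr Ty.y :: il l3)) := by
      simp
    have vc : kt K X Y b (il l0 ++ Sum.inr Ty.c :: (il l1 ++ (il l2 ++ Sum.inr Ty.x ::
        Sum.inr Ty.y :: il l3))) = θ := by
      rw [hθ]; unfold mc il; simp
    have vn : kt K X Y b (il l0 ++ (il l1 ++ (il l2 ++ Sum.inr Ty.x ::
        Sum.inr Ty.y :: il l3))) = μ1 := by
      rw [hμ1]; unfold mm il; simp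
    fin_cases c <;> fin_cases c' <;> first | exact absurd rfl hc | exact absurd rfl hc' | skip
    · -- (1,1)
      have t0 : ty (I 1 i) (I 1 j) (3, 0) = Ty.c := by unfold ty; simp [I1]
      have t1 : ty (I 1 i) (I 1 j) (3, 1) = Ty.o := by unfold ty; simp [I1]
      show kt K X Y b (il l0 ++ Sum.inr (ty (I 1 i) (I 1 j) (3, 0)) ::
        Sum.inr (ty (I 1 i) (I 1 j) (3, 1)) :: _) = M 1 1
      rw [t0, t1, kd2 hK X Y b _ _ _ _ (Or.inl rfl), vc, hM]; rfl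
    · have t0 : ty (I 1 i) (I 2 j) (3, 0) = Ty.c := by unfold ty; simp [I1, I2]
      have t1 : ty (I 1 i) (I 2 j) (3, 1) = Ty.y := by unfold ty; simp [I1, I2]
      show kt K X Y b (il l0 ++ Sum.inr (ty (I 1 i) (I 2 j) (3, 0)) ::
        Sum.inr (ty (I 1 i) (I 2 j) (3, 1)) :: _) = M 1 2
      rw [t0, t1, kd2 hK X Y b _ _ _ _ (Or.inr yR), vc, hM]; rfl
    · have t0 : ty (I 1 i) (I 3 j) (3, 0) = Ty.x := by unfold ty; simp [I1, I3]
      have t1 : ty (I 1 i) (I 3 j) (3, 1) = Ty.y := by unfold ty; simp [I1, I3]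
      show kt K X Y b (il l0 ++ Sum.inr (ty (I 1 i) (I 3 j) (3, 0)) ::
        Sum.inr (ty (I 1 i) (I 3 j) (3, 1)) :: _) = M 1 3
      rw [t0, t1, kd2 hK X Y b _ _ _ _ (Or.inr yR), kd1 hK X Y b _ _ _ (Or.inr xR), vn, hM]; rfl
    · have t0 : ty (I 2 i) (I 1 j) (3, 0) = Ty.c := by unfold ty; simp [I1, I2]
      have t1 : ty (I 2 i) (I 1 j) (3, 1) = Ty.x := by unfold ty; simp [I1, I2]
      show kt K X Y b (il l0 ++ Sum.inr (ty (I 2 i) (I 1 j) (3, 0)) ::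
        Sum.inr (ty (I 2 i) (I 1 j) (3, 1)) :: _) = M 2 1
      rw [t0, t1, kd2 hK X Y b _ _ _ _ (Or.inr xR), vc, hM]; rfl
    · have t0 : ty (I 2 i) (I 2 j) (3, 0) = Ty.c := by unfold ty; simp [I2]
      have t1 : ty (I 2 i) (I 2 j) (3, 1) = Ty.c := by unfold ty; simp [I2]
      show kt K X Y b (il l0 ++ Sum.inr (ty (I 2 i) (I 2 j) (3, 0)) ::
        Sum.inr (ty (I 2 i) (I 2 j) (3, 1)) :: _) = M 2 2
      rw [t0, t1, kd1 hK X Y b _ _ _ (Or.inr (by simp)), vc, hM]; rfl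
    · have t0 : ty (I 2 i) (I 3 j) (3, 0) = Ty.x := by unfold ty; simp [I2, I3]
      have t1 : ty (I 2 i) (I 3 j) (3, 1) = Ty.c := by unfold ty; simp [I2, I3]
      show kt K X Y b (il l0 ++ Sum.inr (ty (I 2 i) (I 3 j) (3, 0)) ::
        Sum.inr (ty (I 2 i) (I 3 j) (3, 1)) :: _) = M 2 3
      rw [t0, t1, kd1 hK X Y b _ _ _ (Or.inr (List.mem_cons_of_mem _ xR)), vc, hM]; rfl
    · have t0 : ty (I 3 i) (I 1 j) (3, 0) = Ty.y := by unfold ty; simp [I1, I3]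
      have t1 : ty (I 3 i) (I 1 j) (3, 1) = Ty.x := by unfold ty; simp [I1, I3]
      show kt K X Y b (il l0 ++ Sum.inr (ty (I 3 i) (I 1 j) (3, 0)) ::
        Sum.inr (ty (I 3 i) (I 1 j) (3, 1)) :: _) = M 3 1
      rw [t0, t1, kd2 hK X Y b _ _ _ _ (Or.inr xR), kd1 hK X Y b _ _ _ (Or.inr yR), vn, hM]; rfl
    · have t0 : ty (I 3 i) (I 2 j) (3, 0) = Ty.y := by unfold ty; simp [I2, I3]
      have t1 : ty (I 3 i) (I 2 j) (3, 1) = Ty.c := by unfold ty; simp [I2, I3]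
      show kt K X Y b (il l0 ++ Sum.inr (ty (I 3 i) (I 2 j) (3, 0)) ::
        Sum.inr (ty (I 3 i) (I 2 j) (3, 1)) :: _) = M 3 2
      rw [t0, t1, kd1 hK X Y b _ _ _ (Or.inr (List.mem_cons_of_mem _ yR)), vc, hM]; rfl
    · have t0 : ty (I 3 i) (I 3 j) (3, 0) = Ty.o := by unfold ty; simp [I3]
      have t1 : ty (I 3 i) (I 3 j) (3, 1) = Ty.c := by unfold ty; simp [I3]
      show kt K X Y b (il l0 ++ Sum.inr (ty (I 3 i) (I 3 j) (3, 0)) ::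
        Sum.inr (ty (I 3 i) (I 3 j) (3, 1)) :: _) = M 3 3
      rw [t0, t1, kd1 hK X Y b _ _ _ (Or.inl rfl), vc, hM]; rfl
  have hb0 : ∀ (k i j : ℕ), i < k → j < k → ∀ c' : Fin 4, c' ≠ 0 →
      K (ν ⊕ ℕ × ℕ) (uA l0 l1 l2 l3 k) (vv X Y b (I 0 i)) (vv X Y b (I c' j)) = M 0 c' := by
    intro k i j hi hj c' hc'
    have hx : ty (I 0 i) (I c' j) (0, i) = Ty.x := by
      fin_cases c' <;> first | exact absurd rfl hc' | skip
      all_goals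
        unfold ty
        simp [I0, I1, I2, I3]
    have hy : ty (I 0 i) (I c' j) (1, j) = Ty.y := by
      fin_cases c' <;> first | exact absurd rfl hc' | skip
      all_goals
        unfold ty
        simp [I0, I1, I2, I3]
    have h0 : ∀ i', i' ≠ i → ty (I 0 i) (I c' j) (0, i') = Ty.o := by
      intro i' h3
      fin_cases c' <;> first | exact absurd rfl hc' | skip
      all_goals
        unfold ty
        simp [I0, I1, I2, I3, h3]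
    have h1 : ∀ i', i' ≠ j → ty (I 0 i) (I c' j) (1, i') = Ty.o := by
      intro i' h3
      fin_cases c' <;> first | exact absurd rfl hc' | skip
      all_goals
        unfold ty
        simp [I0, I1, I2, I3, h3]
    rw [gA01 hK X Y b l0 l1 l2 l3 k i j hi hj _ _ h0 h1, hx, hy]
    have xR : (Sum.inr Ty.x : ν ⊕ Ty) ∈ (il l1 ++ Sum.inr Ty.x :: (il l2 ++ Sum.inr Ty.y :: il l3)) := by
      simp
    have yR : (Sum.inr Ty.y : ν ⊕ Ty) ∈ (il l1 ++ Sum.inr Ty.x :: (il l2 ++ Sum.inr Ty.y :: il l3)) := by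
      simp
    have vc : kt K X Y b (il l0 ++ Sum.inr Ty.c :: (il l1 ++ Sum.inr Ty.x :: (il l2 ++
        Sum.inr Ty.y :: il l3))) = θ1 := by
      rw [hθ1]; rfl
    have vn : kt K X Y b (il l0 ++ (il l1 ++ Sum.inr Ty.x :: (il l2 ++
        Sum.inr Ty.y :: il l3))) = μ := by
      rw [hμ]; unfold mm il; simp
    fin_cases c' <;> first | exact absurd rfl hc' | skip
    · have t0 : ty (I 0 i) (I 1 j) (3, 0) = Ty.c := by unfold ty; simp [I0, I1]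
      have t1 : ty (I 0 i) (I 1 j) (3, 1) = Ty.o := by unfold ty; simp [I0, I1]
      show kt K X Y b (il l0 ++ Sum.inr (ty (I 0 i) (I 1 j) (3, 0)) ::
        Sum.inr (ty (I 0 i) (I 1 j) (3, 1)) :: _) = M 0 1
      rw [t0, t1, kd2 hK X Y b _ _ _ _ (Or.inl rfl), vc, hM]; rfl
    · have t0 : ty (I 0 i) (I 2 j) (3, 0) = Ty.c := by unfold ty; simp [I0, I2]
      have t1 : ty (I 0 i) (I 2 j) (3, 1) = Ty.y := by unfold ty; simp [I0, I2]
      show kt K X Y b (il l0 ++ Sum.inr (ty (I 0 i) (I 2 j) (3, 0)) ::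
        Sum.inr (ty (I 0 i) (I 2 j) (3, 1)) :: _) = M 0 2
      rw [t0, t1, kd2 hK X Y b _ _ _ _ (Or.inr yR), vc, hM]; rfl
    · have t0 : ty (I 0 i) (I 3 j) (3, 0) = Ty.x := by unfold ty; simp [I0, I3]
      have t1 : ty (I 0 i) (I 3 j) (3, 1) = Ty.y := by unfold ty; simp [I0, I3]
      show kt K X Y b (il l0 ++ Sum.inr (ty (I 0 i) (I 3 j) (3, 0)) ::
        Sum.inr (ty (I 0 i) (I 3 j) (3, 1)) :: _) = M 0 3
      rw [t0, t1, kd2 hK X Y b _ _ _ _ (Or.inr yR), kd1 hK X Y b _ _ _ (Or.inr xR), vn, hM]; rfl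
  have hb00 : ∀ (k i j : ℕ), i < j → j < k →
      K (ν ⊕ ℕ × ℕ) (uA l0 l1 l2 l3 k) (vv X Y b (I 0 i)) (vv X Y b (I 0 j)) = M 0 0 := by
    intro k i j hij hj
    have hx : ty (I 0 i) (I 0 j) (0, i) = Ty.x := by unfold ty; simp [I0, hij.ne]
    have hy : ty (I 0 i) (I 0 j) (0, j) = Ty.y := by unfold ty; simp [I0, hij.ne']
    have t0 : ty (I 0 i) (I 0 j) (3, 0) = Ty.c := by unfold ty; simp [I0]
    have t1 : ty (I 0 i) (I 0 j) (3, 1) = Ty.o := by unfold ty; simp [I0]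
    rw [gA00 hK X Y b l0 l1 l2 l3 k i j hij hj _ _
      (fun i' h3 h4 => by unfold ty; simp [I0, h3, h4])
      (fun i' => by unfold ty; simp [I0]), hx, hy, t0, t1, kd2 hK X Y b _ _ _ _ (Or.inl rfl), hM]
    show _ = θ2
    rw [hθ2]; unfold mc il; simp
  have hpsd : ∀ a : Fin 4 → ℝ, 0 ≤ ∑ c, ∑ c', a c * a c' * M c c' := by
    intro a
    refine lk_be hK M hsym (ν ⊕ ℕ × ℕ) (fun k => uA l0 l1 l2 l3 k) (fun c i => vv X Y b (I c i)) ?_ a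
    intro k c c' i j hij hj
    have hi : i < k := hij.trans hj
    by_cases hc : c = 0
    · by_cases hc' : c' = 0
      · rw [hc, hc']; exact hb00 k i j hij hj
      · rw [hc]; exact hb0 k i j hi hj c' hc'
    · by_cases hc' : c' = 0
      · rw [hc']
        exact ((hK.symm _ _ _ _).trans (hb0 k j i hj hi c hc)).trans (hsym _ _)
      · exact hb1 k i j hij hj c c' hc hc'
  have n12 := psd_null M hsym hpsd 1 2 (by rw [hM]; show θ + θ = 2 * θ; ring) 0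
  have n23 := psd_null M hsym hpsd 2 3 (by rw [hM]; show θ + θ = 2 * θ; ring) 0
  have e1 : M 1 0 = θ1 := by rw [hM]; rfl
  have e3 : M 3 0 = μ := by rw [hM]; rfl
  rw [← hθ1, ← hμ, ← e1, ← e3, n12, n23]

end Pool.Agent.Lib.MP_90b327_co.OI
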