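import Mathlib
import Pool.Agent.Lib.MP_90b327_co.OI.ODefs
import Pool.Agent.Lib.MP_90b327_co.OI.OBE
import Pool.Agent.Lib.MP_90b327_co.OI.OTy
import Pool.Agent.Lib.MP_90b327_co.OI.OA

/-!
MODULE OB (75 minutes). Only the higher of the two copies matters, monotonicity (text 4.4 (B)).

PROOF. Names ν ⊕ ℕ × ℕ, P = (3,0). U k = il l1 ++ (blk 0 k ++ (il l2 ++ (blk 1 k ++ inr P :: (blk 2 k ++ il l3)))). Classes C = Fin 3: V 0 i = V_{(0,i), P}, V 1 i = V_{(1,i), P},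
V 2 i = V_{(2,i)}. Let maa = mm l1 [] (l2 ++ l3), mbb = mm (l1 ++ l2) [] l3, mab = mm l1 l2 l3. Entries (i < j < k): (0,0): kt (il l1 ++ x :: y :: (il l2 ++ c :: il l3)) = (hF)
kt (c :: (il l1 ++ x :: y :: (il l2 ++ il l3))) = mc [] l1 [] (l2 ++ l3) = maa (mc_eq); (1,1): kt (il l1 ++ il l2 ++ x :: y :: c :: il l3) = mbb; (0,1): kt (il l1 ++ x :: (il l2 ++ y :: c ::
il l3)) = mab; (1,0): K symmetric, then (0,j), (1,i): mab; (0,2): P ↦ x, (0,i) ↦ x absorbed, (2,j) ↦ y: mbb; (2,0): symmetric; (1,2): mbb; (2,2): mbb. pl1: psd_null x = 1, y = 2, z = 0.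
pl2: psd_ge 0 2.
-/

set_option autoImplicit false

namespace Pool.Agent.Lib.MP_90b327_co.OI

open Finset Filter Topology
open Pool.Agent.Lib.MP_90b327_co.WW (mv)

/-- the planted common name may be put below everything -/
def CFree {d : ℕ} (K : Fam d) {ν : Type} (X Y : Pr d ν) (b : ν) : Prop :=
  ∀ A B : List (ν ⊕ Ty), (A ++ B).Nodup → Sum.inr Ty.c ∉ A ++ B →
    kt K X Y b (A ++ Sum.inr Ty.c :: B) = kt K X Y b (Sum.inr Ty.c :: (A ++ B))

/-- the universe list of module OB -/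
def uB {ν : Type} (l1 l2 l3 : List ν) (k : ℕ) : List (ν ⊕ ℕ × ℕ) :=
  il l1 ++ (blk 0 k ++ (il l2 ++ (blk 1 k ++ Sum.inr (3, 0) :: (blk 2 k ++ il l3))))

theorem gB {d : ℕ} {K : Fam d} (hK : LK d K) {ν : Type} (X Y : Pr d ν) (b : ν)
    (l1 l2 l3 : List ν) (k : ℕ) (I J : ℕ × ℕ → Prop) :
    K (ν ⊕ ℕ × ℕ) (uB l1 l2 l3 k) (vv X Y b I) (vv X Y b J) =
      kt K X Y b (il l1 ++ ((blk 0 k).map (tyh I J) ++ (il l2 ++ ((blk 1 k).map (tyh I J) ++
        Sum.inr (ty I J (3, 0)) :: ((blk 2 k).map (tyh I J) ++ il l3))))) := by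
  rw [gram_ty hK]
  unfold uB
  simp only [List.map_append, il_tyh, List.map_cons]
  rfl

/-- reduction of the block lists; `R` describes what remains of a block -/
theorem gBred {d : ℕ} {K : Fam d} (hK : LK d K) {ν : Type} (X Y : Pr d ν) (b : ν)
    (l1 l2 l3 : List ν) (k : ℕ) (I J : ℕ × ℕ → Prop) (R0 R1 R2 : List (ν ⊕ Ty))
    (h0 : ∀ A B : List (ν ⊕ Ty), kt K X Y b (A ++ ((blk 0 k).map (tyh I J) ++ B)) =
      kt K X Y b (A ++ (R0 ++ B)))
    (h1 : ∀ A B : List (ν ⊕ Ty), kt K X Y b (A ++ ((blk 1 k).map (tyh I J) ++ B)) =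
      kt K X Y b (A ++ (R1 ++ B)))
    (h2 : ∀ A B : List (ν ⊕ Ty), kt K X Y b (A ++ ((blk 2 k).map (tyh I J) ++ B)) =
      kt K X Y b (A ++ (R2 ++ B))) :
    K (ν ⊕ ℕ × ℕ) (uB l1 l2 l3 k) (vv X Y b I) (vv X Y b J) =
      kt K X Y b (il l1 ++ (R0 ++ (il l2 ++ (R1 ++
        Sum.inr (ty I J (3, 0)) :: (R2 ++ il l3))))) := by
  rw [gB hK, h0]
  have e1 : ∀ Z : List (ν ⊕ Ty), il l1 ++ (R0 ++ (il l2 ++ Z)) = (il l1 ++ (R0 ++ il l2)) ++ Z := by
    intro Z; simp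
  rw [e1, h1, ← e1]
  have e2 : ∀ Z : List (ν ⊕ Ty), il l1 ++ (R0 ++ (il l2 ++ (R1 ++ Sum.inr (ty I J (3, 0)) :: Z))) =
      (il l1 ++ (R0 ++ (il l2 ++ (R1 ++ [Sum.inr (ty I J (3, 0))])))) ++ Z := by
    intro Z; simp
  rw [e2, h2, ← e2]

theorem pl_main {d : ℕ} {K : Fam d} (hK : LK d K) {ν : Type} (X Y : Pr d ν) (b : ν)
    (hF : CFree K X Y b) (l1 l2 l3 : List ν) (hl : (l1 ++ (l2 ++ l3)).Nodup) :
    mm K X Y b l1 l2 l3 = mm K X Y b (l1 ++ l2) [] l3 ∧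
      mm K X Y b (l1 ++ l2) [] l3 ≤ mm K X Y b l1 [] (l2 ++ l3) := by
  classical
  obtain ⟨I, hI⟩ : ∃ I : Fin 3 → ℕ → ℕ × ℕ → Prop, I =
      ![fun i q => q = (0, i) ∨ q = (3, 0), fun i q => q = (1, i) ∨ q = (3, 0),
        fun i q => q = (2, i)] := ⟨_, rfl⟩
  have I0 : ∀ i q, I 0 i q ↔ (q = (0, i) ∨ q = (3, 0)) := fun i q => by rw [hI]; rfl
  have I1 : ∀ i q, I 1 i q ↔ (q = (1, i) ∨ q = (3, 0)) := fun i q => by rw [hI]; rfl
  have I2 : ∀ i q, I 2 i q ↔ (q = (2, i)) := fun i q => by rw [hI]; rfl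
  obtain ⟨maa, haa⟩ : ∃ θ, θ = mm K X Y b l1 [] (l2 ++ l3) := ⟨_, rfl⟩
  obtain ⟨mbb, hbb⟩ : ∃ θ, θ = mm K X Y b (l1 ++ l2) [] l3 := ⟨_, rfl⟩
  obtain ⟨mab, hab⟩ : ∃ θ, θ = mm K X Y b l1 l2 l3 := ⟨_, rfl⟩
  obtain ⟨M, hM⟩ : ∃ M : Fin 3 → Fin 3 → ℝ, M =
      ![![maa, mab, mbb], ![mab, mbb, mbb], ![mbb, mbb, mbb]] := ⟨_, rfl⟩
  have hsym : ∀ c c', M c c' = M c' c := by
    intro c c'
    rw [hM]
    fin_cases c <;> fin_cases c' <;> rfl
  have hnd : (il l1 ++ (il l2 ++ il l3) : List (ν ⊕ Ty)).Nodup := by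
    have : (il l1 ++ (il l2 ++ il l3) : List (ν ⊕ Ty)) = (l1 ++ (l2 ++ l3)).map Sum.inl := by
      unfold il; simp
    rw [this]
    exact hl.map Sum.inl_injective
  have hni : ∀ (l : List ν) (z : Ty), (Sum.inr z : ν ⊕ Ty) ∉ il l := by
    intro l z h
    unfold il at h
    simp at h
  -- values of the planted functional with the common name on top
  have top : ∀ (A B C : List ν), A ++ (B ++ C) = l1 ++ (l2 ++ l3) → ∀ C1 C2 : List ν, C = C1 ++ C2 →
      kt K X Y b (il A ++ Sum.inr Ty.x :: (il B ++ Sum.inr Ty.y :: (il C1 ++ Sum.inr Ty.c :: il C2))) =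
        mm K X Y b A B C := by
    intro A B C hABC C1 C2 hC
    have e1 : (il A ++ Sum.inr Ty.x :: (il B ++ Sum.inr Ty.y :: (il C1 ++ Sum.inr Ty.c :: il C2)) :
        List (ν ⊕ Ty)) = (il A ++ Sum.inr Ty.x :: (il B ++ Sum.inr Ty.y :: il C1)) ++
          Sum.inr Ty.c :: il C2 := by simp
    rw [e1, hF]
    · have := mc_eq hK X Y b [] A B C
      unfold mc at this
      rw [List.nil_append] at this
      rw [← this, hC]
      unfold il
      simp
    · have hp : ((il A ++ Sum.inr Ty.x :: (il B ++ Sum.inr Ty.y :: il C1)) ++ il C2 :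
          List (ν ⊕ Ty)).Perm (Sum.inr Ty.x :: Sum.inr Ty.y :: (il l1 ++ (il l2 ++ il l3))) := by
        have e2 : (il l1 ++ (il l2 ++ il l3) : List (ν ⊕ Ty)) = il A ++ (il B ++ (il C1 ++ il C2)) := by
          have : (A ++ (B ++ C)).map (Sum.inl : ν → ν ⊕ Ty) = (l1 ++ (l2 ++ l3)).map Sum.inl := by
            rw [hABC]
          rw [hC] at this
          unfold il
          simpa using this.symm
        rw [e2]
        simp only [List.append_assoc, List.cons_append]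
        refine (List.perm_middle).trans (List.Perm.cons _ ?_)
        rw [← List.append_assoc, ← List.append_assoc]
        exact List.perm_middle
      rw [hp.nodup_iff, List.nodup_cons, List.nodup_cons]
      refine ⟨?_, ?_, hnd⟩
      · simp [hni]
      · simp [hni]
    · simp [hni]
  have t00 : ∀ k i j, i < j → j < k → K (ν ⊕ ℕ × ℕ) (uB l1 l2 l3 k) (vv X Y b (I 0 i))
      (vv X Y b (I 0 j)) = M 0 0 := by
    intro k i j hij hj
    have hx : ty (I 0 i) (I 0 j) (0, i) = Ty.x := by unfold ty; simp [I0, hij.ne]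
    have hy : ty (I 0 i) (I 0 j) (0, j) = Ty.y := by unfold ty; simp [I0, hij.ne']
    have hc : ty (I 0 i) (I 0 j) (3, 0) = Ty.c := by unfold ty; simp [I0]
    rw [gBred hK X Y b l1 l2 l3 k _ _ [Sum.inr Ty.x, Sum.inr Ty.y] [] []
      (by
        intro A B
        rw [red2 hK X Y b _ _ 0 k i j hij hj (fun i' _ h3 h4 => by unfold ty; simp [I0, h3, h4]),
          hx, hy]; rfl)
      (by
        intro A B
        rw [red0 hK X Y b _ _ 1 k (fun i' _ => by unfold ty; simp [I0])]; rfl)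
      (by
        intro A B
        rw [red0 hK X Y b _ _ 2 k (fun i' _ => by unfold ty; simp [I0])]; rfl), hc, hM]
    show _ = maa
    rw [haa, ← top l1 [] (l2 ++ l3) (by simp) l2 l3 rfl]
    simp [il]
  have t11 : ∀ k i j, i < j → j < k → K (ν ⊕ ℕ × ℕ) (uB l1 l2 l3 k) (vv X Y b (I 1 i))
      (vv X Y b (I 1 j)) = M 1 1 := by
    intro k i j hij hj
    have hx : ty (I 1 i) (I 1 j) (1, i) = Ty.x := by unfold ty; simp [I1, hij.ne]
    have hy : ty (I 1 i) (I 1 j) (1, j) = Ty.y := by unfold ty; simp [I1, hij.ne']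
    have hc : ty (I 1 i) (I 1 j) (3, 0) = Ty.c := by unfold ty; simp [I1]
    rw [gBred hK X Y b l1 l2 l3 k _ _ [] [Sum.inr Ty.x, Sum.inr Ty.y] []
      (by
        intro A B
        rw [red0 hK X Y b _ _ 0 k (fun i' _ => by unfold ty; simp [I1])]; rfl)
      (by
        intro A B
        rw [red2 hK X Y b _ _ 1 k i j hij hj (fun i' _ h3 h4 => by unfold ty; simp [I1, h3, h4]),
          hx, hy]; rfl)
      (by
        intro A B
        rw [red0 hK X Y b _ _ 2 k (fun i' _ => by unfold ty; simp [I1])]; rfl), hc, hM]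
    show _ = mbb
    rw [hbb, ← top (l1 ++ l2) [] l3 (by simp) [] l3 rfl]
    simp [il]
  have t01 : ∀ k i j, i < k → j < k → K (ν ⊕ ℕ × ℕ) (uB l1 l2 l3 k) (vv X Y b (I 0 i))
      (vv X Y b (I 1 j)) = M 0 1 := by
    intro k i j hi hj
    have hx : ty (I 0 i) (I 1 j) (0, i) = Ty.x := by unfold ty; simp [I0, I1]
    have hy : ty (I 0 i) (I 1 j) (1, j) = Ty.y := by unfold ty; simp [I0, I1]
    have hc : ty (I 0 i) (I 1 j) (3, 0) = Ty.c := by unfold ty; simp [I0, I1]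
    rw [gBred hK X Y b l1 l2 l3 k _ _ [Sum.inr Ty.x] [Sum.inr Ty.y] []
      (by
        intro A B
        rw [red1 hK X Y b _ _ 0 k i hi (fun i' _ h3 => by unfold ty; simp [I0, I1, h3]), hx]; rfl)
      (by
        intro A B
        rw [red1 hK X Y b _ _ 1 k j hj (fun i' _ h3 => by unfold ty; simp [I0, I1, h3]), hy]; rfl)
      (by
        intro A B
        rw [red0 hK X Y b _ _ 2 k (fun i' _ => by unfold ty; simp [I0, I1])]; rfl), hc, hM]
    show _ = mab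
    rw [hab, ← top l1 l2 l3 rfl [] l3 rfl]
    simp [il]
  have low : kt K X Y b (il (l1 ++ l2) ++ Sum.inr Ty.x :: (Sum.inr Ty.y :: il l3)) = mbb := by
    rw [hbb]; rfl
  have t02 : ∀ k i j, i < k → j < k → K (ν ⊕ ℕ × ℕ) (uB l1 l2 l3 k) (vv X Y b (I 0 i))
      (vv X Y b (I 2 j)) = M 0 2 := by
    intro k i j hi hj
    have hx : ty (I 0 i) (I 2 j) (0, i) = Ty.x := by unfold ty; simp [I0, I2]
    have hy : ty (I 0 i) (I 2 j) (2, j) = Ty.y := by unfold ty; simp [I0, I2]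
    have hc : ty (I 0 i) (I 2 j) (3, 0) = Ty.x := by unfold ty; simp [I0, I2]
    rw [gBred hK X Y b l1 l2 l3 k _ _ [Sum.inr Ty.x] [] [Sum.inr Ty.y]
      (by
        intro A B
        rw [red1 hK X Y b _ _ 0 k i hi (fun i' _ h3 => by unfold ty; simp [I0, I2, h3]), hx]; rfl)
      (by
        intro A B
        rw [red0 hK X Y b _ _ 1 k (fun i' _ => by unfold ty; simp [I0, I2])]; rfl)
      (by
        intro A B
        rw [red1 hK X Y b _ _ 2 k j hj (fun i' _ h3 => by unfold ty; simp [I0, I2, h3]), hy]; rfl),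
      hc, hM]
    show _ = mbb
    rw [← low]
    have := kt_abs hK X Y b (il l1) (Sum.inr Ty.x) (il l2 ++ Sum.inr Ty.x :: Sum.inr Ty.y :: il l3)
      (by simp)
    simpa [il] using this
  have t12 : ∀ k i j, i < k → j < k → K (ν ⊕ ℕ × ℕ) (uB l1 l2 l3 k) (vv X Y b (I 1 i))
      (vv X Y b (I 2 j)) = M 1 2 := by
    intro k i j hi hj
    have hx : ty (I 1 i) (I 2 j) (1, i) = Ty.x := by unfold ty; simp [I1, I2]
    have hy : ty (I 1 i) (I 2 j) (2, j) = Ty.y := by unfold ty; simp [I1, I2]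
    have hc : ty (I 1 i) (I 2 j) (3, 0) = Ty.x := by unfold ty; simp [I1, I2]
    rw [gBred hK X Y b l1 l2 l3 k _ _ [] [Sum.inr Ty.x] [Sum.inr Ty.y]
      (by
        intro A B
        rw [red0 hK X Y b _ _ 0 k (fun i' _ => by unfold ty; simp [I1, I2])]; rfl)
      (by
        intro A B
        rw [red1 hK X Y b _ _ 1 k i hi (fun i' _ h3 => by unfold ty; simp [I1, I2, h3]), hx]; rfl)
      (by
        intro A B
        rw [red1 hK X Y b _ _ 2 k j hj (fun i' _ h3 => by unfold ty; simp [I1, I2, h3]), hy]; rfl),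
      hc, hM]
    show _ = mbb
    rw [← low]
    have := kt_abs hK X Y b (il l1 ++ il l2) (Sum.inr Ty.x) (Sum.inr Ty.x :: Sum.inr Ty.y :: il l3)
      (by simp)
    simpa [il] using this
  have t22 : ∀ k i j, i < j → j < k → K (ν ⊕ ℕ × ℕ) (uB l1 l2 l3 k) (vv X Y b (I 2 i))
      (vv X Y b (I 2 j)) = M 2 2 := by
    intro k i j hij hj
    have hx : ty (I 2 i) (I 2 j) (2, i) = Ty.x := by unfold ty; simp [I2, hij.ne]
    have hy : ty (I 2 i) (I 2 j) (2, j) = Ty.y := by unfold ty; simp [I2, hij.ne']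
    have hc : ty (I 2 i) (I 2 j) (3, 0) = Ty.o := by unfold ty; simp [I2]
    rw [gBred hK X Y b l1 l2 l3 k _ _ [] [] [Sum.inr Ty.x, Sum.inr Ty.y]
      (by
        intro A B
        rw [red0 hK X Y b _ _ 0 k (fun i' _ => by unfold ty; simp [I2])]; rfl)
      (by
        intro A B
        rw [red0 hK X Y b _ _ 1 k (fun i' _ => by unfold ty; simp [I2])]; rfl)
      (by
        intro A B
        rw [red2 hK X Y b _ _ 2 k i j hij hj (fun i' _ h3 h4 => by unfold ty; simp [I2, h3, h4]),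
          hx, hy]; rfl), hc, hM]
    show _ = mbb
    rw [← low]
    have := kt_o hK X Y b (il l1 ++ il l2) (Sum.inr Ty.x :: Sum.inr Ty.y :: il l3)
    simpa [il] using this
  have hpsd : ∀ a : Fin 3 → ℝ, 0 ≤ ∑ c, ∑ c', a c * a c' * M c c' := by
    intro a
    refine lk_be hK M hsym (ν ⊕ ℕ × ℕ) (fun k => uB l1 l2 l3 k) (fun c i => vv X Y b (I c i)) ?_ a
    intro k c c' i j hij hj
    have hi : i < k := hij.trans hj
    fin_cases c <;> fin_cases c'
    · exact t00 k i j hij hj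
    · exact t01 k i j hi hj
    · exact t02 k i j hi hj
    · exact ((hK.symm _ _ _ _).trans (t01 k j i hj hi)).trans (hsym _ _)
    · exact t11 k i j hij hj
    · exact t12 k i j hi hj
    · exact ((hK.symm _ _ _ _).trans (t02 k j i hj hi)).trans (hsym _ _)
    · exact ((hK.symm _ _ _ _).trans (t12 k j i hj hi)).trans (hsym _ _)
    · exact t22 k i j hij hj
  have n12 := psd_null M hsym hpsd 1 2 (by rw [hM]; show mbb + mbb = 2 * mbb; ring) 0
  have g02 := psd_ge M hsym hpsd 0 2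
  have e10 : M 1 0 = mab := by rw [hM]; rfl
  have e20 : M 2 0 = mbb := by rw [hM]; rfl
  have e00 : M 0 0 = maa := by rw [hM]; rfl
  have e02 : M 0 2 = mbb := by rw [hM]; rfl
  have e22 : M 2 2 = mbb := by rw [hM]; rfl
  rw [e10, e20] at n12
  rw [e00, e02, e22] at g02
  rw [← hab, ← hbb, ← haa]
  exact ⟨n12, by linarith⟩

theorem pl1 {d : ℕ} {K : Fam d} (hK : LK d K) {ν : Type} (X Y : Pr d ν) (b : ν)
    (hF : CFree K X Y b) (l1 l2 l3 : List ν) (hl : (l1 ++ (l2 ++ l3)).Nodup) :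
    mm K X Y b l1 l2 l3 = mm K X Y b (l1 ++ l2) [] l3 :=
  (pl_main hK X Y b hF l1 l2 l3 hl).1

theorem pl2 {d : ℕ} {K : Fam d} (hK : LK d K) {ν : Type} (X Y : Pr d ν) (b : ν)
    (hF : CFree K X Y b) (l1 l2 l3 : List ν) (hl : (l1 ++ (l2 ++ l3)).Nodup) :
    mm K X Y b (l1 ++ l2) [] l3 ≤ mm K X Y b l1 [] (l2 ++ l3) :=
  (pl_main hK X Y b hF l1 l2 l3 hl).2

end Pool.Agent.Lib.MP_90b327_co.OI
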