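import Mathlib
import Pool.Agent.Lib.MP_90b327_co.OI.ODefs
import Pool.Agent.Lib.MP_90b327_co.OI.OTy

/-!
Classes and symmetric pairs of the doubled functionals (text 4.3).

`df_vv`: if vv IX t and vv IY t differ, then no entry is inl b, exactly one of the two conditions (all copies of t in {c, x}), (all copies in {c, y}) holds, so t contains exactly one of x, y
(and no o), and the values X (st b t), Y (st b t) differ. `fe_in`: class j: from df_vv. Class i ≠ j: st b t is a difference tuple, so it has a name a ∈ C i at a coordinate u; t u = inl a, or t u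
is a copy and a = b ∈ C j, impossible by disj. `un`: entries inl a, inl a' of t with a, a' ∈ C i are entries a, a' of st b t. disj: clear (C i, C j disjoint, inl ≠ inr). `fe_un`: same.
`fe_pull`: from the definitions. `exc_of`: FE.ex, FE.un for the class j.
`bool_eq`: st b (tb ∘ t) = st b t, IX (x) , IY (y) true, IX (y), IY (x) false. `mm_bool`: `LK.map`, `bool_eq`.
`sym_new`: t below a difference tuple t' of (bX, bY): t' contains exactly one of inr false, inr true and no inl b, so t contains at most one; st b (sw t) = st b t; compare the values.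
`sym_keep`: t below the difference tuple t' of (bX, bY), t' contains inr false, say (so not inr true), no inl b; st b t' is a difference tuple of (X,Y) and contains b ∈ C j.
g, g' ≠ b because b ∈ C j and g, g' ∈ C i; so st b (sw (inl g) (inl g') t) = sw g g' (st b t), and st b t is below st b t': SymP X Y g g' applies to st b t. If t contains inr false: bX t = X (st t),
bY t = Y (st t), bX (sw t) = X (sw (st t)), bY (sw t) = Y (sw (st t)): done. If t contains no copy: bX t = bY t = X (st t), bX (sw t) = bY (sw t) = X (sw (st t)); st t has no name of C j: such a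
name a is an entry of st b t', hence a = b by `un`, but t u = inl b does not occur. The entries of sw (st t) are entries of st t or g, g' ∈ C i, so none is in C j. By `ex` both are no
difference tuples: X (st t) ↔ Y (st t), X (sw ..) ↔ Y (sw ..), and SymP gives the claim.
-/

set_option autoImplicit false

namespace Pool.Agent.Lib.MP_90b327_co.OI

open Finset Filter Topology
open Pool.Agent.Lib.MP_90b327_co.WW (mv)

/-- value of `vv` when all copies are in `I` -/
private lemma vv_in {d : ℕ} {ν κ : Type} (X Y : Pr d ν) (b : ν) (I : κ → Prop)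
    (t : Fin d → ν ⊕ κ) (h0 : ∀ i, t i ≠ Sum.inl b) (h : ∀ i k, t i = Sum.inr k → I k) :
    vv X Y b I t ↔ X (st b t) := by
  unfold vv
  constructor
  · intro hh; exact hh.2.1 h
  · intro hh; exact ⟨h0, fun _ => hh, fun h' => absurd h h'⟩

private lemma vv_out {d : ℕ} {ν κ : Type} (X Y : Pr d ν) (b : ν) (I : κ → Prop)
    (t : Fin d → ν ⊕ κ) (h0 : ∀ i, t i ≠ Sum.inl b) (h : ¬ ∀ i k, t i = Sum.inr k → I k) :
    vv X Y b I t ↔ Y (st b t) := by
  unfold vv
  constructor
  · intro hh; exact hh.2.2 h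
  · intro hh; exact ⟨h0, fun h' => absurd h' h, fun _ => hh⟩

private lemma vv_bad {d : ℕ} {ν κ : Type} (X Y : Pr d ν) (b : ν) (I : κ → Prop)
    (t : Fin d → ν ⊕ κ) (h0 : ¬ ∀ i, t i ≠ Sum.inl b) : ¬ vv X Y b I t := fun hh => h0 hh.1

theorem df_vv {d : ℕ} {ν : Type} (X Y : Pr d ν) (b : ν) (t : Fin d → ν ⊕ Ty)
    (ht : Df (vv X Y b IX) (vv X Y b IY) t) : (∀ i, t i ≠ Sum.inl b) ∧ Df X Y (st b t) ∧
      (∀ i, t i ≠ Sum.inr Ty.o) ∧
      (((∃ i, t i = Sum.inr Ty.x) ∧ ∀ i, t i ≠ Sum.inr Ty.y) ∨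
        ((∃ i, t i = Sum.inr Ty.y) ∧ ∀ i, t i ≠ Sum.inr Ty.x)) := by
  unfold Df at ht ⊢
  have h0 : ∀ i, t i ≠ Sum.inl b := by
    by_contra h
    exact ht (iff_of_false (vv_bad X Y b IX t h) (vv_bad X Y b IY t h))
  by_cases hX : ∀ i k, t i = Sum.inr k → IX k
  · by_cases hY : ∀ i k, t i = Sum.inr k → IY k
    · exact absurd ((vv_in X Y b IX t h0 hX).trans (vv_in X Y b IY t h0 hY).symm) ht
    · rw [vv_in X Y b IX t h0 hX, vv_out X Y b IY t h0 hY] at ht
      push Not at hY
      obtain ⟨i, k, hik, hk⟩ := hY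
      refine ⟨h0, ht, fun j hj => ?_, Or.inl ⟨⟨i, ?_⟩, fun j hj => ?_⟩⟩
      · rcases hX j _ hj with h | h <;> cases h
      · have h2 := hX i k hik
        rcases h2 with h | h
        · exact absurd (Or.inl h) hk
        · rw [hik, h]
      · rcases hX j _ hj with h | h <;> cases h
  · by_cases hY : ∀ i k, t i = Sum.inr k → IY k
    · rw [vv_out X Y b IX t h0 hX, vv_in X Y b IY t h0 hY] at ht
      push Not at hX
      obtain ⟨i, k, hik, hk⟩ := hX
      refine ⟨h0, fun h => ht h.symm, fun j hj => ?_, Or.inr ⟨⟨i, ?_⟩, fun j hj => ?_⟩⟩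
      · rcases hY j _ hj with h | h <;> cases h
      · have h2 := hY i k hik
        rcases h2 with h | h
        · exact absurd (Or.inl h) hk
        · rw [hik, h]
      · rcases hY j _ hj with h | h <;> cases h
    · exact absurd ((vv_out X Y b IX t h0 hX).trans (vv_out X Y b IY t h0 hY).symm) ht

/-- the classes of the doubled functional if `b` is in the class `j` -/
def cin {ν : Type} {f : ℕ} (C : Fin f → Set ν) (j : Fin f) : Fin f → Set (ν ⊕ Ty) :=
  fun i => if i = j then {Sum.inr Ty.x, Sum.inr Ty.y} else Sum.inl '' C i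

private lemma st_inl {d : ℕ} {ν κ : Type} (b : ν) (t : Fin d → ν ⊕ κ) (u : Fin d) (a : ν)
    (h : t u = Sum.inl a) : st b t u = a := by
  simp [st, h]

private lemma st_inr {d : ℕ} {ν κ : Type} (b : ν) (t : Fin d → ν ⊕ κ) (u : Fin d) (k : κ)
    (h : t u = Sum.inr k) : st b t u = b := by
  simp [st, h]

/-- existence in an old class -/
private lemma ex_old {d : ℕ} {ν κ : Type} (b : ν) (t : Fin d → ν ⊕ κ) (S : Set ν) (hb : b ∉ S)
    (h : ∃ i, st b t i ∈ S) : ∃ i, t i ∈ (Sum.inl '' S : Set (ν ⊕ κ)) := by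
  obtain ⟨i, hi⟩ := h
  refine ⟨i, ?_⟩
  rcases hti : t i with a | k
  · rw [st_inl b t i a hti] at hi
    exact ⟨a, hi, rfl⟩
  · rw [st_inr b t i k hti] at hi
    exact absurd hi hb

private lemma un_old {d : ℕ} {ν κ : Type} (b : ν) (t : Fin d → ν ⊕ κ) (S : Set ν)
    (h : ∀ i i', st b t i ∈ S → st b t i' ∈ S → st b t i = st b t i') (i i' : Fin d)
    (hi : t i ∈ (Sum.inl '' S : Set (ν ⊕ κ))) (hi' : t i' ∈ (Sum.inl '' S : Set (ν ⊕ κ))) :
    t i = t i' := by
  obtain ⟨a, ha, hai⟩ := hi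
  obtain ⟨a', ha', hai'⟩ := hi'
  have e := st_inl b t i a hai.symm
  have e' := st_inl b t i' a' hai'.symm
  have := h i i' (by rw [e]; exact ha) (by rw [e']; exact ha')
  rw [e, e'] at this
  rw [← hai, ← hai', this]

private lemma new_ex {d : ℕ} {ν : Type} (t : Fin d → ν ⊕ Ty)
    (h : ((∃ i, t i = Sum.inr Ty.x) ∧ ∀ i, t i ≠ Sum.inr Ty.y) ∨
        ((∃ i, t i = Sum.inr Ty.y) ∧ ∀ i, t i ≠ Sum.inr Ty.x)) :
    ∃ i, t i ∈ ({Sum.inr Ty.x, Sum.inr Ty.y} : Set (ν ⊕ Ty)) := by
  rcases h with ⟨⟨i, hi⟩, _⟩ | ⟨⟨i, hi⟩, _⟩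
  · exact ⟨i, Or.inl hi⟩
  · exact ⟨i, Or.inr hi⟩

private lemma new_un {d : ℕ} {ν : Type} (t : Fin d → ν ⊕ Ty)
    (h : ((∃ i, t i = Sum.inr Ty.x) ∧ ∀ i, t i ≠ Sum.inr Ty.y) ∨
        ((∃ i, t i = Sum.inr Ty.y) ∧ ∀ i, t i ≠ Sum.inr Ty.x)) (i i' : Fin d)
    (hi : t i ∈ ({Sum.inr Ty.x, Sum.inr Ty.y} : Set (ν ⊕ Ty)))
    (hi' : t i' ∈ ({Sum.inr Ty.x, Sum.inr Ty.y} : Set (ν ⊕ Ty))) : t i = t i' := by
  rcases h with ⟨_, h⟩ | ⟨_, h⟩
  · rcases hi with hi | hi
    · rcases hi' with hi' | hi'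
      · rw [hi, hi']
      · exact absurd hi' (h i')
    · exact absurd hi (h i)
  · rcases hi with hi | hi
    · exact absurd hi (h i)
    · rcases hi' with hi' | hi'
      · exact absurd hi' (h i')
      · exact hi.trans hi'.symm

theorem fe_in {d : ℕ} {ν : Type} {f : ℕ} (X Y : Pr d ν) (C : Fin f → Set ν) (hF : FE X Y C)
    (b : ν) (j : Fin f) (hb : b ∈ C j) : FE (vv X Y b IX) (vv X Y b IY) (cin C j) := by
  refine ⟨?_, ?_, ?_⟩
  · intro i i' hii a ha ha'
    unfold cin at ha ha'
    by_cases h : i = j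
    · have h' : i' ≠ j := fun e => hii (h.trans e.symm)
      rw [if_pos h] at ha
      rw [if_neg h'] at ha'
      obtain ⟨y, _, hy⟩ := ha'
      rcases ha with ha | ha <;> rw [← hy] at ha <;> cases ha
    · rw [if_neg h] at ha
      obtain ⟨y, hyC, hy⟩ := ha
      by_cases h' : i' = j
      · rw [if_pos h'] at ha'
        rcases ha' with ha | ha <;> rw [← hy] at ha <;> cases ha
      · rw [if_neg h'] at ha'
        obtain ⟨z, hzC, hz⟩ := ha'
        have : y = z := Sum.inl_injective (hy.trans hz.symm)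
        exact hF.disj i i' hii y hyC (this ▸ hzC)
  · intro t ht i
    obtain ⟨h0, h1, h2, h3⟩ := df_vv X Y b t ht
    unfold cin
    by_cases h : i = j
    · rw [if_pos h]; exact new_ex t h3
    · rw [if_neg h]
      exact ex_old b t (C i) (hF.disj j i (Ne.symm h) b hb) (hF.ex _ h1 i)
  · intro t ht i u u' hu hu'
    obtain ⟨h0, h1, h2, h3⟩ := df_vv X Y b t ht
    unfold cin at hu hu'
    by_cases h : i = j
    · rw [if_pos h] at hu hu'; exact new_un t h3 u u' hu hu'
    · rw [if_neg h] at hu hu'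
      exact un_old b t (C i) (fun v v' => hF.un _ h1 i v v') u u' hu hu'

theorem fe_un {d : ℕ} {ν : Type} {f : ℕ} (X Y : Pr d ν) (C : Fin f → Set ν) (hF : FE X Y C)
    (b : ν) (hb : ∀ j, b ∉ C j) : FE (f := f + 1) (vv X Y b IX) (vv X Y b IY)
      (Fin.cons {Sum.inr Ty.x, Sum.inr Ty.y} (fun i => Sum.inl '' C i)) := by
  refine ⟨?_, ?_, ?_⟩
  · intro i i' hii a ha ha'
    rcases Fin.eq_zero_or_eq_succ i with rfl | ⟨i, rfl⟩
    · rcases Fin.eq_zero_or_eq_succ i' with rfl | ⟨i', rfl⟩
      · exact hii rfl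
      · simp only [Fin.cons_zero, Fin.cons_succ] at ha ha'
        obtain ⟨y, _, hy⟩ := ha'
        rcases ha with ha | ha <;> rw [← hy] at ha <;> cases ha
    · rcases Fin.eq_zero_or_eq_succ i' with rfl | ⟨i', rfl⟩
      · simp only [Fin.cons_zero, Fin.cons_succ] at ha ha'
        obtain ⟨y, _, hy⟩ := ha
        rcases ha' with ha | ha <;> rw [← hy] at ha <;> cases ha
      · simp only [Fin.cons_succ] at ha ha'
        obtain ⟨y, hyC, hy⟩ := ha
        obtain ⟨z, hzC, hz⟩ := ha'
        have : y = z := Sum.inl_injective (hy.trans hz.symm)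
        exact hF.disj i i' (fun e => hii (by rw [e])) y hyC (this ▸ hzC)
  · intro t ht i
    obtain ⟨h0, h1, h2, h3⟩ := df_vv X Y b t ht
    rcases Fin.eq_zero_or_eq_succ i with rfl | ⟨i, rfl⟩
    · simp only [Fin.cons_zero]; exact new_ex t h3
    · simp only [Fin.cons_succ]
      exact ex_old b t (C i) (hb i) (hF.ex _ h1 i)
  · intro t ht i u u' hu hu'
    obtain ⟨h0, h1, h2, h3⟩ := df_vv X Y b t ht
    rcases Fin.eq_zero_or_eq_succ i with rfl | ⟨i, rfl⟩
    · simp only [Fin.cons_zero] at hu hu'; exact new_un t h3 u u' hu hu'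
    · simp only [Fin.cons_succ] at hu hu'
      exact un_old b t (C i) (fun v v' => hF.un _ h1 i v v') u u' hu hu'

theorem fe_pull {d : ℕ} {ν ν' : Type} {f : ℕ} (h : ν → ν') (hh : Function.Injective h)
    (X Y : Pr d ν') (C : Fin f → Set ν') (hF : FE X Y C) :
    FE (fun t => X (fun i => h (t i))) (fun t => Y (fun i => h (t i))) (fun j => h ⁻¹' C j) := by
  refine ⟨?_, ?_, ?_⟩
  · intro i j hij a ha ha'
    exact hF.disj i j hij (h a) ha ha'
  · intro t ht j
    exact hF.ex (fun i => h (t i)) ht j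
  · intro t ht j i i' hi hi'
    exact hh (hF.un (fun i => h (t i)) ht j i i' hi hi')

theorem exc_of {d : ℕ} {ν : Type} {f : ℕ} (X Y : Pr d ν) (C : Fin f → Set ν) (hF : FE X Y C)
    (j : Fin f) (g g' : ν) (hg : g ≠ g') (hj : C j = {g, g'}) : Exc X Y g g' := by
  intro t ht
  obtain ⟨i, hi⟩ := hF.ex t ht j
  have hi0 := hi
  rw [hj] at hi
  have hgC : g ∈ C j := by rw [hj]; exact Or.inl rfl
  have hgC' : g' ∈ C j := by rw [hj]; exact Or.inr rfl
  rcases hi with hi | hi
  · left
    refine ⟨⟨i, hi⟩, fun i' hi' => hg ?_⟩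
    have := hF.un t ht j i i' hi0 (by rw [hi']; exact hgC')
    rw [← hi, this, hi']
  · right
    have hi2 : t i = g' := hi
    refine ⟨⟨i, hi2⟩, fun i' hi' => hg ?_⟩
    have := hF.un t ht j i' i (by rw [hi']; exact hgC) hi0
    rw [← hi', this, hi2]

def bX {d : ℕ} {ν : Type} (X Y : Pr d ν) (b : ν) : Pr d (ν ⊕ Bool) :=
  vv X Y b (fun k : Bool => k = false)

def bY {d : ℕ} {ν : Type} (X Y : Pr d ν) (b : ν) : Pr d (ν ⊕ Bool) :=
  vv X Y b (fun k : Bool => k = true)

def tb {ν : Type} : ν ⊕ Bool → ν ⊕ Ty := Sum.map id (fun k => if k then Ty.y else Ty.x)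

private lemma tb_inl {ν : Type} (z : ν ⊕ Bool) (a : ν) : tb z = Sum.inl a ↔ z = Sum.inl a := by
  rcases z with z | k
  · simp [tb]
  · simp [tb]

private lemma st_tb {d : ℕ} {ν : Type} (b : ν) (t : Fin d → ν ⊕ Bool) :
    st b (fun i => tb (t i)) = st b t := by
  funext i
  show Sum.elim id (fun _ => b) (tb (t i)) = Sum.elim id (fun _ => b) (t i)
  rcases t i with z | k
  · rfl
  · rfl

private lemma bool_ne {k s : Bool} (h : k ≠ s) : k = !s := by
  cases k <;> cases s
  · exact absurd rfl h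
  · rfl
  · rfl
  · exact absurd rfl h

private lemma vv_tb {d : ℕ} {ν : Type} (X Y : Pr d ν) (b : ν) (I : Bool → Prop) (J : Ty → Prop)
    (hIJ : ∀ k, I k ↔ J (if k then Ty.y else Ty.x)) :
    (vv X Y b I : Pr d (ν ⊕ Bool)) = fun t => vv X Y b J (fun i => tb (t i)) := by
  funext t
  have h1 : (∀ i, t i ≠ Sum.inl b) ↔ ∀ i, tb (t i) ≠ Sum.inl b := by
    simp only [ne_eq, tb_inl]
  have h2 : (∀ i k, t i = Sum.inr k → I k) ↔ ∀ i k, tb (t i) = Sum.inr k → J k := by
    constructor
    · intro h i k hk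
      rcases hti : t i with z | k'
      · rw [hti] at hk; cases hk
      · rw [hti] at hk
        have : k = if k' then Ty.y else Ty.x := (Sum.inr_injective hk).symm
        rw [this, ← hIJ]
        exact h i k' hti
    · intro h i k hk
      rw [hIJ]
      exact h i _ (by rw [hk]; rfl)
  unfold vv
  rw [h1, h2, st_tb]

theorem bool_eq {d : ℕ} {ν : Type} (X Y : Pr d ν) (b : ν) :
    bX X Y b = (fun t => vv X Y b IX (fun i => tb (t i))) ∧
      bY X Y b = (fun t => vv X Y b IY (fun i => tb (t i))) := by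
  constructor
  · exact vv_tb X Y b _ IX (fun k => by cases k <;> simp [IX])
  · exact vv_tb X Y b _ IY (fun k => by cases k <;> simp [IY])

private lemma il_tb {ν : Type} (l : List ν) : (il l : List (ν ⊕ Bool)).map tb = il l := by
  simp [il, tb]

/-- the Gram value as a functional with names `ν ⊕ Bool` -/
theorem mm_bool {d : ℕ} {K : Fam d} (hK : LK d K) {ν : Type} (X Y : Pr d ν) (b : ν)
    (l1 l2 l3 : List ν) : mm K X Y b l1 l2 l3 =
      K (ν ⊕ Bool) (il l1 ++ Sum.inr false :: (il l2 ++ Sum.inr true :: il l3)) (bX X Y b) (bY X Y b) := by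
  rw [(bool_eq X Y b).1, (bool_eq X Y b).2, ← hK.map]
  simp only [List.map_append, List.map_cons, il_tb]
  rfl

/-- the classes of the doubled functional over `ν ⊕ Bool` if `b` is in the class `j` -/
def cib {ν : Type} {f : ℕ} (C : Fin f → Set ν) (j : Fin f) : Fin f → Set (ν ⊕ Bool) :=
  fun i => if i = j then {Sum.inr false, Sum.inr true} else Sum.inl '' C i

private lemma tb_inj {ν : Type} : Function.Injective (tb : ν ⊕ Bool → ν ⊕ Ty) := by
  intro z w h
  rcases z with z | k <;> rcases w with w | k'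
  · simpa [tb] using h
  · simp [tb] at h
  · simp [tb] at h
  · cases k <;> cases k' <;> simp [tb] at h ⊢

theorem fe_bool {d : ℕ} {ν : Type} {f : ℕ} (X Y : Pr d ν) (C : Fin f → Set ν) (hF : FE X Y C)
    (b : ν) (j : Fin f) (hb : b ∈ C j) : FE (bX X Y b) (bY X Y b) (cib C j) := by
  have h := fe_pull tb tb_inj _ _ _ (fe_in X Y C hF b j hb)
  rw [← (bool_eq X Y b).1, ← (bool_eq X Y b).2] at h
  have e : (fun i => tb ⁻¹' cin C j i) = (cib C j : Fin f → Set (ν ⊕ Bool)) := by
    funext i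
    ext z
    unfold cin cib
    by_cases hi : i = j
    · rw [if_pos hi, if_pos hi]
      rcases z with z | k
      · simp [tb]
      · cases k <;> simp [tb]
    · rw [if_neg hi, if_neg hi]
      rcases z with z | k
      · simp [tb]
      · simp [tb]
  rw [e] at h
  exact h

/-- difference tuples of `bX`, `bY` -/
private lemma df_b {d : ℕ} {ν : Type} (X Y : Pr d ν) (b : ν) (t : Fin d → ν ⊕ Bool)
    (ht : Df (bX X Y b) (bY X Y b) t) : (∀ i, t i ≠ Sum.inl b) ∧ Df X Y (st b t) ∧
      ∃ s : Bool, (∃ i, t i = Sum.inr s) ∧ ∀ i, t i ≠ Sum.inr (!s) := by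
  rw [(bool_eq X Y b).1, (bool_eq X Y b).2] at ht
  obtain ⟨h0, h1, _, h3⟩ := df_vv X Y b (fun i => tb (t i)) ht
  rw [st_tb] at h1
  refine ⟨fun i hi => h0 i ((tb_inl _ _).mpr hi), h1, ?_⟩
  have hx : ∀ i, tb (t i) = Sum.inr Ty.x ↔ t i = Sum.inr false := by
    intro i
    rcases t i with z | k
    · simp [tb]
    · cases k <;> simp [tb]
  have hy : ∀ i, tb (t i) = Sum.inr Ty.y ↔ t i = Sum.inr true := by
    intro i
    rcases t i with z | k
    · simp [tb]
    · cases k <;> simp [tb]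
  rcases h3 with ⟨⟨i, hi⟩, h⟩ | ⟨⟨i, hi⟩, h⟩
  · exact ⟨false, ⟨i, (hx i).mp hi⟩, fun u hu => h u ((hy u).mpr hu)⟩
  · exact ⟨true, ⟨i, (hy i).mp hi⟩, fun u hu => h u ((hx u).mpr hu)⟩

/-- values of `bX` and `bY` on a tuple which contains the copy `s` and not the other one -/
private lemma b_val {d : ℕ} {ν : Type} (X Y : Pr d ν) (b : ν) (t : Fin d → ν ⊕ Bool)
    (h0 : ∀ i, t i ≠ Sum.inl b) (s : Bool) (hs : ∃ i, t i = Sum.inr s)
    (hn : ∀ i, t i ≠ Sum.inr (!s)) :
    (bX X Y b t ↔ if s then Y (st b t) else X (st b t)) ∧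
      (bY X Y b t ↔ if s then X (st b t) else Y (st b t)) := by
  obtain ⟨i, hi⟩ := hs
  have hall : ∀ (u : Fin d) (k : Bool), t u = Sum.inr k → k = s := by
    intro u k hk
    by_contra hne
    exact hn u (by rw [hk, bool_ne hne])
  unfold bX bY
  cases s
  · rw [vv_in X Y b _ t h0 (fun u k hk => hall u k hk),
      vv_out X Y b _ t h0 (fun h => by have := h i false hi; cases this)]
    simp
  · rw [vv_out X Y b _ t h0 (fun h => by have := h i true hi; cases this),
      vv_in X Y b _ t h0 (fun u k hk => hall u k hk)]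
    simp

/-- values of `bX` and `bY` on a tuple without copies -/
private lemma b_val0 {d : ℕ} {ν : Type} (X Y : Pr d ν) (b : ν) (t : Fin d → ν ⊕ Bool)
    (h0 : ∀ i, t i ≠ Sum.inl b) (hn : ∀ i k, t i ≠ Sum.inr k) :
    (bX X Y b t ↔ X (st b t)) ∧ (bY X Y b t ↔ X (st b t)) := by
  unfold bX bY
  exact ⟨vv_in X Y b _ t h0 (fun i k hk => absurd hk (hn i k)),
    vv_in X Y b _ t h0 (fun i k hk => absurd hk (hn i k))⟩

private lemma sw_left {d : ℕ} {ν : Type} (g g' : ν) (t : Fin d → ν) (i : Fin d) (h : t i = g) :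
    sw g g' t i = g' := by
  simp [sw, h]

private lemma sw_right {d : ℕ} {ν : Type} (g g' : ν) (t : Fin d → ν) (i : Fin d) (h : t i = g') :
    sw g g' t i = g := by
  unfold sw
  by_cases h' : t i = g
  · rw [if_pos h']; rw [← h, h']
  · rw [if_neg h', if_pos h]

private lemma sw_none {d : ℕ} {ν : Type} (g g' : ν) (t : Fin d → ν) (i : Fin d) (h : t i ≠ g)
    (h' : t i ≠ g') : sw g g' t i = t i := by
  unfold sw
  rw [if_neg h, if_neg h']

theorem sym_new {d : ℕ} {ν : Type} (X Y : Pr d ν) (b : ν) :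
    SymP (bX X Y b) (bY X Y b) (Sum.inr false) (Sum.inr true) := by
  intro t t' ht' hbel
  obtain ⟨h0', h1', s, hs', hn'⟩ := df_b X Y b t' ht'
  have h0 : ∀ i, t i ≠ Sum.inl b := by
    intro i hi
    obtain ⟨j, hj⟩ := hbel i
    exact h0' j (by rw [← hj, hi])
  have hn : ∀ i, t i ≠ Sum.inr (!s) := by
    intro i hi
    obtain ⟨j, hj⟩ := hbel i
    exact hn' j (by rw [← hj, hi])
  set t2 : Fin d → ν ⊕ Bool := sw (Sum.inr false) (Sum.inr true) t with ht2
  have hsw : ∀ i, t2 i = Sum.map id (fun k => !k) (t i) := by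
    intro i
    rcases hti : t i with z | k
    · rw [ht2, sw_none _ _ t i (by rw [hti]; simp) (by rw [hti]; simp), hti]; rfl
    · cases k
      · rw [ht2, sw_left _ _ t i hti]; rfl
      · rw [ht2, sw_right _ _ t i hti]; rfl
  have hst : st b t2 = st b t := by
    funext i
    unfold st
    rw [hsw i]
    rcases t i with z | k <;> rfl
  have h02 : ∀ i, t2 i ≠ Sum.inl b := by
    intro i hi
    rw [hsw i] at hi
    rcases hti : t i with z | k
    · rw [hti] at hi
      exact h0 i (by rw [hti]; exact hi)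
    · rw [hti] at hi; cases hi
  by_cases hc : ∃ i, t i = Sum.inr s
  · obtain ⟨i, hi⟩ := hc
    have hv := b_val X Y b t h0 s ⟨i, hi⟩ hn
    have hv2 := b_val X Y b t2 h02 (!s) ⟨i, by rw [hsw i, hi]; rfl⟩ (by
      intro u hu
      rw [hsw u] at hu
      rcases htu : t u with z | k
      · rw [htu] at hu; cases hu
      · rw [htu] at hu
        apply hn u
        rw [htu]
        have : (!k) = !(!s) := Sum.inr_injective hu
        rw [Bool.not_inj this])
    rw [hst] at hv2
    rw [hv.1, hv.2, hv2.1, hv2.2]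
    cases s <;> simp
  · have hno : ∀ i k, t i ≠ Sum.inr k := by
      intro i k hk
      by_cases hks : k = s
      · exact hc ⟨i, by rw [hk, hks]⟩
      · exact hn i (by rw [hk, bool_ne hks])
    have hno2 : ∀ i k, t2 i ≠ Sum.inr k := by
      intro i k hk
      rw [hsw i] at hk
      rcases hti : t i with z | k'
      · rw [hti] at hk; cases hk
      · exact hno i k' hti
    have hv := b_val0 X Y b t h0 hno
    have hv2 := b_val0 X Y b t2 h02 hno2
    rw [hst] at hv2
    rw [hv.1, hv.2, hv2.1, hv2.2]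
    exact ⟨Iff.rfl, Iff.rfl⟩

theorem sym_keep {d : ℕ} {ν : Type} {f : ℕ} (X Y : Pr d ν) (C : Fin f → Set ν) (hF : FE X Y C)
    (b : ν) (j : Fin f) (hb : b ∈ C j) (i : Fin f) (hij : i ≠ j) (g g' : ν) (hg : g ∈ C i)
    (hg' : g' ∈ C i) (hS : SymP X Y g g') :
    SymP (bX X Y b) (bY X Y b) (Sum.inl g) (Sum.inl g') := by
  have hgb : g ≠ b := fun e => hF.disj i j hij g hg (e ▸ hb)
  have hgb' : g' ≠ b := fun e => hF.disj i j hij g' hg' (e ▸ hb)
  intro t t' ht' hbel
  obtain ⟨h0', h1', s, hs', hn'⟩ := df_b X Y b t' ht'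
  have h0 : ∀ u, t u ≠ Sum.inl b := by
    intro u hu
    obtain ⟨w, hw⟩ := hbel u
    exact h0' w (by rw [← hw, hu])
  have hn : ∀ u, t u ≠ Sum.inr (!s) := by
    intro u hu
    obtain ⟨w, hw⟩ := hbel u
    exact hn' w (by rw [← hw, hu])
  have hbelst : ∀ u, ∃ w, st b t u = st b t' w := by
    intro u
    obtain ⟨w, hw⟩ := hbel u
    exact ⟨w, by unfold st; rw [hw]⟩
  have hsym := hS (st b t) (st b t') h1' hbelst
  set t2 : Fin d → ν ⊕ Bool := sw (Sum.inl g) (Sum.inl g') t with ht2
  have hst : st b t2 = sw g g' (st b t) := by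
    funext u
    rcases htu : t u with z | k
    · have hz : st b t u = z := st_inl b t u z htu
      by_cases h1 : z = g
      · rw [sw_left g g' (st b t) u (by rw [hz, h1])]
        exact st_inl b t2 u g' (by rw [ht2, sw_left _ _ t u (by rw [htu, h1])])
      · by_cases h2 : z = g'
        · rw [sw_right g g' (st b t) u (by rw [hz, h2])]
          exact st_inl b t2 u g (by rw [ht2, sw_right _ _ t u (by rw [htu, h2])])
        · rw [sw_none g g' (st b t) u (by rw [hz]; exact h1) (by rw [hz]; exact h2), hz]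
          refine st_inl b t2 u z ?_
          rw [ht2, sw_none _ _ t u (by rw [htu]; exact fun e => h1 (Sum.inl_injective e))
            (by rw [htu]; exact fun e => h2 (Sum.inl_injective e)), htu]
    · have hz : st b t u = b := st_inr b t u k htu
      rw [sw_none g g' (st b t) u (by rw [hz]; exact hgb.symm) (by rw [hz]; exact hgb'.symm), hz]
      refine st_inr b t2 u k ?_
      rw [ht2, sw_none _ _ t u (by rw [htu]; simp) (by rw [htu]; simp), htu]
  have hcopy : ∀ u k, t2 u = Sum.inr k ↔ t u = Sum.inr k := by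
    intro u k
    by_cases h1 : t u = Sum.inl g
    · rw [ht2, sw_left _ _ t u h1, h1]; simp
    · by_cases h2 : t u = Sum.inl g'
      · rw [ht2, sw_right _ _ t u h2, h2]; simp
      · rw [ht2, sw_none _ _ t u h1 h2]
  have h02 : ∀ u, t2 u ≠ Sum.inl b := by
    intro u hu
    by_cases h1 : t u = Sum.inl g
    · rw [ht2, sw_left _ _ t u h1] at hu
      exact hgb' (Sum.inl_injective hu)
    · by_cases h2 : t u = Sum.inl g'
      · rw [ht2, sw_right _ _ t u h2] at hu
        exact hgb (Sum.inl_injective hu)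
      · rw [ht2, sw_none _ _ t u h1 h2] at hu
        exact h0 u hu
  by_cases hc : ∃ u, t u = Sum.inr s
  · obtain ⟨u, hu⟩ := hc
    have hv := b_val X Y b t h0 s ⟨u, hu⟩ hn
    have hv2 := b_val X Y b t2 h02 s ⟨u, (hcopy u s).mpr hu⟩
      (fun w hw => hn w ((hcopy w _).mp hw))
    rw [hst] at hv2
    rw [hv.1, hv.2, hv2.1, hv2.2]
    cases s
    · simpa using hsym
    · simpa using ⟨hsym.2, hsym.1⟩
  · have hno : ∀ u k, t u ≠ Sum.inr k := by
      intro u k hk
      by_cases hks : k = s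
      · exact hc ⟨u, by rw [hk, hks]⟩
      · exact hn u (by rw [hk, bool_ne hks])
    have hno2 : ∀ u k, t2 u ≠ Sum.inr k := fun u k hk => hno u k ((hcopy u k).mp hk)
    have hv := b_val0 X Y b t h0 hno
    have hv2 := b_val0 X Y b t2 h02 hno2
    rw [hst] at hv2
    rw [hv.1, hv.2, hv2.1, hv2.2]
    -- no name of the class `j` in `st b t`
    have hCj : ∀ u, st b t u ∉ C j := by
      intro u hu
      obtain ⟨w, hw⟩ := hbelst u
      obtain ⟨w', hw'⟩ := hs'
      have hb' : st b t' w' = b := st_inr b t' w' s hw'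
      have h5 := hF.un _ h1' j w w' (by rw [← hw]; exact hu) (by rw [hb']; exact hb)
      rw [hb', ← hw] at h5
      rcases htu : t u with z | k
      · rw [st_inl b t u z htu] at h5
        exact h0 u (by rw [htu, h5])
      · exact hno u k htu
    have hCj2 : ∀ u, sw g g' (st b t) u ∉ C j := by
      intro u hu
      by_cases h1 : st b t u = g
      · rw [sw_left g g' _ u h1] at hu
        exact hF.disj i j hij g' hg' hu
      · by_cases h2 : st b t u = g'
        · rw [sw_right g g' _ u h2] at hu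
          exact hF.disj i j hij g hg hu
        · rw [sw_none g g' _ u h1 h2] at hu
          exact hCj u hu
    have e1 : X (st b t) ↔ Y (st b t) := by
      by_contra hne
      obtain ⟨u, hu⟩ := hF.ex (st b t) hne j
      exact hCj u hu
    have e2 : X (sw g g' (st b t)) ↔ Y (sw g g' (st b t)) := by
      by_contra hne
      obtain ⟨u, hu⟩ := hF.ex _ hne j
      exact hCj2 u hu
    have : X (st b t) ↔ X (sw g g' (st b t)) := hsym.1.trans e2.symm
    exact ⟨this, this⟩

end Pool.Agent.Lib.MP_90b327_co.OI
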