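import Mathlib
import Pool.Agent.Lib.MP_90b327_co.OI.ODefs
import Pool.Agent.Lib.MP_90b327_co.OI.OBE
import Pool.Agent.Lib.MP_90b327_co.OI.OTy

/-!
MODULE OI1 (75 minutes). Moving a name across a list (text 4.2).

PROOF. Names ν ⊕ ℕ × ℕ, U k = il l1 ++ (blk 0 k ++ (il l2 ++ (blk 1 k ++ il l3))). Classes C = Fin 3: V 0 i = vv X Y b (· = (0,i)), V 1 i = vv X Y b (· = (1,i)),
V 2 i = fun t => (∀ i, t i ≠ inl b) ∧ Y (st b t). Matrix: b 0 0 = b 1 1 = b 0 1 = b 1 0 = μ := mm K X Y b l1 l2 l3; b 0 2 = b 2 0 = Ka := K (l1 ++ b :: (l2 ++ l3)) X Y; b 1 2 = b 2 1 = Kb :=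
K (l1 ++ (l2 ++ b :: l3)) X Y; b 2 2 = 1. `lk_be` and `psd_null` (x = 0, y = 1, z = 2) give Ka = Kb.
Entries for i < j < k: (0,0): gram_ty, red2, red0: kt (il l1 ++ x :: y :: (il l2 ++ il l3)) = mm l1 [] (l2 ++ l3) = μ by h1. (1,1): mm (l1 ++ l2) [] l3 = μ by h2. (0,1): red1 twice:
(0,i) ↦ x, (1,j) ↦ y : mm l1 l2 l3. (1,0): K symmetric, then V_{(0,j)}, V_{(1,i)}: the same. (0,2): erase with `LK.ext` all copies except (0,i) (a tuple through another copy
is out in both: both values are (∀ i, t i ≠ inl b) ∧ Y (st b t)); the list is il l1 ++ inr (0,i) :: (il l2 ++ il l3) =: W; W.map st' = l1 ++ b :: (l2 ++ l3) with st' = Sum.elim id (fun _ => b);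
`LK.map`: K (W.map st') X Y = K W (X ∘ st') (Y ∘ st'), and on tuples over W (the only copy is (0,i), no entry inl b) X (st b t) ↔ V 0 i t: `LK.rem` (first alternative). (2,0): symmetric.
Same for (1,2). (2,2): one.
-/

set_option autoImplicit false

namespace Pool.Agent.Lib.MP_90b327_co.OI

open Finset Filter Topology
open Pool.Agent.Lib.MP_90b327_co.WW (mv)

theorem ext_list {d : ℕ} {K : Fam d} (hK : LK d K) {ν : Type} (A L B : List ν) (X Y : Pr d ν)
    (h : ∀ z ∈ L, ∀ t : Fin d → ν, (∃ i, t i = z) → (X t ↔ Y t)) :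
    K ν (A ++ (L ++ B)) X Y = K ν (A ++ B) X Y := by
  induction L with
  | nil => rfl
  | cons z L ih =>
    rw [List.cons_append, hK.ext ν A z (L ++ B) X Y (h z (List.mem_cons_self))]
    exact ih (fun z' hz' => h z' (List.mem_cons_of_mem _ hz'))

theorem range_split {i k : ℕ} (hi : i < k) : ∃ R1 R2 : List ℕ, List.range k = R1 ++ i :: R2 ∧
    (∀ u ∈ R1, u ≠ i) ∧ ∀ u ∈ R2, u ≠ i := by
  obtain ⟨R1, R2, hR⟩ := List.append_of_mem (List.mem_range.mpr hi)
  have hn : (R1 ++ i :: R2).Nodup := by rw [← hR]; exact List.nodup_range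
  refine ⟨R1, R2, hR, ?_, ?_⟩
  · rintro u hu rfl
    exact (List.nodup_append.mp hn).2.2 u hu u (List.mem_cons_self) rfl
  · rintro u hu rfl
    have h2 := (List.nodup_append.mp hn).2.1
    rw [List.nodup_cons] at h2
    exact h2.1 hu

/-- value of a copy against the vector in which all copies are out -/
theorem star_val {d : ℕ} {K : Fam d} (hK : LK d K) {ν κ : Type} (X Y : Pr d ν) (b : ν)
    (A B : List ν) (q : κ) (hb : b ∉ A ++ B) :
    K (ν ⊕ κ) (il A ++ Sum.inr q :: il B) (vv X Y b (fun k => k = q))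
      (fun t => (∀ i, t i ≠ Sum.inl b) ∧ Y (st b t)) = K ν (A ++ b :: B) X Y := by
  have hm : (il A ++ Sum.inr q :: il B : List (ν ⊕ κ)).map (Sum.elim id (fun _ => b)) =
      A ++ b :: B := by
    unfold il
    simp [List.map_map]
  rw [← hm, hK.map]
  apply hK.rem
  intro t ht
  left
  have h1 : ∀ i, t i ≠ Sum.inl b := by
    intro i hi
    have := ht i
    rw [hi] at this
    unfold il at this
    simp only [List.mem_append, List.mem_map, Sum.inl.injEq, exists_eq_right, List.mem_cons,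
      reduceCtorEq, false_or] at this
    exact hb (List.mem_append.mpr this)
  have h2 : ∀ i k, t i = Sum.inr k → k = q := by
    intro i k hi
    have := ht i
    rw [hi] at this
    unfold il at this
    simp only [List.mem_append, List.mem_map, reduceCtorEq, and_false, exists_false,
      List.mem_cons, Sum.inr.injEq, false_or, or_false] at this
    exact this
  constructor
  · constructor
    · intro h
      exact h.2.1 h2
    · intro h
      exact ⟨h1, fun _ => h, fun h3 => absurd h2 h3⟩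
  · constructor
    · intro h
      exact h.2
    · intro h
      exact ⟨h1, h⟩

/-- a tuple through another copy is out for both -/
theorem out_agree {d : ℕ} {ν κ : Type} (X Y : Pr d ν) (b : ν) (q q' : κ) (hq : q' ≠ q)
    (t : Fin d → ν ⊕ κ) (ht : ∃ i, t i = Sum.inr q') : vv X Y b (fun k => k = q) t ↔
      ((∀ i, t i ≠ Sum.inl b) ∧ Y (st b t)) := by
  obtain ⟨i, hi⟩ := ht
  have h1 : ¬ (∀ i k, t i = Sum.inr k → k = q) := fun h => hq (h i q' hi)
  unfold vv
  constructor
  · rintro ⟨h2, _, h3⟩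
    exact ⟨h2, h3 h1⟩
  · rintro ⟨h2, h3⟩
    exact ⟨h2, fun h4 => absurd h4 h1, fun _ => h3⟩

theorem i1 {d : ℕ} {K : Fam d} (hK : LK d K) {ν : Type} (X Y : Pr d ν) (b : ν)
    (l1 l2 l3 : List ν) (hb : b ∉ l1 ++ (l2 ++ l3))
    (h1 : mm K X Y b l1 [] (l2 ++ l3) = mm K X Y b l1 l2 l3)
    (h2 : mm K X Y b (l1 ++ l2) [] l3 = mm K X Y b l1 l2 l3) :
    K ν (l1 ++ b :: (l2 ++ l3)) X Y = K ν (l1 ++ (l2 ++ b :: l3)) X Y := by
  classical
  have hbs := psd_null
    (![![mm K X Y b l1 l2 l3, mm K X Y b l1 l2 l3, K ν (l1 ++ b :: (l2 ++ l3)) X Y],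
      ![mm K X Y b l1 l2 l3, mm K X Y b l1 l2 l3, K ν (l1 ++ (l2 ++ b :: l3)) X Y],
      ![K ν (l1 ++ b :: (l2 ++ l3)) X Y, K ν (l1 ++ (l2 ++ b :: l3)) X Y, 1]] : Fin 3 → Fin 3 → ℝ)
    (by intro c c'; fin_cases c <;> fin_cases c' <;> rfl) ?_ 0 1
    (by simp only [Matrix.cons_val_zero, Matrix.cons_val_one]; ring) 2
  · exact hbs
  -- the two kinds of entries with the constant vector
  have e0 : ∀ k i, i < k → K (ν ⊕ ℕ × ℕ) (il l1 ++ (blk 0 k ++ (il l2 ++ (blk 1 k ++ il l3))))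
      (vv X Y b (fun q => q = (0, i))) (fun t => (∀ i, t i ≠ Sum.inl b) ∧ Y (st b t)) =
      K ν (l1 ++ b :: (l2 ++ l3)) X Y := by
    intro k i hi
    obtain ⟨R1, R2, hR, hR1, hR2⟩ := range_split hi
    have hsp : (blk 0 k : List (ν ⊕ ℕ × ℕ)) = R1.map (fun i => Sum.inr (0, i)) ++
        Sum.inr (0, i) :: R2.map (fun i => Sum.inr (0, i)) := by
      unfold blk
      rw [hR, List.map_append, List.map_cons]
    rw [hsp, List.append_assoc, ext_list hK, List.cons_append]
    · have e1 : (il l1 ++ Sum.inr (0, i) :: (R2.map (fun i => Sum.inr (0, i)) ++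
          (il l2 ++ (blk 1 k ++ il l3))) : List (ν ⊕ ℕ × ℕ)) =
          (il l1 ++ [Sum.inr (0, i)]) ++ (R2.map (fun i => Sum.inr (0, i)) ++
          (il l2 ++ (blk 1 k ++ il l3))) := by simp
      rw [e1, ext_list hK]
      · have e2 : ((il l1 ++ [Sum.inr (0, i)]) ++ (il l2 ++ (blk 1 k ++ il l3)) :
            List (ν ⊕ ℕ × ℕ)) = ((il l1 ++ [Sum.inr (0, i)]) ++ il l2) ++ (blk 1 k ++ il l3) := by
          simp
        rw [e2, ext_list hK]
        · have e3 : (((il l1 ++ [Sum.inr (0, i)]) ++ il l2) ++ il l3 : List (ν ⊕ ℕ × ℕ)) =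
              il l1 ++ Sum.inr (0, i) :: il (l2 ++ l3) := by
            unfold il
            simp
          rw [e3]
          exact star_val hK X Y b l1 (l2 ++ l3) (0, i) hb
        · intro z hz t ht
          unfold blk at hz
          rw [List.mem_map] at hz
          obtain ⟨i', _, rfl⟩ := hz
          exact out_agree X Y b (0, i) (1, i') (by simp) t ht
      · intro z hz t ht
        rw [List.mem_map] at hz
        obtain ⟨i', hi', rfl⟩ := hz
        exact out_agree X Y b (0, i) (0, i') (by simp [hR2 i' hi']) t ht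
    · intro z hz t ht
      rw [List.mem_map] at hz
      obtain ⟨i', hi', rfl⟩ := hz
      exact out_agree X Y b (0, i) (0, i') (by simp [hR1 i' hi']) t ht
  have e1 : ∀ k i, i < k → K (ν ⊕ ℕ × ℕ) (il l1 ++ (blk 0 k ++ (il l2 ++ (blk 1 k ++ il l3))))
      (vv X Y b (fun q => q = (1, i))) (fun t => (∀ i, t i ≠ Sum.inl b) ∧ Y (st b t)) =
      K ν (l1 ++ (l2 ++ b :: l3)) X Y := by
    intro k i hi
    obtain ⟨R1, R2, hR, hR1, hR2⟩ := range_split hi
    have hsp : (blk 1 k : List (ν ⊕ ℕ × ℕ)) = R1.map (fun i => Sum.inr (1, i)) ++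
        Sum.inr (1, i) :: R2.map (fun i => Sum.inr (1, i)) := by
      unfold blk
      rw [hR, List.map_append, List.map_cons]
    rw [ext_list hK]
    · have e1 : (il l1 ++ (il l2 ++ (blk 1 k ++ il l3)) : List (ν ⊕ ℕ × ℕ)) =
          (il l1 ++ il l2) ++ (R1.map (fun i => Sum.inr (1, i)) ++
          (Sum.inr (1, i) :: (R2.map (fun i => Sum.inr (1, i)) ++ il l3))) := by
        rw [hsp]; simp
      rw [e1, ext_list hK]
      · have e2 : ((il l1 ++ il l2) ++ (Sum.inr (1, i) :: (R2.map (fun i => Sum.inr (1, i)) ++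
            il l3)) : List (ν ⊕ ℕ × ℕ)) = ((il l1 ++ il l2) ++ [Sum.inr (1, i)]) ++
            (R2.map (fun i => Sum.inr (1, i)) ++ il l3) := by
          simp
        rw [e2, ext_list hK]
        · have e3 : (((il l1 ++ il l2) ++ [Sum.inr (1, i)]) ++ il l3 : List (ν ⊕ ℕ × ℕ)) =
              il (l1 ++ l2) ++ Sum.inr (1, i) :: il l3 := by
            unfold il
            simp
          rw [e3, ← List.append_assoc]
          exact star_val hK X Y b (l1 ++ l2) l3 (1, i) (by rwa [List.append_assoc])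
        · intro z hz t ht
          rw [List.mem_map] at hz
          obtain ⟨i', hi', rfl⟩ := hz
          exact out_agree X Y b (1, i) (1, i') (by simp [hR2 i' hi']) t ht
      · intro z hz t ht
        rw [List.mem_map] at hz
        obtain ⟨i', hi', rfl⟩ := hz
        exact out_agree X Y b (1, i) (1, i') (by simp [hR1 i' hi']) t ht
    · intro z hz t ht
      unfold blk at hz
      rw [List.mem_map] at hz
      obtain ⟨i', _, rfl⟩ := hz
      exact out_agree X Y b (1, i) (0, i') (by simp) t ht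
  -- Gram entries
  have g : ∀ (I J : ℕ × ℕ → Prop) (k : ℕ),
      K (ν ⊕ ℕ × ℕ) (il l1 ++ (blk 0 k ++ (il l2 ++ (blk 1 k ++ il l3)))) (vv X Y b I)
        (vv X Y b J) = kt K X Y b (il l1 ++ ((blk 0 k).map (tyh I J) ++
          (il l2 ++ ((blk 1 k).map (tyh I J) ++ il l3)))) := by
    intro I J k
    rw [gram_ty hK]
    simp only [List.map_append, il_tyh]
  have g00 : ∀ k i j, i < j → j < k →
      K (ν ⊕ ℕ × ℕ) (il l1 ++ (blk 0 k ++ (il l2 ++ (blk 1 k ++ il l3))))
        (vv X Y b (fun q => q = (0, i))) (vv X Y b (fun q => q = (0, j))) =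
        mm K X Y b l1 l2 l3 := by
    intro k i j hij hj
    rw [g, red2 hK X Y b _ _ 0 k i j hij hj (by
      intro i' _ h3 h4
      unfold ty
      simp [h3, h4])]
    have t1 : ty (fun q : ℕ × ℕ => q = (0, i)) (fun q => q = (0, j)) (0, i) = Ty.x := by
      unfold ty
      simp [hij.ne]
    have t2 : ty (fun q : ℕ × ℕ => q = (0, i)) (fun q => q = (0, j)) (0, j) = Ty.y := by
      unfold ty
      simp [hij.ne']
    rw [t1, t2]
    have e4 : ∀ Z : List (ν ⊕ Ty), (il l1 ++ Sum.inr Ty.x :: Sum.inr Ty.y :: (il l2 ++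
        (Z ++ il l3)) : List (ν ⊕ Ty)) = (il l1 ++ Sum.inr Ty.x :: Sum.inr Ty.y :: il l2) ++
        (Z ++ il l3) := by
      intro Z; simp
    rw [e4, red0 hK X Y b _ _ 1 k (by
      intro i' _
      unfold ty
      simp), ← h1]
    unfold mm il
    simp
  have g11 : ∀ k i j, i < j → j < k →
      K (ν ⊕ ℕ × ℕ) (il l1 ++ (blk 0 k ++ (il l2 ++ (blk 1 k ++ il l3))))
        (vv X Y b (fun q => q = (1, i))) (vv X Y b (fun q => q = (1, j))) =
        mm K X Y b l1 l2 l3 := by
    intro k i j hij hj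
    rw [g, red0 hK X Y b _ _ 0 k (by
      intro i' _
      unfold ty
      simp), ← List.append_assoc, red2 hK X Y b _ _ 1 k i j hij hj (by
      intro i' _ h3 h4
      unfold ty
      simp [h3, h4])]
    have t1 : ty (fun q : ℕ × ℕ => q = (1, i)) (fun q => q = (1, j)) (1, i) = Ty.x := by
      unfold ty
      simp [hij.ne]
    have t2 : ty (fun q : ℕ × ℕ => q = (1, i)) (fun q => q = (1, j)) (1, j) = Ty.y := by
      unfold ty
      simp [hij.ne']
    rw [t1, t2, ← h2]
    unfold mm il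
    simp
  have g01 : ∀ k i j, i < k → j < k →
      K (ν ⊕ ℕ × ℕ) (il l1 ++ (blk 0 k ++ (il l2 ++ (blk 1 k ++ il l3))))
        (vv X Y b (fun q => q = (0, i))) (vv X Y b (fun q => q = (1, j))) =
        mm K X Y b l1 l2 l3 := by
    intro k i j hi hj
    rw [g, red1 hK X Y b _ _ 0 k i hi (by
      intro i' _ h3
      unfold ty
      simp [h3])]
    have t1 : ty (fun q : ℕ × ℕ => q = (0, i)) (fun q => q = (1, j)) (0, i) = Ty.x := by
      unfold ty
      simp
    have t2 : ty (fun q : ℕ × ℕ => q = (0, i)) (fun q => q = (1, j)) (1, j) = Ty.y := by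
      unfold ty
      simp
    rw [t1]
    have e4 : ∀ Z : List (ν ⊕ Ty), (il l1 ++ Sum.inr Ty.x :: (il l2 ++
        (Z ++ il l3)) : List (ν ⊕ Ty)) = (il l1 ++ Sum.inr Ty.x :: il l2) ++
        (Z ++ il l3) := by
      intro Z; simp
    rw [e4, red1 hK X Y b _ _ 1 k j hj (by
      intro i' _ h3
      unfold ty
      simp [h3]), t2]
    unfold mm il
    simp
  intro a
  refine lk_be hK _ (by intro c c'; fin_cases c <;> fin_cases c' <;> rfl) (ν ⊕ ℕ × ℕ)
    (fun k => il l1 ++ (blk 0 k ++ (il l2 ++ (blk 1 k ++ il l3))))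
    ![fun i => vv X Y b (fun q => q = (0, i)), fun i => vv X Y b (fun q => q = (1, i)),
      fun _ => (fun t => (∀ i, t i ≠ Sum.inl b) ∧ Y (st b t))] ?_ a
  intro k c c' i j hij hj
  have hi : i < k := hij.trans hj
  fin_cases c <;> fin_cases c'
  · exact g00 k i j hij hj
  · exact g01 k i j hi hj
  · exact e0 k i hi
  · exact (hK.symm _ _ _ _).trans (g01 k j i hj hi)
  · exact g11 k i j hij hj
  · exact e1 k i hi
  · exact (hK.symm _ _ _ _).trans (e0 k j hj)
  · exact (hK.symm _ _ _ _).trans (e1 k j hj)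
  · exact hK.one _ _ _

end Pool.Agent.Lib.MP_90b327_co.OI
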