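import Mathlib
import Pool.Agent.Lib.MP_90b327_co.OI.ODefs
import Pool.Agent.Lib.MP_90b327_co.OI.OI1
import Pool.Agent.Lib.MP_90b327_co.OI.OCls

/-!
MODULE OFree (30 minutes). Names outside all classes are free (text 4.3, first item).

PROOF. `i1` with b: the two hypotheses are equalities of kt (vv X Y b IX, vv X Y b IY) on lists which are permutations of each other and nodup (il injective; x, y different and inr); this
functional has f + 1 forced classes by `fe_un`, so `hC` (CF d K (f+1)) applies. `cfree_un`: same for kt with two lists A ++ c :: B and c :: (A ++ B) where inr c is in no class of the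
functional (vv X Y g IX, vv X Y g IY), g ∈ C j (`fe_in`): `free_un` with l1 = [], l2 = A, l3 = B for this functional.
-/

set_option autoImplicit false

namespace Pool.Agent.Lib.MP_90b327_co.OI

open Finset Filter Topology
open Pool.Agent.Lib.MP_90b327_co.WW (mv)

private theorem mm_oi {d : ℕ} {K : Fam d} {ν : Type} (X Y : Pr d ν) (b : ν)
    (hO : OIs K (vv X Y b IX) (vv X Y b IY)) (l1 l2 l3 : List ν) (hl : (l1 ++ (l2 ++ l3)).Nodup) :
    mm K X Y b l1 l2 l3 = K (ν ⊕ Ty) (Sum.inr Ty.x :: Sum.inr Ty.y :: il (l1 ++ (l2 ++ l3)))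
      (vv X Y b IX) (vv X Y b IY) := by
  have hp : (il l1 ++ Sum.inr Ty.x :: (il l2 ++ Sum.inr Ty.y :: il l3) : List (ν ⊕ Ty)).Perm
      (Sum.inr Ty.x :: Sum.inr Ty.y :: il (l1 ++ (l2 ++ l3))) := by
    refine List.perm_middle.trans (List.Perm.cons _ ?_)
    rw [← List.append_assoc]
    refine List.perm_middle.trans (List.Perm.cons _ ?_)
    unfold il
    rw [List.map_append, List.map_append, List.append_assoc]
  have hn : (Sum.inr Ty.x :: Sum.inr Ty.y :: il (l1 ++ (l2 ++ l3)) : List (ν ⊕ Ty)).Nodup := by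
    rw [List.nodup_cons, List.nodup_cons]
    refine ⟨?_, ?_, ?_⟩
    · intro h
      rcases List.mem_cons.1 h with h | h
      · exact absurd (Sum.inr_injective h) (by decide)
      · unfold il at h
        obtain ⟨a, -, ha⟩ := List.mem_map.1 h
        cases ha
    · intro h
      unfold il at h
      obtain ⟨a, -, ha⟩ := List.mem_map.1 h
      cases ha
    · exact hl.map Sum.inl_injective
  unfold mm kt
  exact hO _ _ (hp.nodup_iff.2 hn) hp

theorem free_un {d : ℕ} {K : Fam d} (hK : LK d K) {f : ℕ} (hC : CF d K (f + 1)) {ν : Type}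
    (X Y : Pr d ν) (C : Fin f → Set ν) (hF : FE X Y C) (b : ν) (hb : ∀ j, b ∉ C j)
    (l1 l2 l3 : List ν) (hl : (l1 ++ b :: (l2 ++ l3)).Nodup) :
    K ν (l1 ++ b :: (l2 ++ l3)) X Y = K ν (l1 ++ (l2 ++ b :: l3)) X Y := by
  have hO : OIs K (vv X Y b IX) (vv X Y b IY) := hC _ _ _ _ (fe_un X Y C hF b hb)
  have hn : (b :: (l1 ++ (l2 ++ l3))).Nodup := (List.perm_middle.nodup_iff).1 hl
  have hn1 := List.nodup_cons.1 hn
  refine i1 hK X Y b l1 l2 l3 hn1.1 ?_ ?_
  · rw [mm_oi X Y b hO l1 [] (l2 ++ l3) hn1.2, mm_oi X Y b hO l1 l2 l3 hn1.2]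
    rfl
  · rw [mm_oi X Y b hO (l1 ++ l2) [] l3 (by simpa using hn1.2), mm_oi X Y b hO l1 l2 l3 hn1.2]
    have e : (l1 ++ l2) ++ ([] ++ l3) = l1 ++ (l2 ++ l3) := by simp
    rw [e]

theorem cfree_un {d : ℕ} {K : Fam d} (hK : LK d K) {f : ℕ} (hC : CF d K (f + 1)) {ν : Type}
    (X Y : Pr d ν) (C : Fin f → Set ν) (hF : FE X Y C) (j : Fin f) (g : ν) (hg : g ∈ C j)
    (A B : List (ν ⊕ Ty)) (hl : (A ++ B).Nodup) (hc : Sum.inr Ty.c ∉ A ++ B) :
    kt K X Y g (A ++ Sum.inr Ty.c :: B) = kt K X Y g (Sum.inr Ty.c :: (A ++ B)) := by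
  have hn : ∀ i, (Sum.inr Ty.c : ν ⊕ Ty) ∉ cin C j i := by
    intro i h
    unfold cin at h
    split_ifs at h with e
    · simp at h
    · simp at h
  unfold kt
  exact (free_un hK hC (vv X Y g IX) (vv X Y g IY) (cin C j) (fe_in X Y C hF g j hg) (Sum.inr Ty.c)
    hn [] A B (List.nodup_cons.2 ⟨hc, hl⟩)).symm

end Pool.Agent.Lib.MP_90b327_co.OI
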