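import Mathlib
import Pool.Agent.Lib.MP_90b327_co.OI.ODefs
import Pool.Agent.Lib.MP_90b327_co.OI.OTy

/-!
MODULE ORep (60 minutes). A symmetric pair as a Gram functional (text 4.4, first paragraph), exchange of an adjacent symmetric pair.

`rep_mm`: h : ν → ν ⊕ Ty, h g = inr x, h g' = inr y, h a = inl a otherwise. (l1 ++ g :: (l2 ++ g' :: l3)).map h is the list of mm (g, g' are in none of l1, l2, l3). `LK.map`: mm =
K ν l (vv X Y g IX ∘ h) (vv X Y g IY ∘ h). Then `LK.rem` against (X, Y): for a tuple t (over l):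
 - through neither g nor g': all entries of h ∘ t are inl: both vv are X t (st g (h ∘ t) = t), and X t ↔ Y t (else t would contain one of them by Exc): first alternative.
 - through g, not g': vv IX = X t, vv IY = Y t (st g (h ∘ t) = t): first alternative.
 - through g', not g: st g (h ∘ t) = sw g g' t; vv IX = Y (sw t), vv IY = X (sw t). If t is below a difference tuple: SymP: first alternative. Otherwise X t ↔ Y t (t is below itself), and
   X (sw t) ↔ Y (sw t) (otherwise SymP for the pair sw t, sw t gives X (sw t) ↔ Y t, Y (sw t) ↔ X t, so t would be a difference tuple): second alternative.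
 - through both: both vv are Y (st ..); X t ↔ Y t and t is not below a difference tuple (Exc): second alternative.
`rep_swap`: `LK.map` with the exchange s of g and g' (list map: l1 ++ g' :: g :: l2), K l' X Y = K l (X ∘ s) (Y ∘ s) = K l (Y ∘ s) (X ∘ s) (symm), and `LK.rem` against (X, Y) (sw g g' t = s ∘ t):
if t is below a difference tuple: SymP. Otherwise X t ↔ Y t, and X (sw t) ↔ Y (sw t) as above: second alternative.
-/

set_option autoImplicit false

namespace Pool.Agent.Lib.MP_90b327_co.OI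

open Finset Filter Topology
open Pool.Agent.Lib.MP_90b327_co.WW (mv)

private theorem sw_sw {d : ℕ} {ν : Type} {g g' : ν} (hg : g ≠ g') (t : Fin d → ν) :
    sw g g' (sw g g' t) = t := by
  funext i
  unfold sw
  by_cases h1 : t i = g
  · simp [h1, hg.symm]
  · by_cases h2 : t i = g'
    · simp [h2, hg.symm]
    · simp [h1, h2]

/-- outside the region of the difference tuples nothing happens -/
private theorem rp_out {d : ℕ} {ν : Type} {X Y : Pr d ν} {g g' : ν} (hg : g ≠ g') (hS : SymP X Y g g')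
    (t : Fin d → ν) (ht : ∀ t' : Fin d → ν, Df X Y t' → ¬ ∀ i, ∃ j, t i = t' j) :
    (X t ↔ Y t) ∧ (X (sw g g' t) ↔ Y (sw g g' t)) := by
  have h1 : X t ↔ Y t := by
    by_contra h
    exact ht t h fun i => ⟨i, rfl⟩
  refine ⟨h1, ?_⟩
  by_contra h
  have h2 := hS (sw g g' t) (sw g g' t) h fun i => ⟨i, rfl⟩
  rw [sw_sw hg] at h2
  apply h
  rw [h2.1, h2.2]
  exact h1.symm

/-- the tuple `t` with `g'` replaced by `g` -/
private theorem rp_st {d : ℕ} {ν : Type} {g g' : ν} (h : ν → ν ⊕ Ty) (h1 : h g = Sum.inr Ty.x)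
    (h2 : h g' = Sum.inr Ty.y) (h3 : ∀ a, a ≠ g → a ≠ g' → h a = Sum.inl a) (t : Fin d → ν)
    (i : Fin d) : (t i = g → st g (fun i => h (t i)) i = g) ∧ (t i = g' → st g (fun i => h (t i)) i = g) ∧
      (t i ≠ g → t i ≠ g' → st g (fun i => h (t i)) i = t i) := by
  unfold st
  refine ⟨fun e => ?_, fun e => ?_, fun e e' => ?_⟩
  · simp only [e, h1, Sum.elim_inr]
  · simp only [e, h2, Sum.elim_inr]
  · simp only [h3 _ e e', Sum.elim_inl, id]

theorem rep_mm {d : ℕ} {K : Fam d} (hK : LK d K) {ν : Type} (X Y : Pr d ν) (g g' : ν)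
    (hg : g ≠ g') (hE : Exc X Y g g') (hS : SymP X Y g g') (l1 l2 l3 : List ν)
    (hl : (l1 ++ g :: (l2 ++ g' :: l3)).Nodup) :
    K ν (l1 ++ g :: (l2 ++ g' :: l3)) X Y = mm K X Y g l1 l2 l3 := by
  classical
  obtain ⟨h, hh⟩ : ∃ h : ν → ν ⊕ Ty, h = fun a => if a = g then Sum.inr Ty.x else
    if a = g' then Sum.inr Ty.y else Sum.inl a := ⟨_, rfl⟩
  have h1 : h g = Sum.inr Ty.x := by rw [hh]; simp
  have h2 : h g' = Sum.inr Ty.y := by rw [hh]; simp [hg.symm]
  have h3 : ∀ a, a ≠ g → a ≠ g' → h a = Sum.inl a := by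
    intro a ha ha'
    rw [hh]
    simp [ha, ha']
  -- the list
  have hgl : (g ∉ l1 ∧ g ∉ l2 ∧ g ∉ l3) ∧ (g' ∉ l1 ∧ g' ∉ l2 ∧ g' ∉ l3) := by
    simp only [List.nodup_append, List.nodup_cons, List.mem_append, List.mem_cons] at hl
    obtain ⟨-, ⟨h4, -, ⟨h5, -⟩, h6⟩, h7⟩ := hl
    refine ⟨⟨?_, ?_, ?_⟩, ?_, ?_, ?_⟩
    · intro hm
      exact h7 g hm g (Or.inl rfl) rfl
    · intro hm
      exact h4 (Or.inl hm)
    · intro hm
      exact h4 (Or.inr (Or.inr hm))
    · intro hm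
      exact h7 g' hm g' (Or.inr (Or.inr (Or.inl rfl))) rfl
    · intro hm
      exact h6 g' hm g' (Or.inl rfl) rfl
    · exact h5
  have hmap : ∀ l : List ν, g ∉ l → g' ∉ l → l.map h = il l := by
    intro l hl1 hl2
    unfold il
    refine List.map_congr_left fun a ha => h3 a ?_ ?_
    · rintro rfl
      exact hl1 ha
    · rintro rfl
      exact hl2 ha
  have hlist : (l1 ++ g :: (l2 ++ g' :: l3)).map h =
      il l1 ++ Sum.inr Ty.x :: (il l2 ++ Sum.inr Ty.y :: il l3) := by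
    simp only [List.map_append, List.map_cons, h1, h2, hmap l1 hgl.1.1 hgl.2.1,
      hmap l2 hgl.1.2.1 hgl.2.2.1, hmap l3 hgl.1.2.2 hgl.2.2.2]
  unfold mm kt
  rw [← hlist, hK.map]
  -- the tuple
  have hng : ∀ t : Fin d → ν, ∀ i, h (t i) ≠ Sum.inl g := by
    intro t i
    by_cases e : t i = g
    · rw [e, h1]
      exact Sum.inr_ne_inl
    · by_cases e' : t i = g'
      · rw [e', h2]
        exact Sum.inr_ne_inl
      · rw [h3 _ e e']
        intro h4
        exact e (Sum.inl_injective h4)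
  have hIX : ∀ t : Fin d → ν, (∀ i k, h (t i) = Sum.inr k → IX k) ↔ ∀ i, t i ≠ g' := by
    intro t
    constructor
    · intro h4 i e
      have h5 := h4 i Ty.y (by rw [e, h2])
      unfold IX at h5
      rcases h5 with h5 | h5 <;> cases h5
    · intro h4 i k e
      by_cases e1 : t i = g
      · rw [e1, h1] at e
        exact Or.inr (Sum.inr_injective e).symm
      · rw [h3 _ e1 (h4 i)] at e
        cases e
  have hIY : ∀ t : Fin d → ν, (∀ i k, h (t i) = Sum.inr k → IY k) ↔ ∀ i, t i ≠ g := by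
    intro t
    constructor
    · intro h4 i e
      have h5 := h4 i Ty.x (by rw [e, h1])
      unfold IY at h5
      rcases h5 with h5 | h5 <;> cases h5
    · intro h4 i k e
      by_cases e1 : t i = g'
      · rw [e1, h2] at e
        exact Or.inr (Sum.inr_injective e).symm
      · rw [h3 _ (h4 i) e1] at e
        cases e
  have hVX : ∀ t : Fin d → ν, vv X Y g IX (fun i => h (t i)) ↔
      (((∀ i, t i ≠ g') → X (st g (fun i => h (t i)))) ∧
        (¬ (∀ i, t i ≠ g') → Y (st g (fun i => h (t i))))) := by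
    intro t
    unfold vv
    rw [hIX]
    exact ⟨fun h4 => h4.2, fun h4 => ⟨hng t, h4⟩⟩
  have hVY : ∀ t : Fin d → ν, vv X Y g IY (fun i => h (t i)) ↔
      (((∀ i, t i ≠ g) → X (st g (fun i => h (t i)))) ∧
        (¬ (∀ i, t i ≠ g) → Y (st g (fun i => h (t i))))) := by
    intro t
    unfold vv
    rw [hIY]
    exact ⟨fun h4 => h4.2, fun h4 => ⟨hng t, h4⟩⟩
  have hst1 : ∀ t : Fin d → ν, (∀ i, t i ≠ g') → st g (fun i => h (t i)) = t := by
    intro t ht
    funext i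
    by_cases e : t i = g
    · rw [(rp_st h h1 h2 h3 t i).1 e, e]
    · exact (rp_st h h1 h2 h3 t i).2.2 e (ht i)
  have hst2 : ∀ t : Fin d → ν, (∀ i, t i ≠ g) → st g (fun i => h (t i)) = sw g g' t := by
    intro t ht
    funext i
    by_cases e : t i = g'
    · rw [(rp_st h h1 h2 h3 t i).2.1 e]
      unfold sw
      simp [e, hg.symm]
    · rw [(rp_st h h1 h2 h3 t i).2.2 (ht i) e]
      unfold sw
      simp [e, ht i]
  apply hK.rem
  intro t _
  have hsame : (∀ i, t i ≠ g) → (∀ i, t i ≠ g') → (X t ↔ Y t) := by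
    intro h4 h5
    by_contra h6
    rcases hE t h6 with ⟨⟨i, hi⟩, -⟩ | ⟨⟨i, hi⟩, -⟩
    · exact h4 i hi
    · exact h5 i hi
  by_cases c1 : ∀ i, t i ≠ g'
  · left
    rw [hVX, hVY, hst1 t c1]
    refine ⟨⟨fun h4 => ⟨fun _ => h4, fun h5 => (h5 c1).elim⟩, fun h4 => h4.1 c1⟩, ?_⟩
    by_cases c2 : ∀ i, t i ≠ g
    · have h6 := hsame c2 c1
      exact ⟨fun h4 => ⟨fun _ => h6.2 h4, fun h5 => (h5 c2).elim⟩, fun h4 => h6.1 (h4.1 c2)⟩
    · exact ⟨fun h4 => ⟨fun h5 => (c2 h5).elim, fun _ => h4⟩, fun h4 => h4.2 c2⟩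
  · by_cases c2 : ∀ i, t i ≠ g
    · by_cases hb : ∃ t' : Fin d → ν, Df X Y t' ∧ ∀ i, ∃ j, t i = t' j
      · left
        obtain ⟨t', ht', hbel⟩ := hb
        have h6 := hS t t' ht' hbel
        rw [hVX, hVY, hst2 t c2]
        refine ⟨⟨fun h4 => ⟨fun h5 => (c1 h5).elim, fun _ => h6.1.1 h4⟩, fun h4 => h6.1.2 (h4.2 c1)⟩, ?_⟩
        exact ⟨fun h4 => ⟨fun _ => h6.2.1 h4, fun h5 => (h5 c2).elim⟩, fun h4 => h6.2.2 (h4.1 c2)⟩
      · right
        have hb' : ∀ t' : Fin d → ν, Df X Y t' → ¬ ∀ i, ∃ j, t i = t' j :=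
          fun t' ht' hbel => hb ⟨t', ht', hbel⟩
        obtain ⟨h6, h7⟩ := rp_out hg hS t hb'
        refine ⟨h6, ?_, fun t' _ ht' => hb' t' ht'⟩
        rw [hVX, hVY, hst2 t c2]
        exact ⟨fun h4 => ⟨fun _ => h7.2 (h4.2 c1), fun h5 => (h5 c2).elim⟩,
          fun h4 => ⟨fun h5 => (c1 h5).elim, fun _ => h7.1 (h4.1 c2)⟩⟩
    · right
      obtain ⟨i1, hi1⟩ := not_forall.1 c1
      obtain ⟨i2, hi2⟩ := not_forall.1 c2
      have hi1' := not_not.1 hi1
      have hi2' := not_not.1 hi2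
      have hb' : ∀ t' : Fin d → ν, Df X Y t' → ¬ ∀ i, ∃ j, t i = t' j := by
        intro t' ht' hbel
        obtain ⟨j1, hj1⟩ := hbel i1
        obtain ⟨j2, hj2⟩ := hbel i2
        rcases hE t' ht' with ⟨-, h5⟩ | ⟨-, h5⟩
        · exact h5 j1 (hj1.symm.trans hi1')
        · exact h5 j2 (hj2.symm.trans hi2')
      refine ⟨(rp_out hg hS t hb').1, ?_, fun t' _ ht' => hb' t' ht'⟩
      rw [hVX, hVY]
      exact ⟨fun h4 => ⟨fun h5 => (c2 h5).elim, fun _ => h4.2 c1⟩,
        fun h4 => ⟨fun h5 => (c1 h5).elim, fun _ => h4.2 c2⟩⟩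

theorem rep_swap {d : ℕ} {K : Fam d} (hK : LK d K) {ν : Type} (X Y : Pr d ν) (g g' : ν)
    (hg : g ≠ g') (hE : Exc X Y g g') (hS : SymP X Y g g') (l1 l2 : List ν)
    (hl : (l1 ++ g :: g' :: l2).Nodup) :
    K ν (l1 ++ g :: g' :: l2) X Y = K ν (l1 ++ g' :: g :: l2) X Y := by
  classical
  obtain ⟨h, hh⟩ : ∃ h : ν → ν, h = fun a => if a = g then g' else if a = g' then g else a := ⟨_, rfl⟩
  have h1 : h g = g' := by rw [hh]; simp
  have h2 : h g' = g := by rw [hh]; simp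
  have h3 : ∀ a, a ≠ g → a ≠ g' → h a = a := by
    intro a ha ha'
    rw [hh]
    simp [ha, ha']
  have hgl : (g ∉ l1 ∧ g ∉ l2) ∧ (g' ∉ l1 ∧ g' ∉ l2) := by
    simp only [List.nodup_append, List.nodup_cons, List.mem_cons] at hl
    obtain ⟨-, ⟨h4, h5, -⟩, h7⟩ := hl
    refine ⟨⟨?_, ?_⟩, ?_, ?_⟩
    · intro hm
      exact h7 g hm g (Or.inl rfl) rfl
    · intro hm
      exact h4 (Or.inr hm)
    · intro hm
      exact h7 g' hm g' (Or.inr (Or.inl rfl)) rfl
    · exact h5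
  have hmap : ∀ l : List ν, g ∉ l → g' ∉ l → l.map h = l := by
    intro l hl1 hl2
    conv_rhs => rw [← List.map_id l]
    refine List.map_congr_left fun a ha => h3 a ?_ ?_
    · rintro rfl
      exact hl1 ha
    · rintro rfl
      exact hl2 ha
  have hlist : (l1 ++ g :: g' :: l2).map h = l1 ++ g' :: g :: l2 := by
    simp only [List.map_append, List.map_cons, h1, h2, hmap l1 hgl.1.1 hgl.2.1,
      hmap l2 hgl.1.2 hgl.2.2]
  have hsw : ∀ t : Fin d → ν, (fun i => h (t i)) = sw g g' t := by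
    intro t
    funext i
    unfold sw
    rw [hh]
  rw [← hlist, hK.map, hK.symm ν _ (fun t => X fun i => h (t i))]
  apply hK.rem
  intro t _
  show ((X t ↔ Y (fun i => h (t i))) ∧ (Y t ↔ X (fun i => h (t i)))) ∨
    ((X t ↔ Y t) ∧ (Y (fun i => h (t i)) ↔ X (fun i => h (t i))) ∧ _)
  rw [hsw]
  by_cases hb : ∃ t' : Fin d → ν, Df X Y t' ∧ ∀ i, ∃ j, t i = t' j
  · left
    obtain ⟨t', ht', hbel⟩ := hb
    exact hS t t' ht' hbel
  · right
    have hb' : ∀ t' : Fin d → ν, Df X Y t' → ¬ ∀ i, ∃ j, t i = t' j :=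
      fun t' ht' hbel => hb ⟨t', ht', hbel⟩
    obtain ⟨h6, h7⟩ := rp_out hg hS t hb'
    exact ⟨h6, h7.symm, fun t' _ ht' => hb' t' ht'⟩

end Pool.Agent.Lib.MP_90b327_co.OI
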