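import Mathlib
import Pool.Agent.Lib.MP_90b327_co.OI.ODefs
import Pool.Agent.Lib.MP_90b327_co.OI.OB
import Pool.Agent.Lib.MP_90b327_co.OI.ORep
import Pool.Agent.Lib.MP_90b327_co.OI.OFree

/-!
MODULE OPair (45 minutes). Symmetric pairs: PL1, PL2, adjacent swaps (text 4.4, conclusion).

`pr1`: `rep_mm` (twice), `pl1` with hF = `cfree_un` (b = g ∈ C j), `exc_of`. `pr2`: same with `pl2`. `sym_comm`: SymP X Y g g' → SymP X Y g' g (sw g' g t = sw g g' t, g ≠ g').
`swap_pairs`: text. lists l1 ++ x :: y :: l2. Cases: x' ∈ l2: l2 = p ++ x' :: q: K (l1 ++ x :: ((y :: p) ++ x' :: q)) = K ((l1 ++ (y :: p)) ++ x :: x' :: q) (pr1), and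
K ((l1 ++ [y]) ++ x :: (p ++ x' :: q)) = K (((l1 ++ [y]) ++ p) ++ x :: x' :: q) (pr1), the same list. y' ∈ l2: same. x' ∈ l1 and y' ∈ l1: `half` twice (with x, x' and y, y' exchanged).
`half`: l1 = p ++ x' :: q. K (p ++ x' :: (q ++ x :: (y :: l2))) = K ((p ++ q) ++ x' :: x :: (y :: l2)) (pr1 for (x', x)); K (p ++ x' :: ((q ++ [y]) ++ x :: l2)) =
K ((p ++ (q ++ [y])) ++ x' :: x :: l2) (pr1); pr2 for (x', x) with l1 := p ++ q, l2 := [y], l3 := l2. The names x', y' are in l1 or l2 because they are in the list and ≠ x, y (different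
classes are disjoint).
-/

set_option autoImplicit false

namespace Pool.Agent.Lib.MP_90b327_co.OI

open Finset Filter Topology
open Pool.Agent.Lib.MP_90b327_co.WW (mv)

/-- data of a symmetric pair in the class `j` -/
structure SP {d : ℕ} {ν : Type} {f : ℕ} (X Y : Pr d ν) (C : Fin f → Set ν) (j : Fin f)
    (g g' : ν) : Prop where
  ne : g ≠ g'
  cl : C j = {g, g'}
  sym : SymP X Y g g'

theorem SP.comm {d : ℕ} {ν : Type} {f : ℕ} {X Y : Pr d ν} {C : Fin f → Set ν} {j : Fin f}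
    {g g' : ν} (h : SP X Y C j g g') : SP X Y C j g' g := by
  refine ⟨h.ne.symm, by rw [h.cl, Set.pair_comm], ?_⟩
  intro t t' h1 h2
  have e : sw g' g t = sw g g' t := by
    funext i
    unfold sw
    have hne := h.ne
    by_cases a1 : t i = g
    · have a2 : t i ≠ g' := by rw [a1]; exact hne
      rw [if_neg a2, if_pos a1, if_pos a1]
    · by_cases a2 : t i = g'
      · rw [if_pos a2, if_neg a1, if_pos a2]
      · simp only [if_neg a1, if_neg a2]
  rw [e]
  exact h.sym t t' h1 h2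

private theorem opair_cfree {d : ℕ} {K : Fam d} (hK : LK d K) {f : ℕ} (hC : CF d K (f + 1))
    {ν : Type} (X Y : Pr d ν) (C : Fin f → Set ν) (hF : FE X Y C) (j : Fin f) (g g' : ν)
    (h : SP X Y C j g g') : CFree K X Y g := fun A B h1 h2 =>
  cfree_un hK hC X Y C hF j g (by rw [h.cl]; exact Set.mem_insert _ _) A B h1 h2

private theorem opair_sub {ν : Type} {g g' : ν} {l1 l2 l3 : List ν}
    (hl : (l1 ++ g :: (l2 ++ g' :: l3)).Nodup) : (l1 ++ (l2 ++ l3)).Nodup := by
  have hs : List.Sublist (l1 ++ (l2 ++ l3)) (l1 ++ g :: (l2 ++ g' :: l3)) :=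
    List.Sublist.append (List.Sublist.refl _)
      (List.Sublist.cons _ (List.Sublist.append (List.Sublist.refl _)
        (List.Sublist.cons _ (List.Sublist.refl _))))
  exact hs.nodup hl

private theorem opair_nd1 {ν : Type} {g g' : ν} {l1 l2 l3 : List ν}
    (hl : (l1 ++ g :: (l2 ++ g' :: l3)).Nodup) :
    ((l1 ++ l2) ++ g :: ([] ++ g' :: l3)).Nodup := by
  classical
  exact (List.Perm.nodup_iff (List.perm_iff_count.2 fun a => by
    simp only [List.count_append, List.count_cons, List.count_nil]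
    omega)).1 hl

private theorem opair_nd2 {ν : Type} {g g' : ν} {l1 l2 l3 : List ν}
    (hl : (l1 ++ g :: (l2 ++ g' :: l3)).Nodup) :
    (l1 ++ g :: ([] ++ g' :: (l2 ++ l3))).Nodup := by
  classical
  exact (List.Perm.nodup_iff (List.perm_iff_count.2 fun a => by
    simp only [List.count_append, List.count_cons, List.count_nil]
    omega)).1 hl

theorem pr1 {d : ℕ} {K : Fam d} (hK : LK d K) {f : ℕ} (hC : CF d K (f + 1)) {ν : Type}
    (X Y : Pr d ν) (C : Fin f → Set ν) (hF : FE X Y C) (j : Fin f) (g g' : ν)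
    (h : SP X Y C j g g') (l1 l2 l3 : List ν) (hl : (l1 ++ g :: (l2 ++ g' :: l3)).Nodup) :
    K ν (l1 ++ g :: (l2 ++ g' :: l3)) X Y = K ν ((l1 ++ l2) ++ g :: g' :: l3) X Y := by
  have hE := exc_of X Y C hF j g g' h.ne h.cl
  rw [rep_mm hK X Y g g' h.ne hE h.sym l1 l2 l3 hl,
    pl1 hK X Y g (opair_cfree hK hC X Y C hF j g g' h) l1 l2 l3 (opair_sub hl)]
  exact (rep_mm hK X Y g g' h.ne hE h.sym (l1 ++ l2) [] l3 (opair_nd1 hl)).symm

theorem pr2 {d : ℕ} {K : Fam d} (hK : LK d K) {f : ℕ} (hC : CF d K (f + 1)) {ν : Type}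
    (X Y : Pr d ν) (C : Fin f → Set ν) (hF : FE X Y C) (j : Fin f) (g g' : ν)
    (h : SP X Y C j g g') (l1 l2 l3 : List ν) (hl : (l1 ++ g :: (l2 ++ g' :: l3)).Nodup) :
    K ν ((l1 ++ l2) ++ g :: g' :: l3) X Y ≤ K ν (l1 ++ g :: g' :: (l2 ++ l3)) X Y := by
  have hE := exc_of X Y C hF j g g' h.ne h.cl
  have e1 := rep_mm hK X Y g g' h.ne hE h.sym (l1 ++ l2) [] l3 (opair_nd1 hl)
  have e2 := rep_mm hK X Y g g' h.ne hE h.sym l1 [] (l2 ++ l3) (opair_nd2 hl)
  have e3 := pl2 hK X Y g (opair_cfree hK hC X Y C hF j g g' h) l1 l2 l3 (opair_sub hl)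
  rw [← e1, ← e2] at e3
  exact e3

private theorem opair_np {ν : Type} {l l' : List ν} (h : l.Perm l') (hl : l.Nodup) : l'.Nodup :=
  h.nodup_iff.1 hl

theorem half {d : ℕ} {K : Fam d} (hK : LK d K) {f : ℕ} (hC : CF d K (f + 1)) {ν : Type}
    (X Y : Pr d ν) (C : Fin f → Set ν) (hF : FE X Y C) (j : Fin f) (x x' y : ν)
    (h : SP X Y C j x x') (l1 l2 : List ν) (hl : (l1 ++ x :: y :: l2).Nodup) (hx : x' ∈ l1) :
    K ν (l1 ++ y :: x :: l2) X Y ≤ K ν (l1 ++ x :: y :: l2) X Y := by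
  classical
  obtain ⟨p, q, rfl⟩ := List.append_of_mem hx
  have n1 : (p ++ x' :: (q ++ x :: (y :: l2))).Nodup := by
    have e : p ++ x' :: (q ++ x :: (y :: l2)) = (p ++ x' :: q) ++ x :: y :: l2 := by simp
    rw [e]; exact hl
  have n2 : (p ++ x' :: ((q ++ [y]) ++ x :: l2)).Nodup :=
    opair_np (List.perm_iff_count.2 fun a => by
      simp only [List.count_append, List.count_cons, List.count_nil]
      omega) hl
  have n3 : ((p ++ q) ++ x' :: ([y] ++ x :: l2)).Nodup :=
    opair_np (List.perm_iff_count.2 fun a => by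
      simp only [List.count_append, List.count_cons, List.count_nil]
      omega) hl
  have e1 := pr1 hK hC X Y C hF j x' x h.comm p q (y :: l2) n1
  have e2 := pr1 hK hC X Y C hF j x' x h.comm p (q ++ [y]) l2 n2
  have e3 := pr2 hK hC X Y C hF j x' x h.comm (p ++ q) [y] l2 n3
  have a1 : (p ++ x' :: q) ++ y :: x :: l2 = p ++ x' :: ((q ++ [y]) ++ x :: l2) := by simp
  have a2 : (p ++ x' :: q) ++ x :: y :: l2 = p ++ x' :: (q ++ x :: (y :: l2)) := by simp
  have a3 : (p ++ (q ++ [y])) ++ x' :: x :: l2 = ((p ++ q) ++ [y]) ++ x' :: x :: l2 := by simp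
  rw [a1, a2, e1, e2, a3]
  exact e3

private theorem opair_hi {d : ℕ} {K : Fam d} (hK : LK d K) {f : ℕ} (hC : CF d K (f + 1))
    {ν : Type} (X Y : Pr d ν) (C : Fin f → Set ν) (hF : FE X Y C) (i : Fin f) (x x' y : ν)
    (hi : SP X Y C i x x') (l1 l2 : List ν)
    (hl : (l1 ++ x :: y :: l2).Nodup) (hx : x' ∈ l2) :
    K ν (l1 ++ x :: y :: l2) X Y = K ν (l1 ++ y :: x :: l2) X Y := by
  classical
  obtain ⟨p, q, rfl⟩ := List.append_of_mem hx
  have n1 : (l1 ++ x :: ((y :: p) ++ x' :: q)).Nodup :=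
    opair_np (List.perm_iff_count.2 fun a => by
      simp only [List.count_append, List.count_cons]
      omega) hl
  have n2 : ((l1 ++ [y]) ++ x :: (p ++ x' :: q)).Nodup :=
    opair_np (List.perm_iff_count.2 fun a => by
      simp only [List.count_append, List.count_cons, List.count_nil]
      omega) hl
  have e1 := pr1 hK hC X Y C hF i x x' hi l1 (y :: p) q n1
  have e2 := pr1 hK hC X Y C hF i x x' hi (l1 ++ [y]) p q n2
  have a1 : l1 ++ x :: y :: (p ++ x' :: q) = l1 ++ x :: ((y :: p) ++ x' :: q) := by simp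
  have a2 : l1 ++ y :: x :: (p ++ x' :: q) = (l1 ++ [y]) ++ x :: (p ++ x' :: q) := by simp
  have a3 : (l1 ++ (y :: p)) ++ x :: x' :: q = ((l1 ++ [y]) ++ p) ++ x :: x' :: q := by simp
  rw [a1, a2, e1, e2, a3]

theorem swap_pairs {d : ℕ} {K : Fam d} (hK : LK d K) {f : ℕ} (hC : CF d K (f + 1)) {ν : Type}
    (X Y : Pr d ν) (C : Fin f → Set ν) (hF : FE X Y C) (i j : Fin f) (x x' y y' : ν)
    (hi : SP X Y C i x x') (hj : SP X Y C j y y') (l1 l2 : List ν)
    (hl : (l1 ++ x :: y :: l2).Nodup) (hx : x' ∈ l1 ++ x :: y :: l2)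
    (hy : y' ∈ l1 ++ x :: y :: l2) :
    K ν (l1 ++ x :: y :: l2) X Y = K ν (l1 ++ y :: x :: l2) X Y := by
  classical
  have hl' : (l1 ++ y :: x :: l2).Nodup :=
    opair_np (List.perm_iff_count.2 fun a => by
      simp only [List.count_append, List.count_cons]
      omega) hl
  by_cases c1 : x' = y
  · subst c1
    exact rep_swap hK X Y x x' hi.ne (exc_of X Y C hF i x x' hi.ne hi.cl) hi.sym l1 l2 hl
  by_cases c2 : y' = x
  · subst c2
    exact (rep_swap hK X Y y y' hj.ne (exc_of X Y C hF j y y' hj.ne hj.cl) hj.sym l1 l2 hl').symm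
  have m1 : x' ∈ l1 ∨ x' ∈ l2 := by
    rcases List.mem_append.1 hx with h | h
    · exact Or.inl h
    · rcases List.mem_cons.1 h with h | h
      · exact absurd h.symm hi.ne
      · rcases List.mem_cons.1 h with h | h
        · exact absurd h c1
        · exact Or.inr h
  have m2 : y' ∈ l1 ∨ y' ∈ l2 := by
    rcases List.mem_append.1 hy with h | h
    · exact Or.inl h
    · rcases List.mem_cons.1 h with h | h
      · exact absurd h c2
      · rcases List.mem_cons.1 h with h | h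
        · exact absurd h.symm hj.ne
        · exact Or.inr h
  rcases m1 with m1 | m1
  · rcases m2 with m2 | m2
    · exact le_antisymm (half hK hC X Y C hF j y y' x hj l1 l2 hl' m2)
        (half hK hC X Y C hF i x x' y hi l1 l2 hl m1)
    · exact (opair_hi hK hC X Y C hF j y y' x hj l1 l2 hl' m2).symm
  · exact opair_hi hK hC X Y C hF i x x' y hi l1 l2 hl m1

end Pool.Agent.Lib.MP_90b327_co.OI
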