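import Mathlib
import Pool.Agent.Lib.MP_90b327_co.OI.ODefs
import Pool.Agent.Lib.MP_90b327_co.OI.OPair

/-!
MODULE OMain (75 minutes). Induction: order independence (text 4.3, 4.4).

`perm_of_swap`: `List.Perm` induction on F (l0 ++ l) = F (l0 ++ l') for all l0 (nodup lists, P invariant under permutations): swap: hypothesis; cons: l0 ++ [a]; trans.
`cf_top`: f = d + 1: there is no difference tuple (the entries in the d + 1 disjoint classes would be d + 1 coordinates: pigeonhole), so X = Y as predicates, `one`.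
`cf_inner`: by induction on n: statement for all ν, X, Y, C with FE and all Sy : Finset (Fin f) with f - Sy.card = n (or ≤ n), such that for j ∈ Sy there are g, g' with SP X Y C j g g'; lists l
containing all C j, j ∈ Sy. By perm_of_swap (P l := ∀ j ∈ Sy, ∀ g ∈ C j, g ∈ l) it suffices to exchange adjacent x, y in l1 ++ x :: y :: l2. Call a name b free in the list if it is in no
class or in a class j ∉ Sy. x free, in no class: `free_un` (l1, [y], l2). x ∈ C j, j ∉ Sy: `i1` (l1, [y], l2): the two hypotheses by `mm_bool` and the induction hypothesis for (bX, bY, cib C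
j, insert j Sy) (fe_bool, sym_new for j, sym_keep for the others; the lists are nodup, permutations of each other and contain the classes: Sum.inr false, Sum.inr true, Sum.inl g).
y free: same with (l1, [x], l2) from right to left. Both not free: x ∈ C i, y ∈ C j, i, j ∈ Sy: SP with C i = {g, g'}, x ∈ {g, g'} (SP.comm): i = j: x, y = the pair: `rep_swap` (x ≠ y by nodup).
i ≠ j: `swap_pairs`. `cf_step`: cf_inner with Sy = ∅. `oi`: CF d K 0 by downward induction; FE with no classes is trivial.
-/

set_option autoImplicit false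

namespace Pool.Agent.Lib.MP_90b327_co.OI

open Finset Filter Topology
open Pool.Agent.Lib.MP_90b327_co.WW (mv)

theorem perm_of_swap {ν : Type} (F : List ν → ℝ) (P : List ν → Prop)
    (hP : ∀ l l', List.Perm l l' → P l → P l')
    (h : ∀ (l1 l2 : List ν) (x y : ν), (l1 ++ x :: y :: l2).Nodup → P (l1 ++ x :: y :: l2) →
      F (l1 ++ x :: y :: l2) = F (l1 ++ y :: x :: l2)) :
    ∀ l l' : List ν, List.Perm l l' → l.Nodup → P l → F l = F l' := by
  have key : ∀ l l' : List ν, List.Perm l l' → ∀ l0 : List ν, (l0 ++ l).Nodup → P (l0 ++ l) →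
      F (l0 ++ l) = F (l0 ++ l') := by
    intro l l' hp
    induction hp with
    | nil => intro l0 _ _; rfl
    | cons a _ ih =>
      intro l0 hn hPl
      have h1 := ih (l0 ++ [a]) (by simpa using hn) (by simpa using hPl)
      simpa using h1
    | swap a b l =>
      intro l0 hn hPl
      exact h l0 l b a hn hPl
    | trans p1 _ ih1 ih2 =>
      intro l0 hn hPl
      have hp1 := p1.append_left l0
      exact (ih1 l0 hn hPl).trans (ih2 l0 (hp1.nodup_iff.1 hn) (hP _ _ hp1 hPl))
  intro l l' hp hn hPl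
  exact key l l' hp [] hn hPl

theorem cf_top {d : ℕ} {K : Fam d} (hK : LK d K) : CF d K (d + 1) := by
  intro ν X Y C hF
  have hno : ∀ t, ¬ Df X Y t := by
    intro t ht
    have hex := hF.ex t ht
    choose φ hφ using hex
    obtain ⟨j, j', hjj, he⟩ := Fintype.exists_ne_map_eq_of_card_lt φ (by simp)
    exact hF.disj j j' hjj (t (φ j)) (hφ j) (he ▸ hφ j')
  have hXY : X = Y := by
    funext t
    exact propext (by
      by_contra h
      exact hno t h)
  intro l l' _ _
  rw [hXY, hK.one, hK.one]

private theorem omain_perm {ν : Type} (p q r : List ν) :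
    List.Perm (il p ++ Sum.inr false :: (il q ++ Sum.inr true :: il r) : List (ν ⊕ Bool))
      (Sum.inr false :: Sum.inr true :: il (p ++ (q ++ r))) := by
  refine List.perm_middle.trans (List.Perm.cons _ ?_)
  rw [← List.append_assoc]
  refine List.perm_middle.trans (List.Perm.cons _ ?_)
  unfold il
  simp

private theorem omain_nodup {ν : Type} (p q r : List ν) (h : (p ++ (q ++ r)).Nodup) :
    (il p ++ Sum.inr false :: (il q ++ Sum.inr true :: il r) : List (ν ⊕ Bool)).Nodup := by
  rw [(omain_perm p q r).nodup_iff, List.nodup_cons, List.nodup_cons]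
  refine ⟨?_, ?_, ?_⟩
  · simp [il]
  · simp [il]
  · exact h.map Sum.inl_injective

private theorem omain_perm2 {ν : Type} (p q r p' q' r' : List ν)
    (h : p ++ (q ++ r) = p' ++ (q' ++ r')) :
    List.Perm (il p ++ Sum.inr false :: (il q ++ Sum.inr true :: il r) : List (ν ⊕ Bool))
      (il p' ++ Sum.inr false :: (il q' ++ Sum.inr true :: il r')) := by
  refine (omain_perm p q r).trans ?_
  rw [h]
  exact (omain_perm p' q' r').symm

private theorem omain_mem {ν : Type} (p q r : List ν) (g : ν) (hg : g ∈ p ++ (q ++ r)) :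
    (Sum.inl g : ν ⊕ Bool) ∈
      (il p ++ Sum.inr false :: (il q ++ Sum.inr true :: il r) : List (ν ⊕ Bool)) := by
  rw [(omain_perm p q r).mem_iff]
  refine List.mem_cons_of_mem _ (List.mem_cons_of_mem _ ?_)
  exact List.mem_map_of_mem hg

private theorem omain_mem' {ν : Type} (p q r : List ν) (k : Bool) :
    (Sum.inr k : ν ⊕ Bool) ∈
      (il p ++ Sum.inr false :: (il q ++ Sum.inr true :: il r) : List (ν ⊕ Bool)) := by
  rw [(omain_perm p q r).mem_iff]
  cases k <;> simp

/-- the data for the doubled functional -/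
private theorem omain_sp {d f : ℕ} {ν : Type} {X Y : Pr d ν} {C : Fin f → Set ν}
    (hF : FE X Y C) (Sy : Finset (Fin f)) (hSy : ∀ j ∈ Sy, ∃ g g', SP X Y C j g g')
    (b : ν) (j : Fin f) (hb : b ∈ C j) (hj : j ∉ Sy) :
    ∀ i ∈ insert j Sy, ∃ g g', SP (bX X Y b) (bY X Y b) (cib C j) i g g' := by
  intro i hi
  by_cases hij : i = j
  · subst hij
    refine ⟨Sum.inr false, Sum.inr true, ⟨?_, ?_, sym_new X Y b⟩⟩
    · intro h
      exact absurd (Sum.inr_injective h) (by decide)
    · unfold cib
      rw [if_pos rfl]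
  · have hiS : i ∈ Sy := (Finset.mem_insert.1 hi).resolve_left hij
    obtain ⟨g, g', hsp⟩ := hSy i hiS
    have hg : g ∈ C i := by
      rw [hsp.cl]
      exact Set.mem_insert _ _
    have hg' : g' ∈ C i := by
      rw [hsp.cl]
      exact Set.mem_insert_of_mem _ rfl
    refine ⟨Sum.inl g, Sum.inl g', ⟨?_, ?_, sym_keep X Y C hF b j hb i hij g g' hg hg' hsp.sym⟩⟩
    · intro h
      exact hsp.ne (Sum.inl_injective h)
    · unfold cib
      rw [if_neg hij, hsp.cl, Set.image_pair]

theorem cf_inner {d : ℕ} {K : Fam d} (hK : LK d K) {f : ℕ} (hC : CF d K (f + 1)) (n : ℕ) :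
    ∀ (ν : Type) (X Y : Pr d ν) (C : Fin f → Set ν), FE X Y C → ∀ Sy : Finset (Fin f),
      f - Sy.card = n → (∀ j ∈ Sy, ∃ g g', SP X Y C j g g') → ∀ l l' : List ν, l.Nodup →
      l.Perm l' → (∀ j ∈ Sy, ∀ g ∈ C j, g ∈ l) → K ν l X Y = K ν l' X Y := by
  induction n using Nat.strong_induction_on with
  | _ n IH =>
  intro ν X Y C hF Sy hcard hSy l l' hnd hperm hmem
  -- free names
  have hfree : ∀ (b : ν), (∀ j, b ∈ C j → j ∉ Sy) → ∀ l1 l2 l3 : List ν,
      (l1 ++ b :: (l2 ++ l3)).Nodup → (∀ j ∈ Sy, ∀ g ∈ C j, g ∈ l1 ++ b :: (l2 ++ l3)) →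
      K ν (l1 ++ b :: (l2 ++ l3)) X Y = K ν (l1 ++ (l2 ++ b :: l3)) X Y := by
    intro b hb l1 l2 l3 hn hm
    by_cases hbC : ∀ j, b ∉ C j
    · exact free_un hK hC X Y C hF b hbC l1 l2 l3 hn
    · push Not at hbC
      obtain ⟨j, hbj⟩ := hbC
      have hj : j ∉ Sy := hb j hbj
      have hp0 : (l1 ++ b :: (l2 ++ l3)).Perm (b :: (l1 ++ (l2 ++ l3))) := List.perm_middle
      have hn1 := (List.nodup_cons.1 (hp0.nodup_iff.1 hn))
      have hcard' : (insert j Sy).card = Sy.card + 1 := Finset.card_insert_of_notMem hj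
      have hle : (insert j Sy).card ≤ f := by
        have := Finset.card_le_univ (insert j Sy)
        rwa [Fintype.card_fin] at this
      have hlt : f - (insert j Sy).card < n := by omega
      have hgl : ∀ p q r : List ν, p ++ (q ++ r) = l1 ++ (l2 ++ l3) →
          ∀ i ∈ insert j Sy, ∀ g ∈ cib C j i,
            g ∈ (il p ++ Sum.inr false :: (il q ++ Sum.inr true :: il r) : List (ν ⊕ Bool)) := by
        intro p q r hpqr i hi g hg
        by_cases hij : i = j
        · subst hij
          unfold cib at hg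
          rw [if_pos rfl] at hg
          rcases hg with h | h
          · rw [h]
            exact omain_mem' p q r false
          · rw [Set.mem_singleton_iff.1 h]
            exact omain_mem' p q r true
        · have hiS : i ∈ Sy := (Finset.mem_insert.1 hi).resolve_left hij
          unfold cib at hg
          rw [if_neg hij] at hg
          obtain ⟨g0, hg0, rfl⟩ := hg
          apply omain_mem
          rw [hpqr]
          have h1 := hp0.mem_iff.1 (hm i hiS g0 hg0)
          refine (List.mem_cons.1 h1).resolve_left ?_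
          rintro rfl
          exact hF.disj i j hij g0 hg0 hbj
      have hIH : ∀ p q r p' q' r' : List ν, p ++ (q ++ r) = l1 ++ (l2 ++ l3) →
          p' ++ (q' ++ r') = l1 ++ (l2 ++ l3) → mm K X Y b p q r = mm K X Y b p' q' r' := by
        intro p q r p' q' r' h1 h2
        rw [mm_bool hK, mm_bool hK]
        exact IH _ hlt (ν ⊕ Bool) (bX X Y b) (bY X Y b) (cib C j) (fe_bool X Y C hF b j hbj)
          (insert j Sy) rfl (omain_sp hF Sy hSy b j hbj hj) _ _
          (omain_nodup p q r (h1 ▸ hn1.2)) (omain_perm2 p q r p' q' r' (h1.trans h2.symm))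
          (hgl p q r h1)
      exact i1 hK X Y b l1 l2 l3 hn1.1 (hIH _ _ _ _ _ _ rfl rfl)
        (hIH _ _ _ _ _ _ (List.append_assoc _ _ _) rfl)
  refine perm_of_swap (fun l => K ν l X Y) (fun l => ∀ j ∈ Sy, ∀ g ∈ C j, g ∈ l) ?_ ?_ l l'
    hperm hnd hmem
  · intro l l' hp h j hj g hg
    exact hp.mem_iff.1 (h j hj g hg)
  · intro l1 l2 x y hn hm
    have hps : (l1 ++ x :: y :: l2).Perm (l1 ++ y :: x :: l2) :=
      (List.Perm.swap y x l2).append_left l1
    by_cases hx : ∀ j, x ∈ C j → j ∉ Sy
    · exact hfree x hx l1 [y] l2 hn hm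
    by_cases hy : ∀ j, y ∈ C j → j ∉ Sy
    · exact (hfree y hy l1 [x] l2 (hps.nodup_iff.1 hn)
        (fun j hj g hg => hps.mem_iff.1 (hm j hj g hg))).symm
    push Not at hx hy
    obtain ⟨i, hxi, hi⟩ := hx
    obtain ⟨j, hyj, hj⟩ := hy
    have hpart : ∀ (k : Fin f) (z : ν), z ∈ C k → k ∈ Sy → ∃ z', SP X Y C k z z' := by
      intro k z hz hk
      obtain ⟨g, g', hsp⟩ := hSy k hk
      have hz' := hz
      rw [hsp.cl] at hz'
      rcases hz' with h | h
      · exact ⟨g', h ▸ hsp⟩
      · exact ⟨g, (Set.mem_singleton_iff.1 h) ▸ hsp.comm⟩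
    obtain ⟨x', hsx⟩ := hpart i x hxi hi
    obtain ⟨y', hsy⟩ := hpart j y hyj hj
    have hxy : x ≠ y := by
      rintro rfl
      have h1 := (List.nodup_append.1 hn).2.1
      exact (List.nodup_cons.1 h1).1 List.mem_cons_self
    by_cases hij : i = j
    · subst hij
      have hyx : y = x' := by
        rw [hsx.cl] at hyj
        rcases hyj with h | h
        · exact absurd h.symm hxy
        · exact h
      subst hyx
      exact rep_swap hK X Y x y hxy (exc_of X Y C hF i x y hxy hsx.cl) hsx.sym l1 l2 hn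
    · have hx' : x' ∈ C i := by
        rw [hsx.cl]
        exact Set.mem_insert_of_mem _ rfl
      have hy' : y' ∈ C j := by
        rw [hsy.cl]
        exact Set.mem_insert_of_mem _ rfl
      exact swap_pairs hK hC X Y C hF i j x x' y y' hsx hsy l1 l2 hn (hm i hi x' hx')
        (hm j hj y' hy')

theorem cf_step {d : ℕ} {K : Fam d} (hK : LK d K) {f : ℕ} (hC : CF d K (f + 1)) : CF d K f := by
  intro ν X Y C hF l l' hn hp
  exact cf_inner hK hC (f - (∅ : Finset (Fin f)).card) ν X Y C hF ∅ rfl
    (fun j hj => absurd hj (Finset.notMem_empty j)) l l' hn hp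
    (fun j hj => absurd hj (Finset.notMem_empty j))

/-- THEOREM (order independence) -/
theorem oi {d : ℕ} {K : Fam d} (hK : LK d K) (ν : Type) (X Y : Pr d ν) : OIs K X Y := by
  have h : ∀ k ≤ d + 1, CF d K (d + 1 - k) := by
    intro k
    induction k with
    | zero => intro _; exact cf_top hK
    | succ k ih =>
      intro hk
      have h1 := ih (by omega)
      have h2 : d + 1 - k = d + 1 - (k + 1) + 1 := by omega
      rw [h2] at h1
      exact cf_step hK h1
  have h0 := h (d + 1) le_rfl
  rw [Nat.sub_self] at h0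
  exact h0 ν X Y (fun j => j.elim0) ⟨fun i => i.elim0, fun _ _ j => j.elim0,
    fun _ _ j => j.elim0⟩

end Pool.Agent.Lib.MP_90b327_co.OI
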