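import Mathlib
import Pool.Agent.Lib.MP_90b327_co.OI.ODefs
import Pool.Agent.Lib.MP_90b327_co.OI.OMain

/-!
MODULE OEnd (60 minutes). The chain (text 5).

`oend`: Let φ = K (Fin 3) [0,1,2] (t i₀ = 0) (t i₀ = 0 ∨ t i₀ = 1) (B = 0, G = 1, E = 2). For n ≥ 1: names Fin (n+1), list l = List.finRange (n + 1), P j t := (t i₀ : ℕ) ≤ j for j < n
(Fin n). For j < k: K l (P j) (P k) = φ: h : Fin (n+1) → Fin 3, h a = 0 if a ≤ j, 1 if j < a ≤ k, 2 otherwise; P j = (· i₀ = 0) ∘ h, P k = (· i₀ = 0 ∨ · i₀ = 1) ∘ h, so by `LK.map` K l (P j) (P k) =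
K (l.map h) ..; l.map h = 0..0 1..1 2..2 (each at least once) and `LK.abs` removes all but the last of each. (lemma: for a list L of Fin 3 of the form replicate (a+1) 0 ++ replicate (b+1) 1 ++
replicate (c+1) 2.) psd with all coefficients 1: n + n (n-1) φ ≥ 0 for all n ≥ 1, so φ ≥ 0 (φ ≥ -1/(n-1)). Finally [0,1,2] ~ [0,2,1]: `oi`.
-/

set_option autoImplicit false

namespace Pool.Agent.Lib.MP_90b327_co.OI

open Finset Filter Topology
open Pool.Agent.Lib.MP_90b327_co.WW (mv)

private theorem oend_list (p q r : ℕ) :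
    (List.range (p + q + r)).map
      (fun a => if a < p then (0 : Fin 3) else if a < p + q then 1 else 2) =
    List.replicate p 0 ++ (List.replicate q 1 ++ List.replicate r 2) := by
  apply List.ext_getElem
  · simp only [List.length_map, List.length_range, List.length_append, List.length_replicate]
    omega
  · intro i h1 h2
    simp only [List.length_map, List.length_range] at h1
    rw [List.getElem_map, List.getElem_range]
    by_cases hp : i < p
    · rw [List.getElem_append_left (by simpa using hp), List.getElem_replicate, if_pos hp]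
    · rw [List.getElem_append_right (by simpa using Nat.le_of_not_lt hp), if_neg hp]
      by_cases hq : i < p + q
      · rw [List.getElem_append_left (by simp only [List.length_replicate]; omega),
          List.getElem_replicate, if_pos hq]
      · rw [List.getElem_append_right (by simp only [List.length_replicate]; omega),
          List.getElem_replicate, if_neg hq]

private theorem oend_abs {d : ℕ} {K : Fam d} (hK : LK d K) (ν : Type) (A : List ν) (b : ν)
    (B : List ν) (X Y : Pr d ν) (n : ℕ) :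
    K ν (A ++ (List.replicate (n + 1) b ++ B)) X Y = K ν (A ++ b :: B) X Y := by
  induction n with
  | zero => rfl
  | succ n ih =>
    rw [← ih]
    exact hK.abs ν A b (List.replicate (n + 1) b ++ B) X Y
      (List.mem_append.2 (Or.inl (List.mem_replicate.2 ⟨Nat.succ_ne_zero n, rfl⟩)))

private theorem oend_three {d : ℕ} {K : Fam d} (hK : LK d K) (X Y : Pr d (Fin 3)) (p q r : ℕ) :
    K (Fin 3) (List.replicate (p + 1) 0 ++ (List.replicate (q + 1) 1 ++
      List.replicate (r + 1) 2)) X Y = K (Fin 3) [0, 1, 2] X Y := by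
  have e1 := oend_abs hK (Fin 3) [] 0 (List.replicate (q + 1) 1 ++ List.replicate (r + 1) 2) X Y p
  have e2 := oend_abs hK (Fin 3) [0] 1 (List.replicate (r + 1) 2) X Y q
  have e3 := oend_abs hK (Fin 3) [0, 1] 2 [] X Y r
  rw [List.append_nil] at e3
  exact (e1.trans e2).trans e3

private theorem oend_val {d : ℕ} {K : Fam d} (hK : LK d K) (i₀ : Fin d) (n j k : ℕ) (hjk : j < k)
    (hkn : k < n) :
    K ℕ (List.range (n + 1)) (fun t => t i₀ ≤ j) (fun t => t i₀ ≤ k) =
      K (Fin 3) [0, 1, 2] (fun t => t i₀ = 0) (fun t => t i₀ = 0 ∨ t i₀ = 1) := by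
  rw [← oend_three hK _ _ j (k - j - 1) (n - k - 1), ← oend_list, hK.map]
  have e : j + 1 + (k - j - 1 + 1) + (n - k - 1 + 1) = n + 1 := by omega
  have e2 : j + 1 + (k - j - 1 + 1) = k + 1 := by omega
  rw [e]
  have f1 : (fun t : Fin d → ℕ => (if t i₀ < j + 1 then (0 : Fin 3)
      else if t i₀ < j + 1 + (k - j - 1 + 1) then 1 else 2) = 0) = fun t => t i₀ ≤ j := by
    funext t
    apply propext
    rw [e2]
    split_ifs with h1 h2
    · exact ⟨fun _ => by omega, fun _ => rfl⟩
    · exact ⟨fun h => absurd h (by decide), fun h => absurd h (by omega)⟩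
    · exact ⟨fun h => absurd h (by decide), fun h => absurd h (by omega)⟩
  have f2 : (fun t : Fin d → ℕ => (if t i₀ < j + 1 then (0 : Fin 3)
      else if t i₀ < j + 1 + (k - j - 1 + 1) then 1 else 2) = 0 ∨
      (if t i₀ < j + 1 then (0 : Fin 3)
      else if t i₀ < j + 1 + (k - j - 1 + 1) then 1 else 2) = 1) = fun t => t i₀ ≤ k := by
    funext t
    apply propext
    rw [e2]
    split_ifs with h1 h2
    · exact ⟨fun _ => by omega, fun _ => Or.inl rfl⟩
    · exact ⟨fun _ => by omega, fun _ => Or.inr rfl⟩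
    · exact ⟨fun h => absurd h (by decide), fun h => absurd h (by omega)⟩
  rw [f1, f2]

theorem oend {d : ℕ} {K : Fam d} (hK : LK d K) (i₀ : Fin d) :
    0 ≤ K (Fin 3) [0, 2, 1] (fun t => t i₀ = 0) (fun t => t i₀ = 0 ∨ t i₀ = 1) := by
  rw [← oi hK (Fin 3) (fun t => t i₀ = 0) (fun t => t i₀ = 0 ∨ t i₀ = 1) [0, 1, 2] [0, 2, 1]
    (by decide) (List.Perm.cons _ (List.Perm.swap _ _ _))]
  set φ : ℝ := K (Fin 3) [0, 1, 2] (fun t => t i₀ = 0) (fun t => t i₀ = 0 ∨ t i₀ = 1) with hφ
  have key : ∀ n : ℕ, 0 ≤ (n : ℝ) * (n * φ + (1 - φ)) := by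
    intro n
    have h := hK.psd ℕ (List.range (n + 1)) (Fin n) (fun j t => t i₀ ≤ (j : ℕ)) (fun _ => 1)
    have hv : ∀ j k : Fin n, (1 : ℝ) * 1 * K ℕ (List.range (n + 1)) (fun t => t i₀ ≤ (j : ℕ))
        (fun t => t i₀ ≤ (k : ℕ)) = φ + if j = k then 1 - φ else 0 := by
      intro j k
      rw [one_mul, one_mul]
      rcases lt_trichotomy (j : ℕ) (k : ℕ) with hlt | heq | hgt
      · rw [oend_val hK i₀ n j k hlt k.2, if_neg (fun e => by rw [e] at hlt; omega), add_zero]
      · have e : j = k := Fin.ext heq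
        subst e
        rw [hK.one, if_pos rfl]
        ring
      · rw [hK.symm, oend_val hK i₀ n k j hgt j.2, if_neg (fun e => by rw [e] at hgt; omega),
          add_zero]
    have h2 : (∑ j : Fin n, ∑ k : Fin n, (1 : ℝ) * 1 * K ℕ (List.range (n + 1))
        (fun t => t i₀ ≤ (j : ℕ)) (fun t => t i₀ ≤ (k : ℕ))) = (n : ℝ) * (n * φ + (1 - φ)) := by
      have : ∀ j : Fin n, (∑ k : Fin n, (1 : ℝ) * 1 * K ℕ (List.range (n + 1))
          (fun t => t i₀ ≤ (j : ℕ)) (fun t => t i₀ ≤ (k : ℕ))) = n * φ + (1 - φ) := by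
        intro j
        rw [Finset.sum_congr rfl fun k _ => hv j k, Finset.sum_add_distrib, Finset.sum_const,
          Finset.card_univ, Fintype.card_fin, Finset.sum_ite_eq, if_pos (Finset.mem_univ _),
          nsmul_eq_mul]
      rw [Finset.sum_congr rfl fun j _ => this j, Finset.sum_const, Finset.card_univ,
        Fintype.card_fin, nsmul_eq_mul]
    rw [← h2]
    exact h
  by_contra hneg
  rw [not_le] at hneg
  obtain ⟨m, hm⟩ := exists_nat_gt (1 / (-φ))
  have h3 := key (m + 1)
  have h4 : 1 < m * (-φ) := by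
    rwa [div_lt_iff₀ (by linarith)] at hm
  have h5 : (0 : ℝ) < ((m + 1 : ℕ) : ℝ) := by positivity
  have h6 : 0 ≤ ((m + 1 : ℕ) : ℝ) * φ + (1 - φ) := by
    by_contra h7
    rw [not_le] at h7
    have := mul_neg_of_pos_of_neg h5 h7
    linarith
  push_cast at h6
  nlinarith

end Pool.Agent.Lib.MP_90b327_co.OI
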