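import Mathlib
import Pool.Agent.Lib.MP_90b327_co.OI.ODefs

/-!
MODULE OIt (45 minutes). Iterated means (text 3).

`it_congr`: induction on k (the list m :: s has length k + 1). `it_append`: induction on a. `it_sum`: induction on k, linearity of Λ (map_sum, map_smul; the function
m ↦ ∑ c i * G i m is ∑ c i • G i). `it_const`: Λ of a constant c is c (ev with T arbitrary, bound |c|). `it_nonneg`, `it_abs`: induction on k with pos (for the upper
bound apply pos to C - f; Λ C = C). `it_drop`: it_append, it_congr, the inner mean over m is the mean of a constant.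
`it_merge`: it_append twice: It a (s ↦ Λ_m It b1 (s1 ↦ Λ_m' It b2 (s2 ↦ F (..)))) ; F (..) = F' (.. (m + m') ..), so for fixed s, m, s1 the mean over m' is
Λ (m' ↦ g (m' + m)) = Λ g with g m' = It b2 (s2 ↦ F' (s ++ (s1 ++ m' :: s2))), |g| ≤ C (shift); then the mean over m is the mean of a constant.
-/

set_option autoImplicit false

namespace Pool.Agent.Lib.MP_90b327_co.OI

open Finset Filter Topology
open Pool.Agent.Lib.MP_90b327_co.WW (mv)

theorem it_congr (Λ : (ℕ → ℝ) →ₗ[ℝ] ℝ) (k : ℕ) (F F' : List ℕ → ℝ)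
    (h : ∀ s, s.length = k → F s = F' s) : It Λ k F = It Λ k F' := by
  induction k generalizing F F' with
  | zero => exact h [] rfl
  | succ k ih =>
    have : (fun m => It Λ k (fun s => F (m :: s))) = fun m => It Λ k (fun s => F' (m :: s)) := by
      funext m
      exact ih _ _ fun s hs => h (m :: s) (by rw [List.length_cons, hs])
    exact congrArg Λ this

theorem it_append (Λ : (ℕ → ℝ) →ₗ[ℝ] ℝ) (a b : ℕ) (F : List ℕ → ℝ) :
    It Λ (a + b) F = It Λ a (fun s => It Λ b (fun s' => F (s ++ s'))) := by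
  induction a generalizing F with
  | zero =>
    rw [Nat.zero_add]
    rfl
  | succ a ih =>
    rw [show a + 1 + b = (a + b) + 1 by omega]
    have : (fun m => It Λ (a + b) (fun s => F (m :: s))) =
        fun m => It Λ a (fun s => It Λ b (fun s' => F ((m :: s) ++ s'))) := by
      funext m
      exact ih fun s => F (m :: s)
    exact congrArg Λ this

theorem it_sum (Λ : (ℕ → ℝ) →ₗ[ℝ] ℝ) {ι : Type} [Fintype ι] (c : ι → ℝ) (F : ι → List ℕ → ℝ)
    (k : ℕ) : It Λ k (fun s => ∑ i, c i * F i s) = ∑ i, c i * It Λ k (F i) := by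
  induction k generalizing F with
  | zero => rfl
  | succ k ih =>
    have : (fun m => It Λ k (fun s => ∑ i, c i * F i (m :: s))) =
        ∑ i, c i • fun m => It Λ k (fun s => F i (m :: s)) := by
      funext m
      rw [Finset.sum_apply, ih fun i s => F i (m :: s)]
      rfl
    change Λ (fun m => It Λ k (fun s => ∑ i, c i * F i (m :: s))) = _
    rw [this, map_sum]
    refine Finset.sum_congr rfl fun i _ => ?_
    rw [map_smul]
    rfl

private theorem oit_const {T : Set ℕ} {Λ : (ℕ → ℝ) →ₗ[ℝ] ℝ} (hΛ : Mean T Λ) (c : ℝ) :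
    Λ (fun _ => c) = c :=
  hΛ.ev (fun _ => c) |c| (fun _ => le_refl _) c 0 fun _ _ _ => rfl

theorem it_const {T : Set ℕ} {Λ : (ℕ → ℝ) →ₗ[ℝ] ℝ} (hΛ : Mean T Λ) (k : ℕ) (c : ℝ) :
    It Λ k (fun _ => c) = c := by
  induction k with
  | zero => rfl
  | succ k ih =>
    have : (fun _ : ℕ => It Λ k (fun _ => c)) = fun _ => c := funext fun _ => ih
    change Λ (fun _ => It Λ k (fun _ => c)) = c
    rw [this]
    exact oit_const hΛ c

private theorem oit_two {T : Set ℕ} {Λ : (ℕ → ℝ) →ₗ[ℝ] ℝ} (hΛ : Mean T Λ) (k : ℕ)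
    (F : List ℕ → ℝ) (c C : ℝ) (h0 : ∀ s, c ≤ F s) (h1 : ∀ s, F s ≤ C) :
    c ≤ It Λ k F ∧ It Λ k F ≤ C := by
  induction k generalizing F with
  | zero => exact ⟨h0 [], h1 []⟩
  | succ k ih =>
    have hi := fun m => ih (fun s => F (m :: s)) (fun s => h0 _) fun s => h1 _
    set f : ℕ → ℝ := fun m => It Λ k (fun s => F (m :: s)) with hf
    have e1 : Λ (f - fun _ => c) = Λ f - c := by rw [map_sub, oit_const hΛ]
    have e2 : Λ ((fun _ => C) - f) = C - Λ f := by rw [map_sub, oit_const hΛ]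
    have p1 : 0 ≤ Λ (f - fun _ => c) := by
      refine hΛ.pos _ (C - c) (fun n => ?_) fun n => ?_
      · have := (hi n).1
        simp only [Pi.sub_apply, hf]
        linarith
      · have := (hi n).2
        simp only [Pi.sub_apply, hf]
        linarith
    have p2 : 0 ≤ Λ ((fun _ => C) - f) := by
      refine hΛ.pos _ (C - c) (fun n => ?_) fun n => ?_
      · have := (hi n).2
        simp only [Pi.sub_apply, hf]
        linarith
      · have := (hi n).1
        simp only [Pi.sub_apply, hf]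
        linarith
    change c ≤ Λ f ∧ Λ f ≤ C
    constructor <;> linarith

theorem it_nonneg {T : Set ℕ} {Λ : (ℕ → ℝ) →ₗ[ℝ] ℝ} (hΛ : Mean T Λ) (k : ℕ) (F : List ℕ → ℝ)
    (C : ℝ) (h0 : ∀ s, 0 ≤ F s) (h1 : ∀ s, F s ≤ C) : 0 ≤ It Λ k F :=
  (oit_two hΛ k F 0 C h0 h1).1

theorem it_abs {T : Set ℕ} {Λ : (ℕ → ℝ) →ₗ[ℝ] ℝ} (hΛ : Mean T Λ) (k : ℕ) (F : List ℕ → ℝ)
    (C : ℝ) (h : ∀ s, |F s| ≤ C) : |It Λ k F| ≤ C :=
  abs_le.2 (oit_two hΛ k F (-C) C (fun s => (abs_le.1 (h s)).1) fun s => (abs_le.1 (h s)).2)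

theorem it_drop {T : Set ℕ} {Λ : (ℕ → ℝ) →ₗ[ℝ] ℝ} (hΛ : Mean T Λ) (a b : ℕ)
    (F F' : List ℕ → ℝ)
    (h : ∀ s m s', s.length = a → s'.length = b → F (s ++ m :: s') = F' (s ++ s')) :
    It Λ (a + (b + 1)) F = It Λ (a + b) F' := by
  rw [it_append, it_append]
  refine it_congr Λ a _ _ fun s hs => ?_
  have : (fun m => It Λ b (fun s' => F (s ++ m :: s'))) =
      fun _ => It Λ b (fun s' => F' (s ++ s')) := by
    funext m
    exact it_congr Λ b _ _ fun s' hs' => h s m s' hs hs'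
  change Λ (fun m => It Λ b (fun s' => F (s ++ m :: s'))) = _
  rw [this]
  exact oit_const hΛ _

theorem it_merge {T : Set ℕ} {Λ : (ℕ → ℝ) →ₗ[ℝ] ℝ} (hΛ : Mean T Λ) (a b1 b2 : ℕ)
    (F F' : List ℕ → ℝ) (C : ℝ) (hC : ∀ s, |F' s| ≤ C)
    (h : ∀ s m s1 m' s2, s.length = a → s1.length = b1 → s2.length = b2 →
      F (s ++ m :: (s1 ++ m' :: s2)) = F' (s ++ (s1 ++ (m' + m) :: s2))) :
    It Λ (a + ((b1 + (b2 + 1)) + 1)) F = It Λ (a + (b1 + (b2 + 1))) F' := by
  rw [it_append, it_append]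
  refine it_congr Λ a _ _ fun s hs => ?_
  have key : (fun m => It Λ (b1 + (b2 + 1)) (fun s' => F (s ++ m :: s'))) =
      fun _ => It Λ (b1 + (b2 + 1)) (fun s' => F' (s ++ s')) := by
    funext m
    rw [it_append, it_append]
    refine it_congr Λ b1 _ _ fun s1 hs1 => ?_
    set g : ℕ → ℝ := fun m' => It Λ b2 (fun s2 => F' (s ++ (s1 ++ m' :: s2))) with hg
    have e1 : (fun m' => It Λ b2 (fun s2 => F (s ++ m :: (s1 ++ m' :: s2)))) =
        fun m' => g (m' + m) := by
      funext m'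
      exact it_congr Λ b2 _ _ fun s2 hs2 => h s m s1 m' s2 hs hs1 hs2
    change Λ (fun m' => It Λ b2 (fun s2 => F (s ++ m :: (s1 ++ m' :: s2)))) = Λ g
    rw [e1]
    exact hΛ.shift g C (fun n => it_abs hΛ b2 _ C fun s2 => hC _) m
  change Λ (fun m => It Λ (b1 + (b2 + 1)) (fun s' => F (s ++ m :: s'))) = _
  rw [key]
  exact oit_const hΛ _

end Pool.Agent.Lib.MP_90b327_co.OI
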