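import Mathlib
import Pool.Agent.Lib.MP_90b327_co.OI.ODefs

/-!
Basic facts on the kernel.

`KP.rem_set`: induction on the set C (as `JK.rem_set` in EX/ERem.lean). `KP.inv_on`: there is an injection τ of ℕ which agrees with σ on V (σ v for v ∈ V, v + M otherwise, M larger
than all σ v), mv τ X = mv σ X, `inv`. `KP.abs_le`: psd for two patterns, coefficients 1, ±1.
-/

set_option autoImplicit false

namespace Pool.Agent.Lib.MP_90b327_co.OI

open Finset Filter Topology
open Pool.Agent.Lib.MP_90b327_co.WW (mv)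

theorem KP.rem_set {d : ℕ} {κ : Finset (Fin d → ℕ) → Finset (Fin d → ℕ) → ℝ} (h : KP d κ)
    (C : Finset ℕ) (X Y : Finset (Fin d → ℕ))
    (hXY : ∀ c : Fin d → ℕ, (∃ i, c i ∈ C) → (c ∈ X ↔ c ∈ Y)) :
    κ X Y = κ (X.filter (fun c => ∀ i, c i ∉ C)) (Y.filter (fun c => ∀ i, c i ∉ C)) := by
  induction C using Finset.induction_on generalizing X Y with
  | empty => simp
  | insert v C hv ih =>
    rw [h.rem X Y v (fun c ⟨i, hi⟩ => hXY c ⟨i, by rw [hi]; exact mem_insert_self v C⟩)]
    rw [ih _ _ (fun c ⟨i, hi⟩ => by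
      have := hXY c ⟨i, mem_insert_of_mem hi⟩
      simp only [mem_filter, this])]
    have e : ∀ Z : Finset (Fin d → ℕ),
        (Z.filter (fun c => ∀ i, c i ≠ v)).filter (fun c => ∀ i, c i ∉ C) =
          Z.filter (fun c => ∀ i, c i ∉ insert v C) := by
      intro Z
      rw [filter_filter]
      refine filter_congr (fun c _ => ?_)
      simp only [mem_insert, not_or]
      exact forall_and.symm
    rw [e, e]

theorem KP.inv_on {d : ℕ} {κ : Finset (Fin d → ℕ) → Finset (Fin d → ℕ) → ℝ} (h : KP d κ)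
    (σ : ℕ → ℕ) (V : Finset ℕ) (hσ : Set.InjOn σ (V : Set ℕ)) (X Y : Finset (Fin d → ℕ))
    (hX : ∀ c ∈ X, ∀ i, c i ∈ V) (hY : ∀ c ∈ Y, ∀ i, c i ∈ V) : κ (mv σ X) (mv σ Y) = κ X Y := by
  let τ : ℕ → ℕ := fun v => if v ∈ V then σ v else v + (V.sup σ + 1)
  have hle : ∀ v ∈ V, σ v ≤ V.sup σ := fun v hv => Finset.le_sup hv
  have hτ : Function.Injective τ := by
    intro v w hvw
    by_cases hv : v ∈ V <;> by_cases hw : w ∈ V
    · simp only [τ, if_pos hv, if_pos hw] at hvw
      exact hσ hv hw hvw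
    · simp only [τ, if_pos hv, if_neg hw] at hvw
      have := hle v hv
      omega
    · simp only [τ, if_neg hv, if_pos hw] at hvw
      have := hle w hw
      omega
    · simp only [τ, if_neg hv, if_neg hw] at hvw
      omega
  have e : ∀ Z : Finset (Fin d → ℕ), (∀ c ∈ Z, ∀ i, c i ∈ V) → mv σ Z = mv τ Z := by
    intro Z hZ
    unfold mv
    refine image_congr (fun c hc => ?_)
    funext i
    show σ (c i) = τ (c i)
    simp only [τ, if_pos (hZ c hc i)]
  rw [e X hX, e Y hY]
  exact h.inv τ hτ X Y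

theorem KP.abs_le {d : ℕ} {κ : Finset (Fin d → ℕ) → Finset (Fin d → ℕ) → ℝ} (h : KP d κ)
    (X Y : Finset (Fin d → ℕ)) : |κ X Y| ≤ 1 := by
  have h1 := h.psd Bool (fun s => if s then Y else X) (fun _ => 1)
  have h2 := h.psd Bool (fun s => if s then Y else X) (fun s => if s then -1 else 1)
  simp only [Fintype.sum_bool, if_true, Bool.false_eq_true, if_false, h.one, h.symm Y X] at h1 h2
  rw [_root_.abs_le]
  constructor <;> linarith

end Pool.Agent.Lib.MP_90b327_co.OI
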