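import Mathlib
import Pool.Agent.Lib.MP_90b327_co.OI.ODefs
import Pool.Agent.Lib.MP_90b327_co.OI.OKp

/-!
MODULE ORem (120 minutes). Removal of common cells (text section 2, Lemma R).

`cell_rem`: text section 2. Induction on the cardinality of a finite set T of vertices of e: claim P(T): for all X, Y, e with T ⊆ range e, e ∉ X, e ∉ Y: if no difference cell f has
T ⊆ range f, then κ (insert e X) (insert e Y) = κ X Y. Step: q ∈ T, fresh vertices q^0, .., q^(2m-1) (larger than everything), cells f through q, f^t = q replaced by q^t. The patterns x,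
y_t of the text; Gram values by `KP.rem_set` (C = the copies q^s, s ≠ t resp. s ≠ t, t'), `KP.inv_on`, P(T \ q). Then |a - b|^2 ≤ 2(1 - r)/m ≤ 4/m for all m by psd (e.g.
coefficients s on x, +1/m on y_t, t < m, -1/m on y_t, t ≥ m). The WC machinery (copies of the cells through a vertex, `gcopy`) of EX/ERem.lean is the same for d = 2; adapt it to Fin d.
`cell_cong`: let Fr = the cells of X (equivalently Y) which are common and not below a difference cell. By induction (remove one cell of Fr after the other with cell_rem; difference cells do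
not change) κ X Y = κ (X \ Fr) (Y \ Fr). Same for X', Y' with Fr'. The hypothesis gives: the difference cells of (X,Y) and (X',Y') are the same and X \ Fr = X' \ Fr', Y \ Fr = Y' \ Fr'.
-/

set_option autoImplicit false

namespace Pool.Agent.Lib.MP_90b327_co.OI

open Finset Filter Topology
open Pool.Agent.Lib.MP_90b327_co.WW (mv)

private def orv (q m a : ℕ) : ℕ := if a = q then m else a

private theorem orv_self (q m : ℕ) : orv q m q = m := if_pos rfl

private theorem orv_ne {q m a : ℕ} (h : a ≠ q) : orv q m a = a := if_neg h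

private def orC {d : ℕ} (q m : ℕ) (c : Fin d → ℕ) : Fin d → ℕ := fun i => orv q m (c i)

private def orB {d : ℕ} (n : ℕ) (Z : Finset (Fin d → ℕ)) : Prop := ∀ c ∈ Z, ∀ i, c i < n

private def orW {d : ℕ} {ι : Type} [Fintype ι] (q : ℕ) (f : ι → ℕ) (U : Finset (Fin d → ℕ))
    (V : ι → Finset (Fin d → ℕ)) : Finset (Fin d → ℕ) :=
  U.filter (fun c => ∀ i, c i ≠ q) ∪
    univ.biUnion (fun s => ((V s).filter (fun c => ∃ i, c i = q)).image (orC q (f s)))

private def orT {d : ℕ} (n q : ℕ) (U Z Z' : Finset (Fin d → ℕ)) : Finset (Fin d → ℕ) :=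
  U.filter (fun c => ∀ i, c i ≠ q) ∪ (Z.filter (fun c => ∃ i, c i = q)).image (orC q n) ∪
    (Z'.filter (fun c => ∃ i, c i = q)).image (orC q (n + 1))

private theorem or_memW {d : ℕ} {ι : Type} [Fintype ι] (q : ℕ) (f : ι → ℕ)
    (U : Finset (Fin d → ℕ)) (V : ι → Finset (Fin d → ℕ)) (c : Fin d → ℕ) :
    c ∈ orW q f U V ↔ (c ∈ U ∧ ∀ i, c i ≠ q) ∨ ∃ s, ∃ x ∈ V s, (∃ i, x i = q) ∧
      orC q (f s) x = c := by
  unfold orW
  simp only [mem_union, mem_filter, mem_biUnion, mem_univ, true_and, mem_image, and_assoc]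

private theorem or_memT {d : ℕ} (n q : ℕ) (U Z Z' : Finset (Fin d → ℕ)) (c : Fin d → ℕ) :
    c ∈ orT n q U Z Z' ↔ (c ∈ U ∧ ∀ i, c i ≠ q) ∨ (∃ x ∈ Z, (∃ i, x i = q) ∧ orC q n x = c) ∨
      ∃ x ∈ Z', (∃ i, x i = q) ∧ orC q (n + 1) x = c := by
  unfold orT
  simp only [mem_union, mem_filter, mem_image, and_assoc, or_assoc]

/-- the two patterns agree at the copy `f s` -/
private theorem or_agree {d : ℕ} {ι : Type} [Fintype ι] {q n : ℕ} {f : ι → ℕ}
    (hfn : ∀ s, n ≤ f s) (hfi : ∀ s s', f s = f s' → s = s') {U U' : Finset (Fin d → ℕ)}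
    {V V' : ι → Finset (Fin d → ℕ)} (hU : orB n U) (hU' : orB n U') (hV : ∀ s, orB n (V s))
    (hV' : ∀ s, orB n (V' s)) (s : ι) (hs : V s = V' s) (c : Fin d → ℕ) (hc : ∃ i, c i = f s) :
    c ∈ orW q f U V ↔ c ∈ orW q f U' V' := by
  have key : ∀ {U U' : Finset (Fin d → ℕ)} {V V' : ι → Finset (Fin d → ℕ)}, orB n U →
      (∀ s, orB n (V s)) → V s = V' s → c ∈ orW q f U V → c ∈ orW q f U' V' := by
    intro U U' V V' hU hV hs hm
    rw [or_memW] at hm ⊢
    have hn := hfn s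
    obtain ⟨i, hi⟩ := hc
    rcases hm with ⟨h1, _⟩ | ⟨s', x, hx, h1, h2⟩
    · have := hU c h1 i
      omega
    · right
      have hss : s' = s := by
        by_contra hne
        have hne' : f s' ≠ f s := fun h => hne (hfi _ _ h)
        have hxn := hV s' x hx i
        have h3 : orv q (f s') (x i) = f s := by
          have := congrFun h2 i
          rw [hi] at this
          exact this
        by_cases hd1 : x i = q
        · rw [hd1, orv_self] at h3; exact hne' h3
        · rw [orv_ne hd1] at h3; omega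
      subst hss
      exact ⟨s', x, hs ▸ hx, h1, h2⟩
  exact ⟨key hU hV hs, key hU' hV' hs.symm⟩

/-- emptying fresh vertices -/
private theorem or_filter {d : ℕ} {ι : Type} [Fintype ι] {q n : ℕ} {f : ι → ℕ}
    {C : Finset ℕ} (hC : ∀ v ∈ C, n ≤ v) (U : Finset (Fin d → ℕ)) (V : ι → Finset (Fin d → ℕ))
    (hU : orB n U) (hV : ∀ s, orB n (V s)) :
    (orW q f U V).filter (fun c => ∀ i, c i ∉ C) =
      orW q f U (fun s => if f s ∈ C then ∅ else V s) := by
  ext c
  rw [mem_filter, or_memW, or_memW]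
  constructor
  · rintro ⟨h | ⟨s, x, hx, h1, h2⟩, h4⟩
    · exact Or.inl h
    · right
      have hfs : f s ∉ C := by
        obtain ⟨i, hi⟩ := h1
        have h3 := h4 i
        rw [← h2] at h3
        change orv q (f s) (x i) ∉ C at h3
        rwa [hi, orv_self] at h3
      refine ⟨s, x, ?_, h1, h2⟩
      rw [if_neg hfs]
      exact hx
  · rintro (⟨h1, h2⟩ | ⟨s, x, hx, h1, h2⟩)
    · refine ⟨Or.inl ⟨h1, h2⟩, fun i hi => ?_⟩
      have := hC _ hi
      have := hU c h1 i
      omega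
    · by_cases hfs : f s ∈ C
      · rw [if_pos hfs] at hx
        exact absurd hx (notMem_empty _)
      · rw [if_neg hfs] at hx
        refine ⟨Or.inr ⟨s, x, hx, h1, h2⟩, fun i => ?_⟩
        rw [← h2]
        change orv q (f s) (x i) ∉ C
        by_cases hxq : x i = q
        · rw [hxq, orv_self]; exact hfs
        · rw [orv_ne hxq]
          intro hi
          have := hC _ hi
          have := hV s x hx i
          omega

/-- only one copy left -/
private theorem or_one {d : ℕ} {ι : Type} [Fintype ι] {q : ℕ} {f : ι → ℕ} (s : ι)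
    (U Z : Finset (Fin d → ℕ)) (hUZ : ∀ c : Fin d → ℕ, (∀ i, c i ≠ q) → (c ∈ U ↔ c ∈ Z))
    (V : ι → Finset (Fin d → ℕ)) (hVs : V s = Z) (hV : ∀ s', s' ≠ s → V s' = ∅) :
    orW q f U V = mv (orv q (f s)) Z := by
  ext c
  rw [or_memW]
  unfold mv
  rw [mem_image]
  constructor
  · rintro (⟨h1, h2⟩ | ⟨s', x, hx, h1, h2⟩)
    · refine ⟨c, (hUZ c h2).1 h1, ?_⟩
      funext i
      exact orv_ne (h2 i)
    · by_cases hss : s' = s
      · subst hss
        rw [hVs] at hx
        exact ⟨x, hx, h2⟩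
      · rw [hV s' hss] at hx
        exact absurd hx (notMem_empty _)
  · rintro ⟨x, hx, rfl⟩
    by_cases h2 : ∃ i, x i = q
    · right
      exact ⟨s, x, hVs ▸ hx, h2, rfl⟩
    · left
      push Not at h2
      have h3 : orv q (f s) ∘ x = x := by
        funext i
        exact orv_ne (h2 i)
      rw [h3]
      exact ⟨(hUZ x h2).2 hx, h2⟩

/-- two copies left -/
private theorem or_two {d : ℕ} {ι : Type} [Fintype ι] {q n : ℕ} {f : ι → ℕ}
    (s s' : ι) (U Z Z' : Finset (Fin d → ℕ)) (hU : orB n U) (hZ : orB n Z) (hZ' : orB n Z')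
    (V : ι → Finset (Fin d → ℕ)) (hVs : V s = Z) (hVs' : V s' = Z')
    (hV : ∀ s'', s'' ≠ s → s'' ≠ s' → V s'' = ∅)
    (τ : ℕ → ℕ) (hτ : ∀ a < n, τ a = a) (hτ0 : τ n = f s) (hτ1 : τ (n + 1) = f s') :
    orW q f U V = mv τ (orT n q U Z Z') := by
  have e : ∀ (m : ℕ) (x : Fin d → ℕ), (∀ i, x i < n) → τ ∘ orC q m x = orC q (τ m) x := by
    intro m x hx
    funext i
    change τ (orv q m (x i)) = orv q (τ m) (x i)
    by_cases h : x i = q
    · rw [h, orv_self, orv_self]
    · rw [orv_ne h, orv_ne h, hτ _ (hx i)]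
  ext c
  rw [or_memW]
  unfold mv
  rw [mem_image]
  constructor
  · rintro (⟨h1, h2⟩ | ⟨t, x, hx, h1, h2⟩)
    · refine ⟨c, (or_memT _ _ _ _ _ _).2 (Or.inl ⟨h1, h2⟩), ?_⟩
      funext i
      exact hτ _ (hU c h1 i)
    · by_cases ht : t = s
      · subst ht
        rw [hVs] at hx
        refine ⟨orC q n x, (or_memT _ _ _ _ _ _).2 (Or.inr (Or.inl ⟨x, hx, h1, rfl⟩)), ?_⟩
        rw [e _ _ (hZ x hx), hτ0, h2]
      · by_cases ht' : t = s'
        · subst ht'
          rw [hVs'] at hx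
          refine ⟨orC q (n + 1) x, (or_memT _ _ _ _ _ _).2 (Or.inr (Or.inr ⟨x, hx, h1, rfl⟩)), ?_⟩
          rw [e _ _ (hZ' x hx), hτ1, h2]
        · rw [hV t ht ht'] at hx
          exact absurd hx (notMem_empty _)
  · rintro ⟨y, hy, rfl⟩
    rw [or_memT] at hy
    rcases hy with ⟨h1, h2⟩ | ⟨x, hx, h1, h2⟩ | ⟨x, hx, h1, h2⟩
    · left
      have h3 : τ ∘ y = y := by
        funext i
        exact hτ _ (hU y h1 i)
      rw [h3]
      exact ⟨h1, h2⟩
    · right
      refine ⟨s, x, hVs ▸ hx, h1, ?_⟩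
      rw [← h2, e _ _ (hZ x hx), hτ0]
    · right
      refine ⟨s', x, hVs' ▸ hx, h1, ?_⟩
      rw [← h2, e _ _ (hZ' x hx), hτ1]

private theorem orC_inj {d : ℕ} {q n m : ℕ} (hm : n ≤ m) {x y : Fin d → ℕ} (hx : ∀ i, x i < n)
    (hy : ∀ i, y i < n) (h : orC q m x = orC q m y) : x = y := by
  funext i
  have h1 : orv q m (x i) = orv q m (y i) := congrFun h i
  have h2 := hx i
  have h3 := hy i
  unfold orv at h1
  split_ifs at h1 with h4 h5 h5 <;> omega

private theorem or_insL {d : ℕ} (n q : ℕ) (U Z Z' : Finset (Fin d → ℕ)) (e : Fin d → ℕ)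
    (he : ∃ i, e i = q) : orT n q U (insert e Z) Z' = insert (orC q n e) (orT n q U Z Z') := by
  unfold orT
  rw [filter_insert, if_pos he, image_insert]
  ext c
  simp only [mem_union, mem_insert]
  tauto

private theorem or_insR {d : ℕ} (n q : ℕ) (U Z Z' : Finset (Fin d → ℕ)) (e : Fin d → ℕ)
    (he : ∃ i, e i = q) : orT n q U Z (insert e Z') = insert (orC q (n + 1) e) (orT n q U Z Z') := by
  unfold orT
  rw [filter_insert, if_pos he, image_insert]
  ext c
  simp only [mem_union, mem_insert]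
  tauto

private theorem or_notL {d : ℕ} {n q : ℕ} {U Z Z' : Finset (Fin d → ℕ)} (hU : orB n U)
    (hZ : orB n Z) (hZ' : orB n Z') {e : Fin d → ℕ} (hen : ∀ i, e i < n) (he : ∃ i, e i = q)
    (heZ : e ∉ Z) : orC q n e ∉ orT n q U Z Z' := by
  intro hm
  obtain ⟨i, hi⟩ := he
  have h0 : orC q n e i = n := by
    change orv q n (e i) = n
    rw [hi, orv_self]
  rcases (or_memT _ _ _ _ _ _).1 hm with ⟨h1, -⟩ | ⟨x, hx, -, h2⟩ | ⟨x, hx, -, h2⟩
  · have := hU _ h1 i
    omega
  · exact heZ (orC_inj le_rfl (hZ x hx) hen h2 ▸ hx)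
  · have h3 : orv q (n + 1) (x i) = n := by
      have := congrFun h2 i
      rw [h0] at this
      exact this
    have h4 := hZ' x hx i
    unfold orv at h3
    split_ifs at h3 <;> omega

private theorem or_notR {d : ℕ} {n q : ℕ} {U Z Z' : Finset (Fin d → ℕ)} (hU : orB n U)
    (hZ : orB n Z) (hZ' : orB n Z') {e : Fin d → ℕ} (hen : ∀ i, e i < n) (he : ∃ i, e i = q)
    (heZ : e ∉ Z') : orC q (n + 1) e ∉ orT n q U Z Z' := by
  intro hm
  obtain ⟨i, hi⟩ := he
  have h0 : orC q (n + 1) e i = n + 1 := by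
    change orv q (n + 1) (e i) = n + 1
    rw [hi, orv_self]
  rcases (or_memT _ _ _ _ _ _).1 hm with ⟨h1, -⟩ | ⟨x, hx, -, h2⟩ | ⟨x, hx, -, h2⟩
  · have := hU _ h1 i
    omega
  · have h3 : orv q n (x i) = n + 1 := by
      have := congrFun h2 i
      rw [h0] at this
      exact this
    have h4 := hZ x hx i
    unfold orv at h3
    split_ifs at h3 <;> omega
  · exact heZ (orC_inj (Nat.le_succ n) (hZ' x hx) hen h2 ▸ hx)

/-- difference cells of the patterns with two copies -/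
private theorem or_diff {d : ℕ} {n q : ℕ} {T : Finset ℕ} (hT : ∀ v ∈ T, v < n)
    (U A A' B B' : Finset (Fin d → ℕ))
    (hA : ∀ f : Fin d → ℕ, ¬ (f ∈ A ↔ f ∈ A') → (∃ i, f i = q) → ¬ ∀ v ∈ T, ∃ j, f j = v)
    (hB : ∀ f : Fin d → ℕ, ¬ (f ∈ B ↔ f ∈ B') → (∃ i, f i = q) → ¬ ∀ v ∈ T, ∃ j, f j = v)
    (c : Fin d → ℕ) (hc : ¬ (c ∈ orT n q U A B ↔ c ∈ orT n q U A' B')) :
    ¬ ∀ v ∈ T, ∃ j, c j = v := by
  have key : ∀ A A' B B' : Finset (Fin d → ℕ),
      (∀ f : Fin d → ℕ, ¬ (f ∈ A ↔ f ∈ A') → (∃ i, f i = q) → ¬ ∀ v ∈ T, ∃ j, f j = v) →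
      (∀ f : Fin d → ℕ, ¬ (f ∈ B ↔ f ∈ B') → (∃ i, f i = q) → ¬ ∀ v ∈ T, ∃ j, f j = v) →
      c ∈ orT n q U A B → c ∉ orT n q U A' B' → ¬ ∀ v ∈ T, ∃ j, c j = v := by
    intro A A' B B' hA hB h1 h2 h3
    have hlow : ∀ m x, n ≤ m → orC q m x = c → ∀ v ∈ T, ∃ j, x j = v := by
      intro m x hm hx v hv
      obtain ⟨j, hj⟩ := h3 v hv
      refine ⟨j, ?_⟩
      have h4 : orv q m (x j) = v := by
        have := congrFun hx j
        rw [hj] at this
        exact this
      have h5 := hT v hv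
      unfold orv at h4
      split_ifs at h4
      · omega
      · exact h4
    rcases (or_memT _ _ _ _ _ _).1 h1 with h4 | ⟨x, hx, hxq, h4⟩ | ⟨x, hx, hxq, h4⟩
    · exact h2 ((or_memT _ _ _ _ _ _).2 (Or.inl h4))
    · refine hA x (fun hiff => h2 ((or_memT _ _ _ _ _ _).2 (Or.inr (Or.inl
        ⟨x, hiff.1 hx, hxq, h4⟩)))) hxq (hlow n x le_rfl h4)
    · refine hB x (fun hiff => h2 ((or_memT _ _ _ _ _ _).2 (Or.inr (Or.inr
        ⟨x, hiff.1 hx, hxq, h4⟩)))) hxq (hlow (n + 1) x (Nat.le_succ n) h4)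
  by_cases h1 : c ∈ orT n q U A B
  · have h2 : c ∉ orT n q U A' B' := fun h2 => hc ⟨fun _ => h2, fun _ => h1⟩
    exact key A A' B B' hA hB h1 h2
  · have h2 : c ∈ orT n q U A' B' := by
      by_contra h2
      exact hc ⟨fun h => absurd h h1, fun h => absurd h h2⟩
    exact key A' A B' B (fun f hf => hA f (fun h => hf h.symm)) (fun f hf => hB f (fun h => hf h.symm))
      h2 h1

/-! ### positivity -/

private noncomputable def or_w (T : ℕ) (p : Fin T × Bool) : ℝ :=
  if p.2 = true then -(1 / (T : ℝ)) else 1 / T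

private theorem or_w_sum (T : ℕ) : ∑ p : Fin T × Bool, or_w T p = 0 := by
  rw [Fintype.sum_prod_type]
  refine Finset.sum_eq_zero fun t _ => ?_
  rw [Fintype.sum_bool]
  simp [or_w]

private theorem or_w_sq (T : ℕ) (hT : 1 ≤ T) : ∑ p : Fin T × Bool, or_w T p * or_w T p = 2 / T := by
  have hT0 : (T : ℝ) ≠ 0 := by
    have : (1 : ℝ) ≤ T := by exact_mod_cast hT
    linarith
  rw [Fintype.sum_prod_type]
  have h1 : ∀ t : Fin T, ∑ b : Bool, or_w T (t, b) * or_w T (t, b) = 2 / (T : ℝ) ^ 2 := by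
    intro t
    rw [Fintype.sum_bool]
    simp only [or_w, if_true, Bool.false_eq_true, if_false]
    field_simp
    norm_num
  rw [Finset.sum_congr rfl fun t _ => h1 t, Finset.sum_const, Finset.card_univ, Fintype.card_fin,
    nsmul_eq_mul]
  field_simp

private theorem or_double (T : ℕ) (hT : 1 ≤ T) (D q : ℝ) (G : Fin T × Bool → Fin T × Bool → ℝ)
    (hd : ∀ p, G p p = D) (ho : ∀ p p', p ≠ p' → G p p' = q) :
    ∑ p, ∑ p', or_w T p * or_w T p' * G p p' = 2 / T * (D - q) := by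
  classical
  have h1 : ∀ p, ∑ p', or_w T p * or_w T p' * G p p' =
      or_w T p * (∑ p', or_w T p') * q + (D - q) * (or_w T p * or_w T p) := by
    intro p
    have h2 : ∀ p', or_w T p * or_w T p' * G p p' = or_w T p * or_w T p' * q +
        (if p = p' then (D - q) * (or_w T p * or_w T p') else 0) := by
      intro p'
      by_cases h : p = p'
      · subst h
        rw [if_pos rfl, hd]
        ring
      · rw [if_neg h, ho p p' h, add_zero]
    rw [Finset.sum_congr rfl fun p' _ => h2 p', Finset.sum_add_distrib, Finset.sum_ite_eq,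
      if_pos (Finset.mem_univ p), ← Finset.sum_mul, ← Finset.mul_sum]
  rw [Finset.sum_congr rfl fun p _ => h1 p, Finset.sum_add_distrib, or_w_sum, ← Finset.mul_sum,
    or_w_sq T hT]
  simp only [mul_zero, zero_mul, Finset.sum_const_zero, zero_add]
  ring

/-- two values are equal if they are compared by exchangeable families of every length -/
private theorem or_eq {d : ℕ} {κ : Finset (Fin d → ℕ) → Finset (Fin d → ℕ) → ℝ} (h : KP d κ)
    (a b r : ℝ) (hr : ∀ T : ℕ, ∃ (x : Finset (Fin d → ℕ)) (y : Fin T × Bool → Finset (Fin d → ℕ)),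
      (∀ t, κ x (y (t, false)) = a) ∧ (∀ t, κ x (y (t, true)) = b) ∧
      ∀ s s', s ≠ s' → κ (y s) (y s') = r) : b = a := by
  obtain ⟨e, he⟩ : ∃ e, e = a - b := ⟨_, rfl⟩
  have key : ∀ T : ℕ, 1 ≤ T → e ^ 2 ≤ (2 * (1 - r)) / T := by
    intro T hT
    obtain ⟨x, y, h1, h2, h3⟩ := hr T
    have hT0 : (0 : ℝ) < T := by exact_mod_cast hT
    have hlam : ∀ lam : ℝ, 0 ≤ 1 * (lam * lam) + (2 * e) * lam + 2 / T * (1 - r) := by
      intro lam
      have hp := h.psd (Option (Fin T × Bool)) (fun o => o.elim x y) (fun o => o.elim lam (or_w T))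
      have h4 : ∑ p, or_w T p * κ x (y p) = e := by
        rw [Fintype.sum_prod_type]
        have h5 : ∀ t : Fin T, ∑ b : Bool, or_w T (t, b) * κ x (y (t, b)) = e / T := by
          intro t
          rw [Fintype.sum_bool, h1, h2, he]
          simp only [or_w, if_true, Bool.false_eq_true, if_false]
          ring
        rw [Finset.sum_congr rfl fun t _ => h5 t, Finset.sum_const, Finset.card_univ,
          Fintype.card_fin, nsmul_eq_mul]
        field_simp
      have h5 : ∑ p, ∑ p', or_w T p * or_w T p' * κ (y p) (y p') = 2 / T * (1 - r) :=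
        or_double T hT 1 r (fun p p' => κ (y p) (y p')) (fun p => h.one _) h3
      simp only [Fintype.sum_option, Option.elim_none, Option.elim_some] at hp
      rw [Finset.sum_add_distrib, h5, h.one] at hp
      have h6 : ∑ p, lam * or_w T p * κ x (y p) = lam * e := by
        rw [← h4, Finset.mul_sum]
        exact Finset.sum_congr rfl fun p _ => by ring
      have h7 : ∑ p, or_w T p * lam * κ (y p) x = lam * e := by
        rw [← h4, Finset.mul_sum]
        refine Finset.sum_congr rfl fun p _ => ?_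
        rw [h.symm (y p) x]
        ring
      rw [h6, h7] at hp
      linarith
    have hd := discrim_le_zero hlam
    unfold discrim at hd
    have h8 : (2 * (1 - r)) / T = (2 / T * (1 - r)) := by ring
    rw [h8]
    linarith
  have he0 : e = 0 := by
    by_contra hne
    have hpos : 0 < e ^ 2 := by positivity
    obtain ⟨n, hn⟩ := exists_nat_gt ((2 * (1 - r)) / e ^ 2)
    have h1 := key (n + 1) (by omega)
    have hn1 : (0 : ℝ) < ((n + 1 : ℕ) : ℝ) := by positivity
    rw [le_div_iff₀ hn1] at h1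
    rw [div_lt_iff₀ hpos] at hn
    push_cast at h1
    nlinarith
  rw [he] at he0
  linarith


/-- a bound for all coordinates -/
private theorem or_bound {d : ℕ} (Z : Finset (Fin d → ℕ)) : ∃ n, orB n Z := by
  refine ⟨(Z.sup fun c => univ.sup fun i => c i) + 1, fun c hc i => ?_⟩
  have h1 : c i ≤ univ.sup fun i => c i := Finset.le_sup (f := fun i => c i) (mem_univ i)
  have h2 : (univ.sup fun i => c i) ≤ Z.sup fun c => univ.sup fun i => c i :=
    Finset.le_sup (f := fun c : Fin d → ℕ => univ.sup fun i => c i) hc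
  omega

private theorem orB_mono {d : ℕ} {n m : ℕ} (h : n ≤ m) {Z : Finset (Fin d → ℕ)} (hZ : orB n Z) :
    orB m Z := fun c hc i => lt_of_lt_of_le (hZ c hc i) h

/-- the induction statement -/
private def orP (d : ℕ) (κ : Finset (Fin d → ℕ) → Finset (Fin d → ℕ) → ℝ) (T : Finset ℕ) : Prop :=
  ∀ (X Y : Finset (Fin d → ℕ)) (e : Fin d → ℕ), (∀ v ∈ T, ∃ i, e i = v) → e ∉ X → e ∉ Y →
    (∀ f : Fin d → ℕ, ¬ (f ∈ X ↔ f ∈ Y) → ¬ ∀ v ∈ T, ∃ j, f j = v) →
    κ (insert e X) (insert e Y) = κ X Y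

/-- the value at two different copies -/
private theorem or_twoval {d : ℕ} {κ : Finset (Fin d → ℕ) → Finset (Fin d → ℕ) → ℝ} {q : ℕ}
    {T : Finset ℕ} (ih : orP d κ T) (hqT : q ∉ T) {n : ℕ} {X Y : Finset (Fin d → ℕ)}
    {e : Fin d → ℕ} (hX : orB n X) (hY : orB n Y) (hen : ∀ i, e i < n)
    (hT : ∀ v ∈ insert q T, ∃ i, e i = v) (he : e ∉ X) (he' : e ∉ Y)
    (hd : ∀ f : Fin d → ℕ, ¬ (f ∈ X ↔ f ∈ Y) → ¬ ∀ v ∈ insert q T, ∃ j, f j = v) (b b' : Bool) :
    κ (orT n q Y (if b then insert e Y else Y) (if b' then insert e X else X))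
      (orT n q Y (if b then insert e X else X) (if b' then insert e Y else Y)) =
    κ (orT n q Y Y X) (orT n q Y X Y) := by
  have hq : ∃ i, e i = q := hT q (mem_insert_self _ _)
  have hTn : ∀ v ∈ T, v < n := by
    intro v hv
    obtain ⟨i, hi⟩ := hT v (mem_insert_of_mem hv)
    rw [← hi]
    exact hen i
  have hTe : ∀ m, ∀ v ∈ T, ∃ i, orC q m e i = v := by
    intro m v hv
    obtain ⟨i, hi⟩ := hT v (mem_insert_of_mem hv)
    refine ⟨i, ?_⟩
    change orv q m (e i) = v
    rw [hi, orv_ne]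
    rintro rfl
    exact hqT hv
  have hd1 : ∀ f : Fin d → ℕ, ¬ (f ∈ Y ↔ f ∈ X) → (∃ i, f i = q) → ¬ ∀ v ∈ T, ∃ j, f j = v := by
    intro f hf hfq hfT
    refine hd f (fun h => hf h.symm) fun v hv => ?_
    rcases mem_insert.1 hv with rfl | hv
    · exact hfq
    · exact hfT v hv
  have hd2 : ∀ f : Fin d → ℕ, ¬ (f ∈ X ↔ f ∈ Y) → (∃ i, f i = q) → ¬ ∀ v ∈ T, ∃ j, f j = v :=
    fun f hf => hd1 f fun h => hf h.symm
  have hins : ∀ (b : Bool) (f : Fin d → ℕ),
      ¬ (f ∈ (if b then insert e X else X) ↔ f ∈ (if b then insert e Y else Y)) →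
      ¬ (f ∈ X ↔ f ∈ Y) := by
    intro b f hf h
    apply hf
    cases b
    · exact h
    · simp only [if_true, mem_insert, h]
  have hBi : ∀ (b : Bool) (Z : Finset (Fin d → ℕ)), orB n Z → orB n (if b then insert e Z else Z) := by
    intro b Z hZ c hc
    cases b
    · exact hZ c hc
    · rcases mem_insert.1 hc with rfl | hc
      · exact hen
      · exact hZ c hc
  -- first copy
  have step1 : κ (orT n q Y (if b then insert e Y else Y) (if b' then insert e X else X))
      (orT n q Y (if b then insert e X else X) (if b' then insert e Y else Y)) =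
      κ (orT n q Y Y (if b' then insert e X else X))
      (orT n q Y X (if b' then insert e Y else Y)) := by
    cases b
    · rfl
    · simp only [if_true]
      rw [or_insL n q _ _ _ e hq, or_insL n q _ _ _ e hq]
      refine ih _ _ _ (hTe n) (or_notL hY hY (hBi b' X hX) hen hq he')
        (or_notL hY hX (hBi b' Y hY) hen hq he) ?_
      refine fun f hf => or_diff hTn _ _ _ _ _ hd1 (fun f hf hfq => ?_) f hf
      exact hd2 f (hins b' f hf) hfq
  rw [step1]
  cases b'
  · rfl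
  · simp only [if_true]
    rw [or_insR n q _ _ _ e hq, or_insR n q _ _ _ e hq]
    refine ih _ _ _ (hTe (n + 1)) (or_notR hY hY hX hen hq he)
      (or_notR hY hX hY hen hq he') ?_
    exact fun f hf => or_diff hTn _ _ _ _ _ hd1 hd2 f hf

private theorem or_step {d : ℕ} {κ : Finset (Fin d → ℕ) → Finset (Fin d → ℕ) → ℝ} (h : KP d κ)
    {q : ℕ} {T : Finset ℕ} (ih : orP d κ T) (hqT : q ∉ T) : orP d κ (insert q T) := by
  intro X Y e hT he he' hd
  obtain ⟨n, hXn, hYn, hen⟩ : ∃ n, orB n X ∧ orB n Y ∧ ∀ i, e i < n := by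
    obtain ⟨n1, h1⟩ := or_bound X
    obtain ⟨n2, h2⟩ := or_bound Y
    obtain ⟨n3, h3⟩ := or_bound {e}
    refine ⟨n1 + n2 + n3, orB_mono (by omega) h1, orB_mono (by omega) h2, fun i => ?_⟩
    have := h3 e (mem_singleton_self e) i
    omega
  have hqe : ∃ i, e i = q := hT q (mem_insert_self _ _)
  have hqn : q < n := by
    obtain ⟨i, hi⟩ := hqe
    rw [← hi]; exact hen i
  set XX : Bool → Finset (Fin d → ℕ) := fun b => if b then insert e X else X with hXX
  set YY : Bool → Finset (Fin d → ℕ) := fun b => if b then insert e Y else Y with hYY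
  have hBi : ∀ (b : Bool) (Z : Finset (Fin d → ℕ)), orB n Z → orB n (if b then insert e Z else Z) := by
    intro b Z hZ c hc
    cases b
    · exact hZ c hc
    · rcases mem_insert.1 hc with rfl | hc
      · exact hen
      · exact hZ c hc
  have hXXn : ∀ b, orB n (XX b) := fun b => hBi b X hXn
  have hYYn : ∀ b, orB n (YY b) := fun b => hBi b Y hYn
  have hno : ∀ (b : Bool) (Z : Finset (Fin d → ℕ)) (c : Fin d → ℕ), (∀ i, c i ≠ q) →
      (c ∈ Z ↔ c ∈ (if b then insert e Z else Z)) := by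
    intro b Z c hc
    cases b
    · rfl
    · simp only [if_true, mem_insert]
      constructor
      · exact Or.inr
      · rintro (rfl | h)
        · obtain ⟨i, hi⟩ := hqe
          exact absurd hi (hc i)
        · exact h
  refine or_eq h (κ X Y) (κ (insert e X) (insert e Y)) (κ (orT n q Y Y X) (orT n q Y X Y)) fun m => ?_
  obtain ⟨f, hf⟩ : ∃ f : Fin m × Bool → ℕ, f = fun s => n + 2 * s.1.1 + (if s.2 then 1 else 0) :=
    ⟨_, rfl⟩
  have hfn : ∀ s, n ≤ f s := by
    intro s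
    rw [hf]
    dsimp only
    omega
  have hfi : ∀ s s', f s = f s' → s = s' := by
    rintro ⟨⟨t, ht⟩, b⟩ ⟨⟨t', ht'⟩, b'⟩ hpp
    rw [hf] at hpp
    dsimp only at hpp
    have h1 : t = t' ∧ b = b' := by
      cases b <;> cases b' <;> simp at hpp ⊢ <;> omega
    obtain ⟨rfl, rfl⟩ := h1
    rfl
  set Vx : Fin m × Bool → Finset (Fin d → ℕ) := fun s => XX s.2 with hVx
  set Vy : Fin m × Bool → Fin m × Bool → Finset (Fin d → ℕ) :=
    fun s s' => if s' = s then YY s.2 else XX s'.2 with hVy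
  have hVxn : ∀ s, orB n (Vx s) := fun s => hXXn _
  have hVyn : ∀ s s', orB n (Vy s s') := by
    intro s s'
    simp only [hVy]
    split_ifs
    · exact hYYn _
    · exact hXXn _
  have hCn : ∀ (S : Finset (Fin m × Bool)), ∀ v ∈ S.image f, n ≤ v := by
    intro S v hv
    obtain ⟨s', _, h2⟩ := mem_image.1 hv
    rw [← h2]
    exact hfn s'
  have hfC : ∀ (S : Finset (Fin m × Bool)) (s' : Fin m × Bool), f s' ∈ S.image f ↔ s' ∈ S := by
    intro S s'
    rw [mem_image]
    constructor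
    · rintro ⟨s'', h1, h2⟩
      rw [← hfi _ _ h2]
      exact h1
    · intro h1
      exact ⟨s', h1, rfl⟩
  -- part (b)
  have hb : ∀ s : Fin m × Bool, κ (orW q f X Vx) (orW q f Y (Vy s)) = κ (XX s.2) (YY s.2) := by
    intro s
    rw [h.rem_set ((univ.erase s).image f) _ _ ?_, or_filter (hCn _) _ _ hXn hVxn,
      or_filter (hCn _) _ _ hYn (hVyn s),
      or_one s X (XX s.2) (hno s.2 X) _ ?_ ?_, or_one s Y (YY s.2) (hno s.2 Y) _ ?_ ?_]
    · refine h.inv_on (orv q (f s)) (range n) ?_ _ _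
        (fun c hc i => by rw [mem_range]; exact hXXn _ c hc i)
        (fun c hc i => by rw [mem_range]; exact hYYn _ c hc i)
      intro x hx y hy hxy
      have h1 := hfn s
      rw [mem_coe, mem_range] at hx hy
      unfold orv at hxy
      split_ifs at hxy <;> omega
    · rw [if_neg (by rw [hfC]; simp)]
      simp [hVy]
    · intro s' hs'
      rw [if_pos ((hfC _ s').2 (mem_erase.2 ⟨hs', mem_univ _⟩))]
    · rw [if_neg (by rw [hfC]; simp)]
    · intro s' hs'
      rw [if_pos ((hfC _ s').2 (mem_erase.2 ⟨hs', mem_univ _⟩))]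
    · rintro c ⟨i, hi⟩
      obtain ⟨s', h1, h2⟩ := mem_image.1 hi
      refine or_agree hfn hfi hXn hYn hVxn (hVyn s) s' ?_ c ⟨i, h2.symm⟩
      simp only [hVx, hVy]
      rw [if_neg (mem_erase.1 h1).1]
  refine ⟨orW q f X Vx, fun s => orW q f Y (Vy s), fun t => ?_, fun t => ?_, ?_⟩
  · exact hb (t, false)
  · exact hb (t, true)
  -- part (c)
  intro s s' hss
  obtain ⟨τ, hτd⟩ : ∃ τ : ℕ → ℕ, τ = fun k => if k < n then k else if k = n then f s else
    if k = n + 1 then f s' else f s + f s' + k := ⟨_, rfl⟩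
  have hτ : ∀ a < n, τ a = a := by intro a ha; rw [hτd]; simp [ha]
  have hτ0 : τ n = f s := by rw [hτd]; simp
  have hτ1 : τ (n + 1) = f s' := by rw [hτd]; simp
  have hfne : f s ≠ f s' := fun h => hss (hfi _ _ h)
  have hτi : Function.Injective τ := by
    intro a b hab
    have h1 := hfn s
    have h2 := hfn s'
    rw [hτd] at hab
    dsimp only at hab
    split_ifs at hab <;> omega
  have hmS : ∀ s'', s'' ∈ (univ.erase s).erase s' ↔ (s'' ≠ s ∧ s'' ≠ s') := by
    intro s''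
    simp only [mem_erase, mem_univ, and_true]
    tauto
  rw [h.rem_set (((univ.erase s).erase s').image f) _ _ ?_, or_filter (hCn _) _ _ hYn (hVyn s),
    or_filter (hCn _) _ _ hYn (hVyn s'),
    or_two (n := n) s s' Y (YY s.2) (XX s'.2) hYn (hYYn _) (hXXn _) _ ?_ ?_ ?_ τ hτ hτ0 hτ1,
    or_two (n := n) s s' Y (XX s.2) (YY s'.2) hYn (hXXn _) (hYYn _) _ ?_ ?_ ?_ τ hτ hτ0 hτ1,
    h.inv τ hτi]
  · exact or_twoval ih hqT hXn hYn hen hT he he' hd s.2 s'.2
  · rw [if_neg (by rw [hfC, hmS]; tauto)]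
    simp only [hVy]
    rw [if_neg hss]
  · rw [if_neg (by rw [hfC, hmS]; tauto)]
    simp only [hVy, if_true]
  · intro s'' h1 h2
    rw [if_pos ((hfC _ s'').2 ((hmS _).2 ⟨h1, h2⟩))]
  · rw [if_neg (by rw [hfC, hmS]; tauto)]
    simp only [hVy, if_true]
  · rw [if_neg (by rw [hfC, hmS]; tauto)]
    simp only [hVy]
    rw [if_neg hss.symm]
  · intro s'' h1 h2
    rw [if_pos ((hfC _ s'').2 ((hmS _).2 ⟨h1, h2⟩))]
  · rintro c ⟨i, hi⟩
    obtain ⟨t, h1, h2⟩ := mem_image.1 hi
    have h3 := (hmS _).1 h1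
    refine or_agree hfn hfi hYn hYn (hVyn s) (hVyn s') t ?_ c ⟨i, h2.symm⟩
    simp only [hVy]
    rw [if_neg h3.1, if_neg h3.2]

private theorem or_all {d : ℕ} {κ : Finset (Fin d → ℕ) → Finset (Fin d → ℕ) → ℝ} (h : KP d κ)
    (T : Finset ℕ) : orP d κ T := by
  induction T using Finset.induction_on with
  | empty =>
    intro X Y e _ _ _ hd
    have hXY : X = Y := by
      ext f
      by_contra hf
      exact hd f hf (fun v hv => absurd hv (notMem_empty v))
    rw [hXY, h.one, h.one]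
  | insert q T hq ih => exact or_step h ih hq

theorem cell_rem {d : ℕ} {κ : Finset (Fin d → ℕ) → Finset (Fin d → ℕ) → ℝ} (h : KP d κ)
    (X Y : Finset (Fin d → ℕ)) (e : Fin d → ℕ) (he : e ∉ X) (he' : e ∉ Y)
    (hd : ∀ f : Fin d → ℕ, ¬ (f ∈ X ↔ f ∈ Y) → ¬ (∀ i, ∃ j, e i = f j)) :
    κ (insert e X) (insert e Y) = κ X Y := by
  refine or_all h (univ.image e) X Y e ?_ he he' ?_
  · intro v hv
    obtain ⟨i, _, hi⟩ := mem_image.1 hv
    exact ⟨i, hi⟩
  · intro f hf hall
    refine hd f hf fun i => ?_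
    obtain ⟨j, hj⟩ := hall (e i) (mem_image_of_mem e (mem_univ i))
    exact ⟨j, hj.symm⟩

private theorem or_many {d : ℕ} {κ : Finset (Fin d → ℕ) → Finset (Fin d → ℕ) → ℝ} (h : KP d κ)
    (X Y : Finset (Fin d → ℕ)) (F : Finset (Fin d → ℕ))
    (hF : ∀ e ∈ F, (e ∈ X ↔ e ∈ Y) ∧
      ∀ f : Fin d → ℕ, ¬ (f ∈ X ↔ f ∈ Y) → ¬ (∀ i, ∃ j, e i = f j)) :
    κ X Y = κ (X \ F) (Y \ F) := by
  induction F using Finset.induction_on with
  | empty => rw [sdiff_empty, sdiff_empty]
  | insert e F heF ih =>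
    rw [ih fun e he => hF e (mem_insert_of_mem he)]
    have hX : ∀ Z : Finset (Fin d → ℕ), Z \ insert e F = (Z \ F).erase e := by
      intro Z
      ext c
      simp only [Finset.mem_sdiff, mem_insert, mem_erase]
      tauto
    obtain ⟨h1, h2⟩ := hF e (mem_insert_self _ _)
    rw [hX, hX]
    by_cases heX : e ∈ X
    · have heY : e ∈ Y := h1.1 heX
      have e1 : e ∈ X \ F := Finset.mem_sdiff.2 ⟨heX, heF⟩
      have e2 : e ∈ Y \ F := Finset.mem_sdiff.2 ⟨heY, heF⟩
      rw [← cell_rem h ((X \ F).erase e) ((Y \ F).erase e) e (notMem_erase _ _)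
        (notMem_erase _ _) ?_, insert_erase e1, insert_erase e2]
      intro f hf
      apply h2 f
      intro hiff
      apply hf
      simp only [mem_erase, Finset.mem_sdiff, hiff]
    · have heY : e ∉ Y := fun hh => heX (h1.2 hh)
      rw [erase_eq_of_notMem (fun hh => heX (Finset.mem_sdiff.1 hh).1),
        erase_eq_of_notMem (fun hh => heY (Finset.mem_sdiff.1 hh).1)]

theorem cell_cong {d : ℕ} {κ : Finset (Fin d → ℕ) → Finset (Fin d → ℕ) → ℝ} (h : KP d κ)
    (X Y X' Y' : Finset (Fin d → ℕ))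
    (hc : ∀ e : Fin d → ℕ, ((e ∈ X ↔ e ∈ X') ∧ (e ∈ Y ↔ e ∈ Y')) ∨
      ((e ∈ X ↔ e ∈ Y) ∧ (e ∈ X' ↔ e ∈ Y') ∧
        ∀ f : Fin d → ℕ, ¬ (f ∈ X ↔ f ∈ Y) → ¬ (∀ i, ∃ j, e i = f j))) :
    κ X Y = κ X' Y' := by
  classical
  have hD : ∀ f : Fin d → ℕ, ¬ (f ∈ X' ↔ f ∈ Y') → ¬ (f ∈ X ↔ f ∈ Y) := by
    intro f hf hiff
    rcases hc f with ⟨h1, h2⟩ | ⟨-, h2, -⟩
    · exact hf (h1.symm.trans (hiff.trans h2))
    · exact hf h2
  set F : Finset (Fin d → ℕ) := (X ∪ X').filter (fun e => (e ∈ X ↔ e ∈ Y) ∧ (e ∈ X' ↔ e ∈ Y') ∧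
    ∀ f : Fin d → ℕ, ¬ (f ∈ X ↔ f ∈ Y) → ¬ (∀ i, ∃ j, e i = f j)) with hF
  rw [or_many h X Y F ?_, or_many h X' Y' F ?_]
  · have e1 : X \ F = X' \ F := by
      ext e
      simp only [Finset.mem_sdiff]
      constructor
      · rintro ⟨h1, h2⟩
        refine ⟨?_, h2⟩
        rcases hc e with ⟨h3, -⟩ | h3
        · exact h3.1 h1
        · exact absurd (mem_filter.2 ⟨mem_union_left _ h1, h3⟩) h2
      · rintro ⟨h1, h2⟩
        refine ⟨?_, h2⟩
        rcases hc e with ⟨h3, -⟩ | h3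
        · exact h3.2 h1
        · exact absurd (mem_filter.2 ⟨mem_union_right _ h1, h3⟩) h2
    have e2 : Y \ F = Y' \ F := by
      ext e
      simp only [Finset.mem_sdiff]
      constructor
      · rintro ⟨h1, h2⟩
        refine ⟨?_, h2⟩
        rcases hc e with ⟨-, h3⟩ | h3
        · exact h3.1 h1
        · exact absurd (mem_filter.2 ⟨mem_union_left _ (h3.1.2 h1), h3⟩) h2
      · rintro ⟨h1, h2⟩
        refine ⟨?_, h2⟩
        rcases hc e with ⟨-, h3⟩ | h3
        · exact h3.2 h1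
        · exact absurd (mem_filter.2 ⟨mem_union_right _ (h3.2.1.2 h1), h3⟩) h2
    rw [e1, e2]
  · intro e he
    obtain ⟨-, -, h2, h3⟩ := mem_filter.1 he
    exact ⟨h2, fun f hf => h3 f (hD f hf)⟩
  · intro e he
    obtain ⟨-, h1, -, h3⟩ := mem_filter.1 he
    exact ⟨h1, h3⟩

end Pool.Agent.Lib.MP_90b327_co.OI
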