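import Mathlib
import Pool.Agent.Lib.MP_90b327_co.OI.ODefs
import Pool.Agent.Lib.MP_90b327_co.OI.OKp
import Pool.Agent.Lib.MP_90b327_co.OI.ORem

/-!
MODULE OPat (120 minutes). Patterns of blocks. The vertex number j of the block at position p (of the list of names) is Nat.pair p j.

`mem_Pt`: from the definition (getD p 0 = 0 for p ≥ length, so the first condition forces the vertices to be in vts s). `pt_map`: `List.getElem?_map`; (∃ t', (l[p i]?).map h = some (t' i) ∧ X t') iff
(∃ t, l[p i]? = some (t i) ∧ X (h ∘ t)). `pt_ext`: first `KP.rem_set` with C = the vertices Nat.pair A.length j, j < m (a cell through such a vertex has the name b in its tuple, so X, Y agree);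
then `KP.inv_on` with σ (pair p j) = pair (p-1) j for p > A.length, = pair p j otherwise (injective on the remaining vertices): equality of finite sets by ext and mem_Pt, the lists by
`List.getElem?_append` etc. `pt_abs`: `KP.inv_on` with σ (pair p j) = pair p j for p < A.length; pair A.length j ↦ pair (A.length + B1.length) (m' + j) ; pair p j ↦ pair (p-1) j for
p > A.length. (the names at A.length and at A.length + 1 + B1.length are both b.) `pt_rem`: `cell_cong`; a cell e with vertices in the blocks has a unique tuple t (t i = name of the block of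
e i), e ∈ Pt l s X ↔ X t; if f is a difference cell with tuple t' and every e i is some f j, then every t i is some t' j. Cells with vertices outside the blocks are in none of the patterns.
-/

set_option autoImplicit false

namespace Pool.Agent.Lib.MP_90b327_co.OI

open Finset Filter Topology
open Pool.Agent.Lib.MP_90b327_co.WW (mv)

/-- the cell `c` has its vertices in the blocks and its tuple of names satisfies `X` -/
def InP {d : ℕ} {ν : Type} (l : List ν) (s : List ℕ) (X : Pr d ν) (c : Fin d → ℕ) : Prop :=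
  (∀ i, (Nat.unpair (c i)).2 < s.getD (Nat.unpair (c i)).1 0) ∧
    ∃ t : Fin d → ν, (∀ i, l[(Nat.unpair (c i)).1]? = some (t i)) ∧ X t

/-- all vertices of the blocks -/
def vts (s : List ℕ) : Finset ℕ :=
  (range s.length).biUnion (fun p => (range (s.getD p 0)).image (Nat.pair p))

open Classical in
/-- the pattern of the predicate `X`, blocks of sizes `s` -/
noncomputable def Pt {d : ℕ} {ν : Type} (l : List ν) (s : List ℕ) (X : Pr d ν) : Finset (Fin d → ℕ) :=
  (Fintype.piFinset (fun _ : Fin d => vts s)).filter (InP l s X)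

private theorem vx_mem {s : List ℕ} {v : ℕ} (h : (Nat.unpair v).2 < s.getD (Nat.unpair v).1 0) : v ∈ vts s := by
  unfold vts
  rw [mem_biUnion]
  refine ⟨(Nat.unpair v).1, ?_, ?_⟩
  · rw [mem_range]
    by_contra hp
    rw [List.getD_eq_default _ _ (by omega)] at h
    omega
  · rw [mem_image]
    exact ⟨(Nat.unpair v).2, mem_range.2 h, Nat.pair_unpair v⟩

private theorem vx_of_mem {s : List ℕ} {v : ℕ} (h : v ∈ vts s) :
    (Nat.unpair v).2 < s.getD (Nat.unpair v).1 0 := by
  unfold vts at h
  rw [mem_biUnion] at h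
  obtain ⟨p, -, h2⟩ := h
  rw [mem_image] at h2
  obtain ⟨j, hj, rfl⟩ := h2
  rw [Nat.unpair_pair]
  exact mem_range.1 hj

theorem mem_Pt {d : ℕ} {ν : Type} (l : List ν) (s : List ℕ) (X : Pr d ν) (c : Fin d → ℕ) :
    c ∈ Pt l s X ↔ InP l s X c := by
  classical
  unfold Pt
  rw [mem_filter, Fintype.mem_piFinset]
  constructor
  · exact fun h => h.2
  · exact fun h => ⟨fun i => vx_mem (h.1 i), h⟩

theorem pt_map {d : ℕ} {ν ν' : Type} (h : ν → ν') (l : List ν) (s : List ℕ) (X : Pr d ν') :
    Pt (l.map h) s X = Pt l s (fun t => X (fun i => h (t i))) := by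
  ext c
  rw [mem_Pt, mem_Pt]
  unfold InP
  refine and_congr_right fun _ => ?_
  constructor
  · rintro ⟨t', ht, hX⟩
    have h1 : ∀ i, ∃ a, l[(Nat.unpair (c i)).1]? = some a ∧ h a = t' i := by
      intro i
      have h2 := ht i
      rw [List.getElem?_map, Option.map_eq_some_iff] at h2
      exact h2
    choose t ht1 ht2 using h1
    refine ⟨t, ht1, ?_⟩
    have h3 : (fun i => h (t i)) = t' := funext ht2
    change X (fun i => h (t i))
    rw [h3]
    exact hX
  · rintro ⟨t, ht, hX⟩
    refine ⟨fun i => h (t i), fun i => ?_, hX⟩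
    rw [List.getElem?_map, ht i, Option.map_some]

/-- transport of patterns -/
private theorem mv_Pt {d : ℕ} {ν : Type} {l l' : List ν} {s s' : List ℕ} (X : Pr d ν) {σ : ℕ → ℕ}
    (h1 : ∀ v, (Nat.unpair v).2 < s.getD (Nat.unpair v).1 0 →
      (Nat.unpair (σ v)).2 < s'.getD (Nat.unpair (σ v)).1 0 ∧
        l'[(Nat.unpair (σ v)).1]? = l[(Nat.unpair v).1]?)
    (h2 : ∀ v', (Nat.unpair v').2 < s'.getD (Nat.unpair v').1 0 →
      ∃ v, (Nat.unpair v).2 < s.getD (Nat.unpair v).1 0 ∧ σ v = v') :
    mv σ (Pt l s X) = Pt l' s' X := by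
  classical
  ext c'
  rw [mem_Pt]
  unfold mv
  rw [mem_image]
  constructor
  · rintro ⟨c, hc, rfl⟩
    rw [mem_Pt] at hc
    obtain ⟨hc1, t, ht, hX⟩ := hc
    refine ⟨fun i => (h1 _ (hc1 i)).1, t, fun i => ?_, hX⟩
    have := (h1 _ (hc1 i)).2
    change l'[(Nat.unpair (σ (c i))).1]? = some (t i)
    rw [this]
    exact ht i
  · rintro ⟨hc1, t, ht, hX⟩
    choose c hc2 hc3 using fun i => h2 _ (hc1 i)
    refine ⟨c, ?_, funext hc3⟩
    rw [mem_Pt]
    refine ⟨hc2, t, fun i => ?_, hX⟩
    have h3 := (h1 _ (hc2 i)).2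
    rw [← h3, hc3]
    exact ht i

private theorem gd_mid (s1 : List ℕ) (m : ℕ) (s2 : List ℕ) (p : ℕ) : (s1 ++ m :: s2).getD p 0 =
    if p < s1.length then s1.getD p 0 else if p = s1.length then m else s2.getD (p - s1.length - 1) 0 := by
  rw [List.getD_eq_getElem?_getD, List.getElem?_append]
  split_ifs with h1 h2
  · rw [List.getD_eq_getElem?_getD]
  · subst h2
    simp
  · rw [List.getElem?_cons, if_neg (by omega), List.getD_eq_getElem?_getD]

private theorem gd_app (s1 s2 : List ℕ) (p : ℕ) : (s1 ++ s2).getD p 0 =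
    if p < s1.length then s1.getD p 0 else s2.getD (p - s1.length) 0 := by
  rw [List.getD_eq_getElem?_getD, List.getElem?_append]
  split_ifs with h1
  · rw [List.getD_eq_getElem?_getD]
  · rw [List.getD_eq_getElem?_getD]

private theorem ge_mid {ν : Type} (A : List ν) (b : ν) (B : List ν) (p : ℕ) : (A ++ b :: B)[p]? =
    if p < A.length then A[p]? else if p = A.length then some b else B[p - A.length - 1]? := by
  rw [List.getElem?_append]
  split_ifs with h1 h2
  · rfl
  · subst h2
    simp
  · rw [List.getElem?_cons, if_neg (by omega)]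

/-- insertion of a block position -/
private def sg1 (n v : ℕ) : ℕ :=
  Nat.pair (if (Nat.unpair v).1 < n then (Nat.unpair v).1 else (Nat.unpair v).1 + 1) (Nat.unpair v).2

private theorem sg1_inj (n : ℕ) : Function.Injective (sg1 n) := by
  intro v v' h
  unfold sg1 at h
  rw [Nat.pair_eq_pair] at h
  obtain ⟨h1, h2⟩ := h
  have h3 : (Nat.unpair v).1 = (Nat.unpair v').1 := by
    split_ifs at h1 <;> omega
  rw [← Nat.pair_unpair v, ← Nat.pair_unpair v', h2, h3]

theorem pt_ext {d : ℕ} {κ : Finset (Fin d → ℕ) → Finset (Fin d → ℕ) → ℝ} (h : KP d κ) {ν : Type}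
    (A : List ν) (b : ν) (B : List ν) (X Y : Pr d ν)
    (hb : ∀ t : Fin d → ν, (∃ i, t i = b) → (X t ↔ Y t)) (s1 : List ℕ) (m : ℕ) (s2 : List ℕ)
    (h1 : s1.length = A.length) (h2 : s2.length = B.length) :
    κ (Pt (A ++ b :: B) (s1 ++ m :: s2) X) (Pt (A ++ b :: B) (s1 ++ m :: s2) Y) =
      κ (Pt (A ++ B) (s1 ++ s2) X) (Pt (A ++ B) (s1 ++ s2) Y) := by
  classical
  obtain ⟨C, hC⟩ : ∃ C : Finset ℕ, C = (range m).image (Nat.pair A.length) := ⟨_, rfl⟩
  have hCm : ∀ v, v ∈ C ↔ (Nat.unpair v).1 = A.length ∧ (Nat.unpair v).2 < m := by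
    intro v
    rw [hC, mem_image]
    constructor
    · rintro ⟨j, hj, rfl⟩
      rw [Nat.unpair_pair]
      exact ⟨rfl, mem_range.1 hj⟩
    · rintro ⟨h3, h4⟩
      exact ⟨(Nat.unpair v).2, mem_range.2 h4, by rw [← h3, Nat.pair_unpair]⟩
  rw [h.rem_set C (Pt (A ++ b :: B) (s1 ++ m :: s2) X) (Pt (A ++ b :: B) (s1 ++ m :: s2) Y) (by
    rintro c ⟨i, hi⟩
    rw [mem_Pt, mem_Pt]
    unfold InP
    refine and_congr_right fun _ => ?_
    have h3 : ∀ t : Fin d → ν, (∀ i, (A ++ b :: B)[(Nat.unpair (c i)).1]? = some (t i)) → (X t ↔ Y t) := by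
      intro t ht
      apply hb t
      refine ⟨i, ?_⟩
      have h4 := ht i
      rw [((hCm _).1 hi).1, ge_mid, if_neg (lt_irrefl _), if_pos rfl] at h4
      exact (Option.some_injective _ h4).symm
    constructor
    · rintro ⟨t, ht, hX⟩
      exact ⟨t, ht, (h3 t ht).1 hX⟩
    · rintro ⟨t, ht, hX⟩
      exact ⟨t, ht, (h3 t ht).2 hX⟩)]
  have hvx : ∀ v, (Nat.unpair v).2 < (s1 ++ 0 :: s2).getD (Nat.unpair v).1 0 ↔
      (Nat.unpair v).2 < (s1 ++ m :: s2).getD (Nat.unpair v).1 0 ∧ v ∉ C := by
    intro v
    rw [gd_mid, gd_mid, hCm, h1]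
    by_cases h3 : (Nat.unpair v).1 < A.length
    · rw [if_pos h3, if_pos h3]
      constructor
      · intro h4
        exact ⟨h4, fun h5 => by omega⟩
      · exact fun h4 => h4.1
    · rw [if_neg h3, if_neg h3]
      by_cases h4 : (Nat.unpair v).1 = A.length
      · rw [if_pos h4, if_pos h4]
        constructor
        · intro h5
          omega
        · rintro ⟨h5, h6⟩
          exact absurd ⟨h4, h5⟩ h6
      · rw [if_neg h4, if_neg h4]
        constructor
        · intro h5
          exact ⟨h5, fun h6 => h4 h6.1⟩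
        · exact fun h5 => h5.1
  have hfil : ∀ Z : Pr d ν, (Pt (A ++ b :: B) (s1 ++ m :: s2) Z).filter (fun c => ∀ i, c i ∉ C) =
      Pt (A ++ b :: B) (s1 ++ 0 :: s2) Z := by
    intro Z
    ext c
    rw [mem_filter, mem_Pt, mem_Pt]
    unfold InP
    constructor
    · rintro ⟨⟨h3, h4⟩, h5⟩
      exact ⟨fun i => (hvx _).2 ⟨h3 i, h5 i⟩, h4⟩
    · rintro ⟨h3, h4⟩
      exact ⟨⟨fun i => ((hvx _).1 (h3 i)).1, h4⟩, fun i => ((hvx _).1 (h3 i)).2⟩
  have hmv : ∀ Z : Pr d ν, mv (sg1 A.length) (Pt (A ++ B) (s1 ++ s2) Z) =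
      Pt (A ++ b :: B) (s1 ++ 0 :: s2) Z := by
    intro Z
    apply mv_Pt
    · intro v hv
      unfold sg1
      rw [Nat.unpair_pair]
      rw [gd_app, h1] at hv
      rw [gd_mid, ge_mid, List.getElem?_append, h1]
      dsimp only
      by_cases h3 : (Nat.unpair v).1 < A.length
      · rw [if_pos h3] at hv ⊢
        rw [if_pos h3, if_pos h3, if_pos h3]
        exact ⟨hv, rfl⟩
      · rw [if_neg h3] at hv ⊢
        rw [if_neg (by omega), if_neg (by omega), if_neg (by omega), if_neg (by omega), if_neg h3]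
        have h4 : (Nat.unpair v).1 + 1 - A.length - 1 = (Nat.unpair v).1 - A.length := by omega
        rw [h4]
        exact ⟨hv, rfl⟩
    · intro v' hv'
      rw [gd_mid, h1] at hv'
      by_cases h3 : (Nat.unpair v').1 < A.length
      · rw [if_pos h3] at hv'
        refine ⟨v', ?_, ?_⟩
        · rw [gd_app, h1, if_pos h3]
          exact hv'
        · unfold sg1
          rw [if_pos h3, Nat.pair_unpair]
      · rw [if_neg h3] at hv'
        by_cases h4 : (Nat.unpair v').1 = A.length
        · rw [if_pos h4] at hv'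
          omega
        · rw [if_neg h4] at hv'
          refine ⟨Nat.pair ((Nat.unpair v').1 - 1) (Nat.unpair v').2, ?_, ?_⟩
          · rw [Nat.unpair_pair, gd_app, h1]
            dsimp only
            rw [if_neg (by omega)]
            have h5 : (Nat.unpair v').1 - 1 - A.length = (Nat.unpair v').1 - A.length - 1 := by omega
            rw [h5]
            exact hv'
          · unfold sg1
            rw [Nat.unpair_pair]
            dsimp only
            rw [if_neg (by omega)]
            have h5 : (Nat.unpair v').1 - 1 + 1 = (Nat.unpair v').1 := by omega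
            rw [h5, Nat.pair_unpair]
  rw [hfil, hfil, ← hmv, ← hmv]
  exact h.inv _ (sg1_inj _) _ _

/-- absorption of the block at position `n` in the block at the later position `q + 1` -/
private def sg2 (n q m' v : ℕ) : ℕ :=
  if (Nat.unpair v).1 < n then v else
    if (Nat.unpair v).1 = n then Nat.pair q (m' + (Nat.unpair v).2) else
      Nat.pair ((Nat.unpair v).1 - 1) (Nat.unpair v).2

theorem pt_abs {d : ℕ} {κ : Finset (Fin d → ℕ) → Finset (Fin d → ℕ) → ℝ} (h : KP d κ) {ν : Type}
    (A : List ν) (b : ν) (B1 B2 : List ν) (X Y : Pr d ν) (s1 : List ℕ) (m : ℕ) (s2 : List ℕ)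
    (m' : ℕ) (s3 : List ℕ) (h1 : s1.length = A.length) (h2 : s2.length = B1.length)
    (h3 : s3.length = B2.length) :
    κ (Pt (A ++ b :: (B1 ++ b :: B2)) (s1 ++ m :: (s2 ++ m' :: s3)) X)
      (Pt (A ++ b :: (B1 ++ b :: B2)) (s1 ++ m :: (s2 ++ m' :: s3)) Y) =
      κ (Pt (A ++ (B1 ++ b :: B2)) (s1 ++ (s2 ++ (m' + m) :: s3)) X)
        (Pt (A ++ (B1 ++ b :: B2)) (s1 ++ (s2 ++ (m' + m) :: s3)) Y) := by
  classical
  have hold : ∀ p, (s1 ++ m :: (s2 ++ m' :: s3)).getD p 0 =
      if p < A.length then s1.getD p 0 else if p = A.length then m else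
        if p - A.length - 1 < B1.length then s2.getD (p - A.length - 1) 0 else
          if p - A.length - 1 = B1.length then m' else s3.getD (p - A.length - 1 - B1.length - 1) 0 := by
    intro p
    rw [gd_mid, gd_mid, h1, h2]
  have hnew : ∀ p, (s1 ++ (s2 ++ (m' + m) :: s3)).getD p 0 =
      if p < A.length then s1.getD p 0 else
        if p - A.length < B1.length then s2.getD (p - A.length) 0 else
          if p - A.length = B1.length then m' + m else s3.getD (p - A.length - B1.length - 1) 0 := by
    intro p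
    rw [gd_app, gd_mid, h1, h2]
  have nold : ∀ p, (A ++ b :: (B1 ++ b :: B2))[p]? =
      if p < A.length then A[p]? else if p = A.length then some b else
        if p - A.length - 1 < B1.length then B1[p - A.length - 1]? else
          if p - A.length - 1 = B1.length then some b else B2[p - A.length - 1 - B1.length - 1]? := by
    intro p
    rw [ge_mid, ge_mid]
  have nnew : ∀ p, (A ++ (B1 ++ b :: B2))[p]? =
      if p < A.length then A[p]? else
        if p - A.length < B1.length then B1[p - A.length]? else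
          if p - A.length = B1.length then some b else B2[p - A.length - B1.length - 1]? := by
    intro p
    rw [List.getElem?_append, ge_mid]
  obtain ⟨σ, hσ⟩ : ∃ σ : ℕ → ℕ, σ = sg2 A.length (A.length + B1.length) m' := ⟨_, rfl⟩
  have e1 : ∀ v, (Nat.unpair v).1 < A.length → σ v = v := by
    intro v hv
    rw [hσ]
    unfold sg2
    rw [if_pos hv]
  have e2 : ∀ v, (Nat.unpair v).1 = A.length →
      σ v = Nat.pair (A.length + B1.length) (m' + (Nat.unpair v).2) := by
    intro v hv
    rw [hσ]
    unfold sg2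
    rw [if_neg (by omega), if_pos hv]
  have e3 : ∀ v, A.length < (Nat.unpair v).1 →
      σ v = Nat.pair ((Nat.unpair v).1 - 1) (Nat.unpair v).2 := by
    intro v hv
    rw [hσ]
    unfold sg2
    rw [if_neg (by omega), if_neg (by omega)]
  have hmv : ∀ Z : Pr d ν, mv σ (Pt (A ++ b :: (B1 ++ b :: B2)) (s1 ++ m :: (s2 ++ m' :: s3)) Z) =
      Pt (A ++ (B1 ++ b :: B2)) (s1 ++ (s2 ++ (m' + m) :: s3)) Z := by
    intro Z
    apply mv_Pt
    · intro v hv
      rw [hold] at hv
      rw [nold]
      rcases lt_trichotomy (Nat.unpair v).1 A.length with h4 | h4 | h4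
      · rw [e1 v h4, hnew, nnew]
        rw [if_pos h4] at hv ⊢
        rw [if_pos h4, if_pos h4]
        exact ⟨hv, rfl⟩
      · rw [e2 v h4, hnew, nnew, Nat.unpair_pair]
        dsimp only
        rw [if_neg (by omega), if_pos h4] at hv
        rw [if_neg (by omega), if_neg (by omega), if_pos (by omega), if_neg (by omega),
          if_neg (by omega), if_pos (by omega), if_neg (by omega), if_pos h4]
        exact ⟨by omega, rfl⟩
      · rw [e3 v h4, hnew, nnew, Nat.unpair_pair]
        dsimp only
        rw [if_neg (by omega), if_neg (by omega)] at hv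
        have h5 : (Nat.unpair v).1 - 1 - A.length = (Nat.unpair v).1 - A.length - 1 := by omega
        rw [if_neg (by omega), if_neg (by omega : ¬ (Nat.unpair v).1 - 1 < A.length), h5,
          if_neg (by omega : ¬ (Nat.unpair v).1 < A.length), if_neg (by omega : ¬ (Nat.unpair v).1 = A.length)]
        refine ⟨?_, rfl⟩
        by_cases h6 : (Nat.unpair v).1 - A.length - 1 < B1.length
        · rw [if_pos h6] at hv ⊢
          exact hv
        · rw [if_neg h6] at hv ⊢
          by_cases h7 : (Nat.unpair v).1 - A.length - 1 = B1.length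
          · rw [if_pos h7] at hv ⊢
            omega
          · rw [if_neg h7] at hv ⊢
            exact hv
    · intro v' hv'
      rw [hnew] at hv'
      by_cases h4 : (Nat.unpair v').1 < A.length
      · rw [if_pos h4] at hv'
        refine ⟨v', ?_, e1 v' h4⟩
        rw [hold, if_pos h4]
        exact hv'
      · rw [if_neg h4] at hv'
        by_cases h5 : (Nat.unpair v').1 - A.length = B1.length ∧ m' ≤ (Nat.unpair v').2
        · obtain ⟨h6, h7⟩ := h5
          rw [if_neg (by omega), if_pos h6] at hv'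
          refine ⟨Nat.pair A.length ((Nat.unpair v').2 - m'), ?_, ?_⟩
          · rw [Nat.unpair_pair, hold]
            dsimp only
            rw [if_neg (lt_irrefl _), if_pos rfl]
            omega
          · rw [e2 _ (by rw [Nat.unpair_pair]), Nat.unpair_pair]
            dsimp only
            have h8 : m' + ((Nat.unpair v').2 - m') = (Nat.unpair v').2 := by omega
            have h9 : A.length + B1.length = (Nat.unpair v').1 := by omega
            rw [h8, h9, Nat.pair_unpair]
        · refine ⟨Nat.pair ((Nat.unpair v').1 + 1) (Nat.unpair v').2, ?_, ?_⟩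
          · rw [Nat.unpair_pair, hold]
            dsimp only
            have h6 : (Nat.unpair v').1 + 1 - A.length - 1 = (Nat.unpair v').1 - A.length := by omega
            rw [if_neg (by omega), if_neg (by omega), h6]
            by_cases h7 : (Nat.unpair v').1 - A.length < B1.length
            · rw [if_pos h7] at hv' ⊢
              exact hv'
            · rw [if_neg h7] at hv' ⊢
              by_cases h8 : (Nat.unpair v').1 - A.length = B1.length
              · rw [if_pos h8] at hv' ⊢
                by_contra h9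
                exact h5 ⟨h8, by omega⟩
              · rw [if_neg h8] at hv' ⊢
                exact hv'
          · rw [e3 _ (by rw [Nat.unpair_pair]; dsimp only; omega), Nat.unpair_pair]
            dsimp only
            rw [Nat.add_sub_cancel, Nat.pair_unpair]
  rw [← hmv, ← hmv]
  symm
  apply h.inv_on σ (vts (s1 ++ m :: (s2 ++ m' :: s3)))
  · intro v hv w hw hvw
    have hv1 := vx_of_mem (mem_coe.1 hv)
    have hw1 := vx_of_mem (mem_coe.1 hw)
    rw [hold] at hv1 hw1
    rcases lt_trichotomy (Nat.unpair v).1 A.length with h4 | h4 | h4 <;>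
      rcases lt_trichotomy (Nat.unpair w).1 A.length with h5 | h5 | h5
    · rw [e1 v h4, e1 w h5] at hvw
      exact hvw
    · rw [e1 v h4, e2 w h5] at hvw
      exfalso
      rw [hvw, Nat.unpair_pair] at h4
      dsimp only at h4
      omega
    · rw [e1 v h4, e3 w h5] at hvw
      exfalso
      rw [hvw, Nat.unpair_pair] at h4
      dsimp only at h4
      omega
    · rw [e2 v h4, e1 w h5] at hvw
      exfalso
      rw [← hvw, Nat.unpair_pair] at h5
      dsimp only at h5
      omega
    · rw [e2 v h4, e2 w h5, Nat.pair_eq_pair] at hvw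
      have h6 : (Nat.unpair v).2 = (Nat.unpair w).2 := by omega
      rw [← Nat.pair_unpair v, ← Nat.pair_unpair w, h4, h5, h6]
    · rw [e2 v h4, e3 w h5, Nat.pair_eq_pair] at hvw
      exfalso
      obtain ⟨h6, h7⟩ := hvw
      rw [if_neg (by omega), if_neg (by omega), if_neg (by omega), if_pos (by omega)] at hw1
      omega
    · rw [e3 v h4, e1 w h5] at hvw
      exfalso
      rw [← hvw, Nat.unpair_pair] at h5
      dsimp only at h5
      omega
    · rw [e3 v h4, e2 w h5, Nat.pair_eq_pair] at hvw
      exfalso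
      obtain ⟨h6, h7⟩ := hvw
      rw [if_neg (by omega), if_neg (by omega), if_neg (by omega), if_pos (by omega)] at hv1
      omega
    · rw [e3 v h4, e3 w h5, Nat.pair_eq_pair] at hvw
      have h6 : (Nat.unpair v).1 = (Nat.unpair w).1 := by omega
      rw [← Nat.pair_unpair v, ← Nat.pair_unpair w, h6, hvw.2]
  · intro c hc i
    rw [mem_Pt] at hc
    exact vx_mem (hc.1 i)
  · intro c hc i
    rw [mem_Pt] at hc
    exact vx_mem (hc.1 i)

theorem pt_rem {d : ℕ} {κ : Finset (Fin d → ℕ) → Finset (Fin d → ℕ) → ℝ} (h : KP d κ) {ν : Type}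
    (l : List ν) (s : List ℕ) (X Y X' Y' : Pr d ν)
    (hc : ∀ t : Fin d → ν, (∀ i, t i ∈ l) → ((X t ↔ X' t) ∧ (Y t ↔ Y' t)) ∨
      ((X t ↔ Y t) ∧ (X' t ↔ Y' t) ∧ ∀ t' : Fin d → ν, (∀ i, t' i ∈ l) → ¬ (X t' ↔ Y t') →
        ¬ (∀ i, ∃ j, t i = t' j))) :
    κ (Pt l s X) (Pt l s Y) = κ (Pt l s X') (Pt l s Y') := by
  classical
  apply cell_cong h
  intro e
  by_cases he : (∀ i, (Nat.unpair (e i)).2 < s.getD (Nat.unpair (e i)).1 0) ∧
      ∃ t : Fin d → ν, ∀ i, l[(Nat.unpair (e i)).1]? = some (t i)
  · obtain ⟨h1, t, ht⟩ := he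
    have hmem : ∀ Z : Pr d ν, e ∈ Pt l s Z ↔ Z t := by
      intro Z
      rw [mem_Pt]
      constructor
      · rintro ⟨-, t', ht', hZ⟩
        have h2 : t' = t := by
          funext i
          have h3 := ht' i
          rw [ht i] at h3
          exact (Option.some_injective _ h3).symm
        rwa [h2] at hZ
      · exact fun hZ => ⟨h1, t, ht, hZ⟩
    rw [hmem, hmem, hmem, hmem]
    rcases hc t (fun i => List.mem_of_getElem? (ht i)) with h2 | ⟨h2, h3, h4⟩
    · exact Or.inl h2
    · refine Or.inr ⟨h2, h3, fun f hf hef => ?_⟩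
      rw [mem_Pt, mem_Pt] at hf
      have hfv : ∃ t' : Fin d → ν, (∀ i, l[(Nat.unpair (f i)).1]? = some (t' i)) ∧ ¬ (X t' ↔ Y t') := by
        have hun : ∀ (u u' : Fin d → ν), (∀ i, l[(Nat.unpair (f i)).1]? = some (u i)) →
            (∀ i, l[(Nat.unpair (f i)).1]? = some (u' i)) → u = u' := by
          intro u u' hu hu'
          funext i
          have h5 := hu i
          rw [hu' i] at h5
          exact (Option.some_injective _ h5).symm
        by_cases h5 : InP l s X f
        · obtain ⟨h6, t', ht', hX⟩ := h5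
          refine ⟨t', ht', fun h7 => hf ⟨fun _ => ⟨h6, t', ht', h7.1 hX⟩, fun _ => ⟨h6, t', ht', hX⟩⟩⟩
        · have h6 : InP l s Y f := by
            by_contra h7
            exact hf ⟨fun h8 => absurd h8 h5, fun h8 => absurd h8 h7⟩
          obtain ⟨h6, t', ht', hY⟩ := h6
          exact ⟨t', ht', fun h7 => h5 ⟨h6, t', ht', h7.2 hY⟩⟩
      obtain ⟨t', ht', hd⟩ := hfv
      refine h4 t' (fun i => List.mem_of_getElem? (ht' i)) hd fun i => ?_
      obtain ⟨j, hj⟩ := hef i
      refine ⟨j, ?_⟩
      have h5 := ht i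
      rw [hj, ht' j] at h5
      exact (Option.some_injective _ h5).symm
  · have hmem : ∀ Z : Pr d ν, ¬ e ∈ Pt l s Z := by
      intro Z hZ
      rw [mem_Pt] at hZ
      obtain ⟨h1, t, ht, -⟩ := hZ
      exact he ⟨h1, t, ht⟩
    exact Or.inl ⟨⟨fun h1 => absurd h1 (hmem _), fun h1 => absurd h1 (hmem _)⟩,
      ⟨fun h1 => absurd h1 (hmem _), fun h1 => absurd h1 (hmem _)⟩⟩

end Pool.Agent.Lib.MP_90b327_co.OI
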