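import Mathlib
import Pool.Agent.Lib.MP_90b327_co.OI.ODefs
import Pool.Agent.Lib.MP_90b327_co.OI.OIt
import Pool.Agent.Lib.MP_90b327_co.OI.OPat

/-!
MODULE OLK (40 minutes). The functionals of a kernel and a mean have the properties LK.

symm, one (`it_const`), psd (`it_sum` twice, `it_nonneg` with the bound ∑ ∑ |a i| |a j|, `KP.abs_le`), map (`pt_map`, length_map), ext (`it_drop` with a = A.length, b = B.length and
`pt_ext`), abs (B = B1 ++ b :: B2 by `List.append_of_mem`; `it_merge` and `pt_abs`), rem (`pt_rem`).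
-/

set_option autoImplicit false

namespace Pool.Agent.Lib.MP_90b327_co.OI

open Finset Filter Topology
open Pool.Agent.Lib.MP_90b327_co.WW (mv)

noncomputable def Kf {d : ℕ} (κ : Finset (Fin d → ℕ) → Finset (Fin d → ℕ) → ℝ)
    (Λ : (ℕ → ℝ) →ₗ[ℝ] ℝ) : Fam d :=
  fun _ l X Y => It Λ l.length (fun s => κ (Pt l s X) (Pt l s Y))

theorem lk_of {d : ℕ} {κ : Finset (Fin d → ℕ) → Finset (Fin d → ℕ) → ℝ} (h : KP d κ) {T : Set ℕ}
    {Λ : (ℕ → ℝ) →ₗ[ℝ] ℝ} (hΛ : Mean T Λ) : LK d (Kf κ Λ) := by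
  constructor
  · intro ν l X Y
    exact it_congr Λ _ _ _ fun s _ => h.symm _ _
  · intro ν l X
    have e : Kf κ Λ ν l X X = It Λ l.length (fun _ => 1) := it_congr Λ _ _ _ fun s _ => h.one _
    rw [e]
    exact it_const hΛ _ _
  · intro ν l ι _ X a
    have e : ∑ i, ∑ j, a i * a j * Kf κ Λ ν l (X i) (X j) =
        It Λ l.length (fun s => ∑ p : ι × ι, (a p.1 * a p.2) * κ (Pt l s (X p.1)) (Pt l s (X p.2))) := by
      rw [it_sum Λ (fun p : ι × ι => a p.1 * a p.2) (fun p s => κ (Pt l s (X p.1)) (Pt l s (X p.2))),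
        Fintype.sum_prod_type]
      rfl
    rw [e]
    refine it_nonneg hΛ _ _ (∑ p : ι × ι, |a p.1 * a p.2|) (fun s => ?_) fun s => ?_
    · rw [Fintype.sum_prod_type]
      exact h.psd ι (fun i => Pt l s (X i)) a
    · refine Finset.sum_le_sum fun p _ => ?_
      refine (le_abs_self _).trans ?_
      rw [abs_mul]
      exact mul_le_of_le_one_right (abs_nonneg _) (h.abs_le _ _)
  · intro ν ν' f l X Y
    show It Λ (l.map f).length _ = It Λ l.length _
    rw [List.length_map]
    refine it_congr Λ _ _ _ fun s _ => ?_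
    rw [pt_map, pt_map]
  · intro ν A b B X Y hb
    show It Λ (A ++ b :: B).length _ = It Λ (A ++ B).length _
    have e1 : (A ++ b :: B).length = A.length + (B.length + 1) := by simp
    have e2 : (A ++ B).length = A.length + B.length := List.length_append
    rw [e1, e2]
    exact it_drop hΛ _ _ _ _ fun s m s' hs hs' => pt_ext h A b B X Y hb s m s' hs hs'
  · intro ν A b B X Y hb
    obtain ⟨B1, B2, rfl⟩ := List.append_of_mem hb
    show It Λ (A ++ b :: (B1 ++ b :: B2)).length _ = It Λ (A ++ (B1 ++ b :: B2)).length _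
    have e1 : (A ++ b :: (B1 ++ b :: B2)).length = A.length + ((B1.length + (B2.length + 1)) + 1) := by
      simp
    have e2 : (A ++ (B1 ++ b :: B2)).length = A.length + (B1.length + (B2.length + 1)) := by simp
    rw [e1, e2]
    exact it_merge hΛ _ _ _ _ _ 1 (fun s => h.abs_le _ _) fun s m s1 m' s2 hs h1 h2 =>
      pt_abs h A b B1 B2 X Y s m s1 m' s2 hs h1 h2
  · intro ν l X Y X' Y' hc
    exact it_congr Λ _ _ _ fun s _ => pt_rem h l s X Y X' Y' hc

end Pool.Agent.Lib.MP_90b327_co.OI
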