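import Mathlib
import Pool.Agent.Lib.MP_90b327_co.OI.ODefs
import Pool.Agent.Lib.MP_90b327_co.OI.OIt
import Pool.Agent.Lib.MP_90b327_co.OI.OPat
import Pool.Agent.Lib.MP_90b327_co.OI.OLK

/-!
MODULE ONear (60 minutes). The value for near boxes (text 5).

PROOF. K = It Λ 3 (fun s => κ (Pt [0,2,1] s X) (Pt [0,2,1] s Y)) = Λ_{m0} Λ_{m2} Λ_{m1} κ (Pt [0,2,1] [m0,m2,m1] X) (..). For fixed m0, m2 and all large m1 ∈ T (w m1 ≥ m0 + m2, from hw) the value
is -c: the vertices of the blocks: V p = {pair p j | j < size}; X-pattern: cells with coordinate i₀ in V 0, the others in V 0 ∪ V 1 ∪ V 2 (positions 0, 1, 2 have the names 0, 2, 1); Y-pattern: coordinate i₀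
in V 0 ∪ V 2 (names 0 and 1). So Y-pattern = X-pattern ∪ piFinset (update (fun _ => γ') i₀ γ), γ = V 2 (card m1), γ' = V 0 ∪ V 1 ∪ V 2 (card m0 + m2 + m1), disjoint: hbad. Then `Mean.ev`
(bound 1 by KP.abs_le) three times (the outer means are means of constants).
-/

set_option autoImplicit false

namespace Pool.Agent.Lib.MP_90b327_co.OI

open Finset Filter Topology
open Pool.Agent.Lib.MP_90b327_co.WW (mv)

private theorem on_mem_vts (s : List ℕ) (v : ℕ) :
    v ∈ vts s ↔ (Nat.unpair v).2 < s.getD (Nat.unpair v).1 0 := by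
  simp only [vts, mem_biUnion, mem_range, mem_image]
  constructor
  · rintro ⟨p, -, j, hj, rfl⟩
    rw [Nat.unpair_pair]
    exact hj
  · intro h
    refine ⟨(Nat.unpair v).1, ?_, (Nat.unpair v).2, h, Nat.pair_unpair v⟩
    by_contra hcon
    rw [List.getD_eq_default _ _ (not_lt.1 hcon)] at h
    exact absurd h (Nat.not_lt_zero _)

private theorem on_lt {s : List ℕ} {v : ℕ} (h : v ∈ vts s) : (Nat.unpair v).1 < s.length := by
  rw [on_mem_vts] at h
  by_contra hcon
  rw [List.getD_eq_default _ _ (not_lt.1 hcon)] at h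
  exact absurd h (Nat.not_lt_zero _)

private theorem on_mem {d : ℕ} (i₀ : Fin d) (m0 m2 m1 : ℕ) (Q : Fin 3 → Prop) (c : Fin d → ℕ) :
    c ∈ Pt ([0, 2, 1] : List (Fin 3)) [m0, m2, m1] (fun t => Q (t i₀)) ↔
      (∀ i, c i ∈ vts [m0, m2, m1]) ∧
        Q (([0, 2, 1] : List (Fin 3)).getD (Nat.unpair (c i₀)).1 0) := by
  rw [mem_Pt]
  constructor
  · rintro ⟨h1, t, ht, hQ⟩
    refine ⟨fun i => (on_mem_vts _ _).2 (h1 i), ?_⟩
    rw [List.getD_eq_getElem?_getD, ht i₀]
    exact hQ
  · rintro ⟨h1, hQ⟩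
    refine ⟨fun i => (on_mem_vts _ _).1 (h1 i),
      fun i => ([0, 2, 1] : List (Fin 3)).getD (Nat.unpair (c i)).1 0, fun i => ?_, hQ⟩
    have h2 : (Nat.unpair (c i)).1 < ([0, 2, 1] : List (Fin 3)).length := by
      have := on_lt (h1 i)
      simpa using this
    rw [List.getElem?_eq_getElem h2]
    exact congrArg some (List.getD_eq_getElem _ _ h2).symm

theorem near_val {d : ℕ} {κ : Finset (Fin d → ℕ) → Finset (Fin d → ℕ) → ℝ} (h : KP d κ) {T : Set ℕ}
    {Λ : (ℕ → ℝ) →ₗ[ℝ] ℝ} (hΛ : Mean T Λ) (i₀ : Fin d) (w : ℕ → ℕ) (hw : Tendsto w atTop atTop)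
    (c : ℝ) (hbad : ∀ (X : Finset (Fin d → ℕ)) (γ γ' : Finset ℕ), γ ⊆ γ' → γ.card ∈ T →
      γ'.card ≤ γ.card + w γ.card →
      Disjoint X (Fintype.piFinset (Function.update (fun _ => γ') i₀ γ)) →
      κ X (X ∪ Fintype.piFinset (Function.update (fun _ => γ') i₀ γ)) = -c) :
    Kf κ Λ (Fin 3) [0, 2, 1] (fun t => t i₀ = 0) (fun t => t i₀ = 0 ∨ t i₀ = 1) = -c := by
  have hmain : ∀ m0 m2 : ℕ, ∃ n₀ : ℕ, ∀ m1, n₀ ≤ m1 → m1 ∈ T →
      κ (Pt ([0, 2, 1] : List (Fin 3)) [m0, m2, m1] (fun t => t i₀ = 0))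
        (Pt ([0, 2, 1] : List (Fin 3)) [m0, m2, m1] (fun t => t i₀ = 0 ∨ t i₀ = 1)) = -c := by
    intro m0 m2
    obtain ⟨n₀, hn₀⟩ := Filter.eventually_atTop.1 (hw.eventually_ge_atTop (m0 + m2))
    refine ⟨n₀, fun m1 hm1 hT => ?_⟩
    have hγ : ∀ v, v ∈ (range m1).image (Nat.pair 2) ↔
        v ∈ vts [m0, m2, m1] ∧ (Nat.unpair v).1 = 2 := by
      intro v
      rw [on_mem_vts]
      simp only [mem_image, mem_range]
      constructor
      · rintro ⟨j, hj, rfl⟩
        rw [Nat.unpair_pair]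
        exact ⟨by simpa using hj, rfl⟩
      · rintro ⟨h1, h2⟩
        rw [h2] at h1
        refine ⟨(Nat.unpair v).2, by simpa using h1, ?_⟩
        rw [← h2, Nat.pair_unpair]
    have hcard : ((range m1).image (Nat.pair 2)).card = m1 := by
      rw [card_image_of_injective, card_range]
      intro x y hxy
      have := congrArg Nat.unpair hxy
      rw [Nat.unpair_pair, Nat.unpair_pair] at this
      exact (Prod.mk.inj this).2
    have hcard' : (vts [m0, m2, m1]).card ≤ m0 + m2 + m1 := by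
      unfold vts
      refine card_biUnion_le.trans ?_
      have h3 : ∀ p ∈ range ([m0, m2, m1] : List ℕ).length,
          ((range (([m0, m2, m1] : List ℕ).getD p 0)).image (Nat.pair p)).card ≤
            ([m0, m2, m1] : List ℕ).getD p 0 := by
        intro p _
        exact card_image_le.trans (card_range _).le
      refine (sum_le_sum h3).trans ?_
      simp [Finset.sum_range_succ]
    have hsub : (range m1).image (Nat.pair 2) ⊆ vts [m0, m2, m1] := fun v hv => ((hγ v).1 hv).1
    have hdis : Disjoint (Pt ([0, 2, 1] : List (Fin 3)) [m0, m2, m1] (fun t : Fin d → Fin 3 => t i₀ = 0))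
        (Fintype.piFinset (Function.update (fun _ => vts [m0, m2, m1]) i₀
          ((range m1).image (Nat.pair 2)))) := by
      rw [Finset.disjoint_left]
      intro e h1 h2
      rw [on_mem i₀ m0 m2 m1 (fun n => n = 0)] at h1
      rw [Fintype.mem_piFinset] at h2
      have h3 := h2 i₀
      rw [Function.update_self, hγ] at h3
      have h4 := h1.2
      rw [h3.2] at h4
      revert h4
      decide
    have hY : Pt ([0, 2, 1] : List (Fin 3)) [m0, m2, m1] (fun t : Fin d → Fin 3 => t i₀ = 0 ∨ t i₀ = 1) =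
        Pt ([0, 2, 1] : List (Fin 3)) [m0, m2, m1] (fun t : Fin d → Fin 3 => t i₀ = 0) ∪
        Fintype.piFinset (Function.update (fun _ => vts [m0, m2, m1]) i₀
          ((range m1).image (Nat.pair 2))) := by
      ext e
      rw [mem_union, on_mem i₀ m0 m2 m1 (fun n => n = 0 ∨ n = 1), on_mem i₀ m0 m2 m1 (fun n => n = 0),
        Fintype.mem_piFinset]
      constructor
      · rintro ⟨h1, h2⟩
        rcases h2 with h2 | h2
        · exact Or.inl ⟨h1, h2⟩
        · right
          intro i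
          by_cases hi : i = i₀
          · subst hi
            rw [Function.update_self, hγ]
            refine ⟨h1 i, ?_⟩
            have h3 := on_lt (h1 i)
            simp only [List.length_cons, List.length_nil] at h3
            generalize (Nat.unpair (e i)).1 = p at h2 h3
            interval_cases p
            · exact absurd h2 (by decide)
            · exact absurd h2 (by decide)
            · rfl
          · rw [Function.update_of_ne hi]
            exact h1 i
      · rintro (⟨h1, h2⟩ | h)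
        · exact ⟨h1, Or.inl h2⟩
        · have h1 : ∀ i, e i ∈ vts [m0, m2, m1] := by
            intro i
            have h3 := h i
            by_cases hi : i = i₀
            · subst hi
              rw [Function.update_self] at h3
              exact hsub h3
            · rwa [Function.update_of_ne hi] at h3
          refine ⟨h1, Or.inr ?_⟩
          have h3 := h i₀
          rw [Function.update_self, hγ] at h3
          rw [h3.2]
          decide
    rw [hY]
    refine hbad _ _ _ hsub ?_ ?_ hdis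
    · rw [hcard]
      exact hT
    · rw [hcard]
      have := hn₀ m1 hm1
      omega
  have habs : ∀ m0 m2 m1 : ℕ,
      |κ (Pt ([0, 2, 1] : List (Fin 3)) [m0, m2, m1] (fun t => t i₀ = 0))
        (Pt ([0, 2, 1] : List (Fin 3)) [m0, m2, m1] (fun t => t i₀ = 0 ∨ t i₀ = 1))| ≤ 1 :=
    fun m0 m2 m1 => h.abs_le _ _
  have h1 : ∀ m0 m2 : ℕ, Λ (fun m1 =>
      κ (Pt ([0, 2, 1] : List (Fin 3)) [m0, m2, m1] (fun t => t i₀ = 0))
        (Pt ([0, 2, 1] : List (Fin 3)) [m0, m2, m1] (fun t => t i₀ = 0 ∨ t i₀ = 1))) = -c := by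
    intro m0 m2
    obtain ⟨n₀, hn₀⟩ := hmain m0 m2
    exact hΛ.ev _ 1 (habs m0 m2) (-c) n₀ hn₀
  have hconst : Λ (fun _ => -c) = -c :=
    hΛ.ev (fun _ => -c) |(-c)| (fun _ => le_refl _) (-c) 0 fun _ _ _ => rfl
  change Λ (fun m0 => Λ (fun m2 => Λ (fun m1 =>
      κ (Pt ([0, 2, 1] : List (Fin 3)) [m0, m2, m1] (fun t => t i₀ = 0))
        (Pt ([0, 2, 1] : List (Fin 3)) [m0, m2, m1] (fun t => t i₀ = 0 ∨ t i₀ = 1))))) = -c
  simp_rw [h1, hconst]

end Pool.Agent.Lib.MP_90b327_co.OI
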