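import Mathlib
import Pool.Agent.Lib.MP_90b327_co.OI.ODefs
import Pool.Agent.Lib.MP_90b327_co.OI.OBan
import Pool.Agent.Lib.MP_90b327_co.OI.OLK
import Pool.Agent.Lib.MP_90b327_co.OI.OEnd
import Pool.Agent.Lib.MP_90b327_co.OI.ONear
import Pool.Agent.Lib.MP_90b327_co.WW.GLimit
import Pool.Agent.Lib.MP_90b327_co.WW.GFiber
import Pool.Agent.Lib.MP_90b327_co.WW.GJoint

/-!
MODULE OFin (60 minutes). The theorem.

`nsh`: the shape class: P = piFinset (update (fun _ => γ') i₀ γ) with γ ⊆ γ', |γ| ∈ T, |γ'| ≤ |γ| + w |γ|; img as in WW/WShape.lean (images of γ, γ' under ι). As in WW/WFinal.lean: by `gfiber`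
it suffices to find one N₀ for all families on [N₀]^d; otherwise `exists_glim`, `exists_jk` give g with JK d (nsh ..) D g, D ≥ δ > 0. D < 1: psd for (X, Y) = (∅, up P), coefficients (1, -1)...:
with the bad pair g X Y = 0: D^2 (a + b)^2 ≤ D a^2 + D b^2 for a = b = 1: 4 D^2 ≤ 2 D, D ≤ 1/2. (a shape exists: T is not empty, γ = γ' = range n, n ∈ T.) κ := (g - D^2)/(D - D^2) is KP (psd from
JK.psd; one, symm, inv, rem clear), hbad with c = D/(1 - D): γ, γ' finite sets of naturals; the shape as `up` of a shape on Fin n, n larger than all elements.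
`exists_mean`, `lk_of`, `oend`, `near_val`: 0 ≤ -c < 0. Final statement for all coordinates: N₀ = sup over i₀ : Fin d (finitely many).
-/

set_option autoImplicit false

namespace Pool.Agent.Lib.MP_90b327_co.OI

open Finset Filter Topology
open Pool.Agent.Lib.MP_90b327_co.WW (mv Shp GoodS JK up exists_glim exists_jk gfiber)

/-- images of near boxes -/
private theorem of_img {d : ℕ} {α β : Type} [DecidableEq α] [DecidableEq β] (f : α → β)
    (i₀ : Fin d) (γ γ' : Finset α) :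
    (Fintype.piFinset (Function.update (fun _ => γ') i₀ γ)).image (fun c => f ∘ c) =
      Fintype.piFinset (Function.update (fun _ => γ'.image f) i₀ (γ.image f)) := by
  have h1 : (Function.update (fun _ : Fin d => γ'.image f) i₀ (γ.image f)) =
      fun i => (Function.update (fun _ : Fin d => γ') i₀ γ i).image f := by
    funext i
    by_cases hi : i = i₀
    · subst hi
      rw [Function.update_self, Function.update_self]
    · rw [Function.update_of_ne hi, Function.update_of_ne hi]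
  rw [h1]
  ext c
  rw [mem_image, Fintype.mem_piFinset]
  constructor
  · rintro ⟨b, hb, rfl⟩ i
    exact mem_image_of_mem _ (Fintype.mem_piFinset.1 hb i)
  · intro h
    have h' : ∀ i, ∃ v ∈ Function.update (fun _ : Fin d => γ') i₀ γ i, f v = c i :=
      fun i => mem_image.1 (h i)
    choose v hv hv' using h'
    exact ⟨v, Fintype.mem_piFinset.2 hv, funext hv'⟩

/-- the class of near boxes -/
def nsh (d : ℕ) (i₀ : Fin d) (T : Set ℕ) (w : ℕ → ℕ) : Shp d where
  sh N P := ∃ γ γ' : Finset (Fin N), γ ⊆ γ' ∧ γ.card ∈ T ∧ γ'.card ≤ γ.card + w γ.card ∧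
    P = Fintype.piFinset (Function.update (fun _ => γ') i₀ γ)
  img := by
    intro K N ι hι P hP
    obtain ⟨γ, γ', h1, h2, h3, rfl⟩ := hP
    refine ⟨γ.image ι, γ'.image ι, image_subset_image h1, ?_, ?_, of_img ι i₀ γ γ'⟩
    · rw [card_image_of_injective _ hι]; exact h2
    · rw [card_image_of_injective _ hι, card_image_of_injective _ hι]; exact h3

/-- a finite set of naturals as a finite set of `Fin n` -/
private theorem of_fin (γ : Finset ℕ) (n : ℕ) (h : ∀ v ∈ γ, v < n) :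
    ∃ η : Finset (Fin n), η.image Fin.val = γ ∧ η.card = γ.card ∧ ∀ v : Fin n, v ∈ η ↔ (v : ℕ) ∈ γ := by
  refine ⟨univ.filter (fun v : Fin n => (v : ℕ) ∈ γ), ?_, ?_, ?_⟩
  · ext v
    rw [mem_image]
    constructor
    · rintro ⟨u, hu, rfl⟩
      exact (mem_filter.1 hu).2
    · intro hv
      exact ⟨⟨v, h v hv⟩, mem_filter.2 ⟨mem_univ _, hv⟩, rfl⟩
  · rw [← card_image_of_injective _ (Fin.val_injective (n := n))]
    congr 1
    ext v
    rw [mem_image]
    constructor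
    · rintro ⟨u, hu, rfl⟩
      exact (mem_filter.1 hu).2
    · intro hv
      exact ⟨⟨v, h v hv⟩, mem_filter.2 ⟨mem_univ _, hv⟩, rfl⟩
  · intro v
    rw [mem_filter]
    simp

private theorem of_bad {d : ℕ} {i₀ : Fin d} {T : Set ℕ} {w : ℕ → ℕ} {D : ℝ}
    {g : Finset (Fin d → ℕ) → Finset (Fin d → ℕ) → ℝ} (hg : JK d (nsh d i₀ T w) D g)
    (X : Finset (Fin d → ℕ)) (γ γ' : Finset ℕ) (h1 : γ ⊆ γ') (h2 : γ.card ∈ T)
    (h3 : γ'.card ≤ γ.card + w γ.card)
    (hd : Disjoint X (Fintype.piFinset (Function.update (fun _ => γ') i₀ γ))) :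
    g X (X ∪ Fintype.piFinset (Function.update (fun _ => γ') i₀ γ)) = 0 := by
  set n := γ'.sup id + 1 with hn
  have hlt : ∀ v ∈ γ', v < n := by
    intro v hv
    have : v ≤ γ'.sup id := Finset.le_sup (f := id) hv
    omega
  obtain ⟨η', he', hc', hm'⟩ := of_fin γ' n hlt
  obtain ⟨η, he, hc, hm⟩ := of_fin γ n (fun v hv => hlt v (h1 hv))
  have hup : up (Fintype.piFinset (Function.update (fun _ => η') i₀ η)) =
      Fintype.piFinset (Function.update (fun _ => γ') i₀ γ) := by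
    have := of_img (Fin.val : Fin n → ℕ) i₀ η η'
    rw [he, he'] at this
    exact this
  rw [← hup] at hd ⊢
  refine hg.bad n _ ?_ X hd
  refine ⟨η, η', ?_, ?_, ?_, rfl⟩
  · intro v hv
    exact (hm' v).2 (h1 ((hm v).1 hv))
  · rw [hc]; exact h2
  · rw [hc, hc']; exact h3

private theorem of_half {d : ℕ} {i₀ : Fin d} {T : Set ℕ} (hT : Thick T) {w : ℕ → ℕ} {D : ℝ}
    (hD : 0 < D) {g : Finset (Fin d → ℕ) → Finset (Fin d → ℕ) → ℝ}
    (hg : JK d (nsh d i₀ T w) D g) : D ≤ 1 / 2 := by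
  obtain ⟨x, -, hx⟩ := hT 1
  have hx' : x ∈ T := by simpa using hx 0 (by omega)
  set B : Finset (Fin d → ℕ) := Fintype.piFinset (Function.update (fun _ => range x) i₀ (range x))
    with hB
  have h0 : g ∅ (∅ ∪ B) = 0 := by
    refine of_bad hg ∅ (range x) (range x) subset_rfl ?_ ?_ (disjoint_empty_left _)
    · rw [card_range]; exact hx'
    · omega
  rw [empty_union] at h0
  have h1 : g B ∅ = 0 := by rw [hg.symm, h0]
  have h2 := hg.psd Bool (fun b => if b then B else ∅) (fun _ => 1)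
  simp only [Fintype.sum_bool, if_true, Bool.false_eq_true, if_false, mul_one, one_mul, h0, h1,
    hg.diag] at h2
  nlinarith

private theorem of_kp {d : ℕ} {C : Shp d} {D : ℝ} (hD : 0 < D) (hD' : D ≤ 1 / 2)
    {g : Finset (Fin d → ℕ) → Finset (Fin d → ℕ) → ℝ} (hg : JK d C D g) :
    KP d (fun X Y => (g X Y - D ^ 2) / (D - D ^ 2)) := by
  have hpos : 0 < D - D ^ 2 := by nlinarith
  refine ⟨?_, ?_, ?_, ?_, ?_⟩
  · intro X Y
    simp only [hg.symm X Y]
  · intro X
    simp only [hg.diag X]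
    exact div_self hpos.ne'
  · intro ι _ X a
    have h1 := hg.psd ι X a
    have h2 : ∑ i, ∑ j, a i * a j * ((g (X i) (X j) - D ^ 2) / (D - D ^ 2)) =
        ((∑ i, ∑ j, a i * a j * g (X i) (X j)) - D ^ 2 * (∑ i, a i) ^ 2) / (D - D ^ 2) := by
      have h3 : D ^ 2 * (∑ i, a i) ^ 2 = ∑ i, ∑ j, a i * a j * D ^ 2 := by
        rw [sq (∑ i, a i), Finset.sum_mul_sum, Finset.mul_sum]
        refine Finset.sum_congr rfl fun i _ => ?_
        rw [Finset.mul_sum]
        refine Finset.sum_congr rfl fun j _ => ?_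
        ring
      rw [h3, ← Finset.sum_sub_distrib, Finset.sum_div]
      refine Finset.sum_congr rfl fun i _ => ?_
      rw [← Finset.sum_sub_distrib, Finset.sum_div]
      refine Finset.sum_congr rfl fun j _ => ?_
      ring
    rw [h2]
    exact div_nonneg (by linarith) hpos.le
  · intro σ hσ X Y
    simp only [hg.inv σ hσ X Y]
  · intro X Y v h
    simp only [← hg.rem X Y v h]

private theorem of_no {d : ℕ} (i₀ : Fin d) {T : Set ℕ} (hT : Thick T) {w : ℕ → ℕ}
    (hw : Tendsto w atTop atTop) {D : ℝ} (hD : 0 < D)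
    {g : Finset (Fin d → ℕ) → Finset (Fin d → ℕ) → ℝ}
    (hg : JK d (nsh d i₀ T w) D g) : False := by
  have hD' := of_half hT hD hg
  have hpos : 0 < D - D ^ 2 := by nlinarith
  have hk := of_kp hD hD' hg
  obtain ⟨Λ, hΛ⟩ := exists_mean T hT
  have h1 := oend (lk_of hk hΛ) i₀
  have h2 := near_val hk hΛ i₀ w hw (D ^ 2 / (D - D ^ 2)) (by
    intro X γ γ' h3 h4 h5 h6
    simp only [of_bad hg X γ γ' h3 h4 h5 h6]
    ring)
  rw [h2] at h1
  have h3 : 0 < D ^ 2 / (D - D ^ 2) := div_pos (by positivity) hpos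
  linarith

theorem near_cubes (d : ℕ) (δ : ℝ) (hδ : 0 < δ) (T : Set ℕ) (hT : Thick T) (w : ℕ → ℕ)
    (hw : Tendsto w atTop atTop) :
    ∃ N₀ : ℕ, ∀ N, N₀ ≤ N → ∀ i₀ : Fin d, ∀ S : Finset (Finset (Fin d → Fin N)),
      δ * 2 ^ (N ^ d) < (S.card : ℝ) →
      ∃ A ∈ S, ∃ γ γ' : Finset (Fin N), γ ⊆ γ' ∧ γ.card ∈ T ∧ γ'.card ≤ γ.card + w γ.card ∧
        Disjoint A (Fintype.piFinset (Function.update (fun _ => γ') i₀ γ)) ∧
        A ∪ Fintype.piFinset (Function.update (fun _ => γ') i₀ γ) ∈ S := by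
  have key : ∀ i₀ : Fin d, ∃ N₀ : ℕ, ∀ S : Finset (Finset (Fin d → Fin N₀)),
      δ * 2 ^ (N₀ ^ d) < (S.card : ℝ) → GoodS (nsh d i₀ T w) N₀ S := by
    intro i₀
    by_contra hcon
    push Not at hcon
    have hd : 1 ≤ d := i₀.pos
    obtain ⟨δ', hδ', ⟨L⟩⟩ := exists_glim d hd (nsh d i₀ T w) δ (fun N => by
      obtain ⟨S, hS, hS'⟩ := hcon N
      exact ⟨S, hS, hS'⟩)
    obtain ⟨g, hg⟩ := exists_jk L
    exact of_no i₀ hT hw (lt_of_lt_of_le hδ hδ') hg
  choose N₀ hN₀ using key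
  refine ⟨univ.sup N₀, fun N hN i₀ S hS => ?_⟩
  have hN' : N₀ i₀ ≤ N := (Finset.le_sup (f := N₀) (mem_univ i₀)).trans hN
  obtain ⟨A, hA, P, ⟨γ, γ', h1, h2, h3, hP⟩, h5, h6⟩ :=
    gfiber d (nsh d i₀ T w) δ hδ (N₀ i₀) (hN₀ i₀) N hN' S hS
  rw [hP] at h5 h6
  exact ⟨A, hA, γ, γ', h1, h2, h3, h5, h6⟩

end Pool.Agent.Lib.MP_90b327_co.OI
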